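import Pool.Agent.H733R2.BPde

set_option autoImplicit false

namespace Pool.Agent.H733R2

open Set Filter Topology

lemma contDiff_nsq {n : WithTop ℕ∞} : ContDiff ℝ n nsq := by
  unfold nsq
  fun_prop

lemma contDiffAt_yy {n : WithTop ℕ∞} {Y : Fin 4 → ℝ} (hY : Y 0 < 1) :
    ContDiffAt ℝ n (fun Y : Fin 4 → ℝ => nsq Y / (1 - Y 0) ^ 2) Y := by
  have hs : (1 - Y 0) ^ 2 ≠ 0 := by
    have : 0 < 1 - Y 0 := by linarith
    positivity
  exact contDiff_nsq.contDiffAt.div (by fun_prop) hs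

lemma contDiffAt_ww {n : WithTop ℕ∞} {Y : Fin 4 → ℝ} (hY : Y 0 < 1) :
    ContDiffAt ℝ n ww Y := by
  have h := ((contDiffAt_yy (n := n) hY).const_smul (2 : ℝ)).sub (contDiffAt_const (c := (1 : ℝ)))
  refine h.congr_of_eventuallyEq (Eventually.of_forall fun Y => ?_)
  simp [ww]
  ring

lemma contDiffAt_fld {a : ℝ} {F : ℝ → ℝ} (hF : Sm F) {Y : Fin 4 → ℝ} (hY : Y ∈ Om) :
    ContDiffAt ℝ (⊤ : ℕ∞) (fld a F) Y := by
  have hs : 1 - Y 0 ≠ 0 := by have := hY.1; linarith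
  unfold fld
  refine ContDiffAt.mul ?_ ?_
  · exact ContDiffAt.rpow_const_of_ne (by fun_prop) hs
  · have h1 : ContDiffAt ℝ (⊤ : ℕ∞) F (ww Y) :=
      ContDiffOn.contDiffAt hF (isOpen_Ioo.mem_nhds (ww_mem hY))
    exact h1.comp Y (contDiffAt_ww hY.1)

lemma contDiffAt_UU {a : ℝ} {X Z : ℝ → ℝ} (hX : Sm X) (hZ : Sm Z) {Y : Fin 4 → ℝ}
    (hY : Y ∈ Om) : ContDiffAt ℝ (⊤ : ℕ∞) (UU a X Z) Y := by
  rw [contDiffAt_pi]
  intro i
  fin_cases i
  · exact contDiffAt_fld hX hY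
  · exact contDiffAt_const
  · exact contDiffAt_fld hZ hY

/-- the constant map -/
def ez : Fin 3 → ℝ := ![0, 0, 1]

/-- the conical cutoff -/
noncomputable def chi (Y : Fin 4 → ℝ) : ℝ :=
  Real.smoothTransition (34 - 32 * (nsq Y / (1 - Y 0) ^ 2))

/-- conically cut off solution -/
noncomputable def VV (a : ℝ) (X Z : ℝ → ℝ) (Y : Fin 4 → ℝ) : Fin 3 → ℝ :=
  chi Y • UU a X Z Y + (1 - chi Y) • ez

lemma contDiffAt_chi {Y : Fin 4 → ℝ} (hY : Y 0 < 1) : ContDiffAt ℝ (⊤ : ℕ∞) chi Y := by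
  unfold chi
  have h1 : ContDiffAt ℝ (⊤ : ℕ∞) (fun Y : Fin 4 → ℝ => 34 - 32 * (nsq Y / (1 - Y 0) ^ 2)) Y :=
    contDiffAt_const.sub (contDiffAt_const.mul (contDiffAt_yy hY))
  exact (Real.smoothTransition.contDiff.contDiffAt).comp Y h1

lemma chi_zero {Y : Fin 4 → ℝ} (hY : Y 0 < 1) (h : 17 / 16 * (1 - Y 0) ^ 2 ≤ nsq Y) :
    chi Y = 0 := by
  have hs : 0 < (1 - Y 0) ^ 2 := by
    have : 0 < 1 - Y 0 := by linarith
    positivity
  unfold chi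
  apply Real.smoothTransition.zero_of_nonpos
  have : 17 / 16 ≤ nsq Y / (1 - Y 0) ^ 2 := by rw [le_div_iff₀ hs]; exact h
  linarith

lemma chi_one {Y : Fin 4 → ℝ} (hY : Y 0 < 1) (h : nsq Y ≤ 33 / 32 * (1 - Y 0) ^ 2) :
    chi Y = 1 := by
  have hs : 0 < (1 - Y 0) ^ 2 := by
    have : 0 < 1 - Y 0 := by linarith
    positivity
  unfold chi
  apply Real.smoothTransition.one_of_one_le
  have : nsq Y / (1 - Y 0) ^ 2 ≤ 33 / 32 := by rw [div_le_iff₀ hs]; exact h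
  linarith

lemma contDiffAt_VV {a : ℝ} {X Z : ℝ → ℝ} (hX : Sm X) (hZ : Sm Z) {Y : Fin 4 → ℝ}
    (hY : Y 0 < 1) : ContDiffAt ℝ (⊤ : ℕ∞) (VV a X Z) Y := by
  by_cases h : nsq Y < 9 / 8 * (1 - Y 0) ^ 2
  · have hO : Y ∈ Om := ⟨hY, h⟩
    unfold VV
    exact ((contDiffAt_chi hY).smul (contDiffAt_UU hX hZ hO)).add
      ((contDiffAt_const.sub (contDiffAt_chi hY)).smul contDiffAt_const)
  · push Not at h
    have hs : 0 < (1 - Y 0) ^ 2 := by
      have : 0 < 1 - Y 0 := by linarith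
      positivity
    have hopen : IsOpen {Y : Fin 4 → ℝ | Y 0 < 1 ∧ 17 / 16 * (1 - Y 0) ^ 2 < nsq Y} :=
      IsOpen.inter (isOpen_lt (continuous_apply 0) continuous_const)
        (isOpen_lt (by fun_prop) continuous_nsq)
    have hmem : Y ∈ {Y : Fin 4 → ℝ | Y 0 < 1 ∧ 17 / 16 * (1 - Y 0) ^ 2 < nsq Y} :=
      ⟨hY, by linarith⟩
    have : VV a X Z =ᶠ[𝓝 Y] fun _ => ez := by
      filter_upwards [hopen.mem_nhds hmem] with Y' hY'
      unfold VV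
      rw [chi_zero hY'.1 hY'.2.le]
      simp
    exact contDiffAt_const.congr_of_eventuallyEq this

lemma UU_pos {a : ℝ} {X Z : ℝ → ℝ} (h : Profile a X Z) {Y : Fin 4 → ℝ} (hY : Y ∈ Om) :
    0 < UU a X Z Y 2 := by
  have hs : 0 < 1 - Y 0 := by have := hY.1; linarith
  show 0 < fld a Z Y
  unfold fld
  exact mul_pos (Real.rpow_pos_of_pos hs a) (h.Z_pos _ (ww_mem hY))

lemma conv_pos {c p q : ℝ} (h0 : 0 ≤ c) (h1 : c ≤ 1) (hp : 0 < p) (hq : 0 < q) :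
    0 < c * p + (1 - c) * q := by
  rcases h0.eq_or_lt with h | h
  · rw [← h]; linarith
  · have := mul_pos h hp
    have h2 : 0 ≤ (1 - c) * q := mul_nonneg (by linarith) hq.le
    linarith

lemma VV_pos {a : ℝ} {X Z : ℝ → ℝ} (h : Profile a X Z) {Y : Fin 4 → ℝ} (hY : Y 0 < 1) :
    0 < VV a X Z Y 2 := by
  have e : VV a X Z Y 2 = chi Y * UU a X Z Y 2 + (1 - chi Y) * 1 := by
    unfold VV ez
    simp
  rw [e]
  by_cases hO : nsq Y < 9 / 8 * (1 - Y 0) ^ 2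
  · exact conv_pos (Real.smoothTransition.nonneg _) (Real.smoothTransition.le_one _)
      (UU_pos h ⟨hY, hO⟩) one_pos
  · push Not at hO
    have hs : 0 < (1 - Y 0) ^ 2 := by
      have : 0 < 1 - Y 0 := by linarith
      positivity
    rw [chi_zero hY (by linarith)]
    norm_num

/-- time cutoff -/
noncomputable def th (T : ℝ) (t : ℝ) : ℝ := Real.smoothTransition (((1 + T) / 2 - t) * (2 / (1 - T)))

lemma th_one {T t : ℝ} (hT : T < 1) (ht : t ≤ T) : th T t = 1 := by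
  unfold th
  apply Real.smoothTransition.one_of_one_le
  have h1 : 0 < 1 - T := by linarith
  rw [mul_div_assoc', le_div_iff₀ h1]
  linarith

lemma th_zero {T t : ℝ} (hT : T < 1) (ht : (1 + T) / 2 ≤ t) : th T t = 0 := by
  unfold th
  apply Real.smoothTransition.zero_of_nonpos
  have h1 : 0 < 1 - T := by linarith
  exact mul_nonpos_of_nonpos_of_nonneg (by linarith) (by positivity)

lemma contDiff_th (T : ℝ) : ContDiff ℝ (⊤ : ℕ∞) (fun Y : Fin 4 → ℝ => th T (Y 0)) := by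
  unfold th
  exact Real.smoothTransition.contDiff.comp (by fun_prop)

/-- globally smooth approximate solution -/
noncomputable def WW (a : ℝ) (X Z : ℝ → ℝ) (T : ℝ) (Y : Fin 4 → ℝ) : Fin 3 → ℝ :=
  th T (Y 0) • VV a X Z Y + (1 - th T (Y 0)) • ez

lemma contDiff_WW {a : ℝ} {X Z : ℝ → ℝ} (hX : Sm X) (hZ : Sm Z) {T : ℝ} (hT : T < 1) :
    ContDiff ℝ (⊤ : ℕ∞) (WW a X Z T) := by
  rw [contDiff_iff_contDiffAt]
  intro Y
  by_cases hY : Y 0 < 1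
  · unfold WW
    exact ((contDiff_th T).contDiffAt.smul (contDiffAt_VV hX hZ hY)).add
      ((contDiffAt_const.sub (contDiff_th T).contDiffAt).smul contDiffAt_const)
  · push Not at hY
    have hopen : IsOpen {Y : Fin 4 → ℝ | (1 + T) / 2 < Y 0} :=
      isOpen_lt continuous_const (continuous_apply 0)
    have hmem : Y ∈ {Y : Fin 4 → ℝ | (1 + T) / 2 < Y 0} := by
      show (1 + T) / 2 < Y 0
      linarith
    have : WW a X Z T =ᶠ[𝓝 Y] fun _ => ez := by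
      filter_upwards [hopen.mem_nhds hmem] with Y' hY'
      unfold WW
      rw [th_zero hT (le_of_lt hY')]
      simp
    exact contDiffAt_const.congr_of_eventuallyEq this

lemma WW_pos {a : ℝ} {X Z : ℝ → ℝ} (h : Profile a X Z) {T : ℝ} (hT : T < 1) (Y : Fin 4 → ℝ) :
    0 < WW a X Z T Y 2 := by
  have e : WW a X Z T Y 2 = th T (Y 0) * VV a X Z Y 2 + (1 - th T (Y 0)) * 1 := by
    unfold WW ez
    simp
  rw [e]
  by_cases hY : Y 0 < 1
  · exact conv_pos (Real.smoothTransition.nonneg _) (Real.smoothTransition.le_one _)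
      (VV_pos h hY) one_pos
  · push Not at hY
    rw [th_zero hT (by linarith)]
    norm_num

lemma WW_eq_VV {a : ℝ} {X Z : ℝ → ℝ} {T : ℝ} (hT : T < 1) {Y : Fin 4 → ℝ} (hY : Y 0 < T) :
    WW a X Z T =ᶠ[𝓝 Y] VV a X Z := by
  have hopen : IsOpen {Y : Fin 4 → ℝ | Y 0 < T} := isOpen_lt (continuous_apply 0) continuous_const
  filter_upwards [hopen.mem_nhds hY] with Y' hY'
  unfold WW
  rw [th_one hT (le_of_lt hY')]
  simp

lemma VV_eq_UU {a : ℝ} {X Z : ℝ → ℝ} {Y : Fin 4 → ℝ} (hY : Y 0 < 1)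
    (h : nsq Y ≤ (1 - Y 0) ^ 2) : VV a X Z =ᶠ[𝓝 Y] UU a X Z := by
  have hs : 0 < (1 - Y 0) ^ 2 := by
    have : 0 < 1 - Y 0 := by linarith
    positivity
  have hopen : IsOpen {Y : Fin 4 → ℝ | Y 0 < 1 ∧ nsq Y < 33 / 32 * (1 - Y 0) ^ 2} :=
    IsOpen.inter (isOpen_lt (continuous_apply 0) continuous_const)
      (isOpen_lt continuous_nsq (by fun_prop))
  have hmem : Y ∈ {Y : Fin 4 → ℝ | Y 0 < 1 ∧ nsq Y < 33 / 32 * (1 - Y 0) ^ 2} :=
    ⟨hY, by linarith⟩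
  filter_upwards [hopen.mem_nhds hmem] with Y' hY'
  unfold VV
  rw [chi_one hY'.1 hY'.2.le]
  simp

lemma WW_eq_UU {a : ℝ} {X Z : ℝ → ℝ} {T : ℝ} (hT : T < 1) {Y : Fin 4 → ℝ} (hY : Y 0 < T)
    (h : nsq Y ≤ (1 - Y 0) ^ 2) : WW a X Z T =ᶠ[𝓝 Y] UU a X Z :=
  (WW_eq_VV hT hY).trans (VV_eq_UU (hY.trans hT) h)

lemma box_congr {u v : (Fin 4 → ℝ) → (Fin 3 → ℝ)} {P : Fin 4 → ℝ} (h : u =ᶠ[𝓝 P] v) (k : Fin 3) :
    box u k P = box v k P := by
  unfold box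
  apply Finset.sum_congr rfl
  intro μ _
  have h1 : (fun Y => fderiv ℝ u Y (Pi.single μ 1) k) =ᶠ[𝓝 P]
      fun Y => fderiv ℝ v Y (Pi.single μ 1) k := by
    filter_upwards [h.eventuallyEq_nhds] with Y hY
    rw [hY.fderiv_eq]
  rw [h1.fderiv_eq]

lemma pd_congr {u v : (Fin 4 → ℝ) → (Fin 3 → ℝ)} {P : Fin 4 → ℝ} (h : u =ᶠ[𝓝 P] v) (μ : Fin 4)
    (k : Fin 3) : pd u μ k P = pd v μ k P := by
  unfold pd
  rw [h.fderiv_eq]

lemma eqn_congr {u v : (Fin 4 → ℝ) → (Fin 3 → ℝ)} {P : Fin 4 → ℝ} (h : u =ᶠ[𝓝 P] v) (k : Fin 3) :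
    eqn u P k = eqn v P k := by
  rw [eqn_eq, eqn_eq, box_congr h, h.eq_of_nhds]
  have : (fun μ i => pd u μ i P) = fun μ i => pd v μ i P := by
    funext μ i; exact pd_congr h μ i
  rw [this]

end Pool.Agent.H733R2
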