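import Pool.Agent.H733R2.Defs

set_option autoImplicit false

namespace Pool.Agent.H733R2

open Set Filter Topology

/-- squared spatial norm -/
noncomputable def nsq (Y : Fin 4 → ℝ) : ℝ := Y 1 ^ 2 + Y 2 ^ 2 + Y 3 ^ 2

/-- the self-similar variable `w = 2 |x|²/(1-t)² - 1` -/
noncomputable def ww (Y : Fin 4 → ℝ) : ℝ := 2 * nsq Y / (1 - Y 0) ^ 2 - 1

/-- `(1-t)^a F(w)` -/
noncomputable def fld (a : ℝ) (F : ℝ → ℝ) (Y : Fin 4 → ℝ) : ℝ := (1 - Y 0) ^ a * F (ww Y)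

/-- time derivative on profiles -/
noncomputable def GG (a : ℝ) (F : ℝ → ℝ) (w : ℝ) : ℝ := -a * F w + 2 * (1 + w) * deriv F w

lemma hasFDerivAt_nsq (Y : Fin 4 → ℝ) :
    HasFDerivAt nsq ((2 * Y 1) • (ContinuousLinearMap.proj 1 : (Fin 4 → ℝ) →L[ℝ] ℝ) +
      (2 * Y 2) • (ContinuousLinearMap.proj 2 : (Fin 4 → ℝ) →L[ℝ] ℝ) +
      (2 * Y 3) • (ContinuousLinearMap.proj 3 : (Fin 4 → ℝ) →L[ℝ] ℝ)) Y := by
  have h1 := (hasFDerivAt_apply (𝕜 := ℝ) (1 : Fin 4) Y).pow 2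
  have h2 := (hasFDerivAt_apply (𝕜 := ℝ) (2 : Fin 4) Y).pow 2
  have h3 := (hasFDerivAt_apply (𝕜 := ℝ) (3 : Fin 4) Y).pow 2
  have h := (h1.add h2).add h3
  refine HasFDerivAt.congr_fderiv h ?_
  simp

lemma hasFDerivAt_s (Y : Fin 4 → ℝ) :
    HasFDerivAt (fun Y : Fin 4 → ℝ => 1 - Y 0)
      (-(ContinuousLinearMap.proj 0 : (Fin 4 → ℝ) →L[ℝ] ℝ)) Y := by
  have h := (hasFDerivAt_apply (𝕜 := ℝ) (0 : Fin 4) Y).const_sub (1 : ℝ)
  exact h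

lemma hasFDerivAt_fld {a : ℝ} {F : ℝ → ℝ} {Y : Fin 4 → ℝ} (hY : Y 0 < 1)
    (hF : DifferentiableAt ℝ F (ww Y)) :
    ∃ L : (Fin 4 → ℝ) →L[ℝ] ℝ, HasFDerivAt (fld a F) L Y ∧
      ∀ v, L v = v 0 * fld (a - 1) (GG a F) Y +
        4 * (Y 1 * v 1 + Y 2 * v 2 + Y 3 * v 3) * fld (a - 2) (deriv F) Y := by
  have hs : 0 < 1 - Y 0 := by linarith
  have h1 := hasFDerivAt_s Y
  have hr : HasFDerivAt (fun Y : Fin 4 → ℝ => (1 - Y 0) ^ a) _ Y :=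
    h1.rpow_const (p := a) (Or.inl hs.ne')
  have hinv : HasFDerivAt (fun Y : Fin 4 → ℝ => ((1 - Y 0) ^ 2)⁻¹) _ Y :=
    (hasDerivAt_inv (pow_pos hs 2).ne').comp_hasFDerivAt Y (h1.pow 2)
  have hw0 := ((hasFDerivAt_nsq Y).const_mul 2).mul hinv
  have hw : HasFDerivAt ww _ Y := (hw0.sub_const 1).congr_of_eventuallyEq
    (Eventually.of_forall (fun Y => by unfold ww; simp [div_eq_mul_inv]))
  have hFw := hF.hasDerivAt.comp_hasFDerivAt Y hw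
  have h := hr.mul hFw
  refine ⟨_, h, ?_⟩
  intro v
  have e1 : (1 - Y 0) ^ (a - 1) = (1 - Y 0) ^ a / (1 - Y 0) := Real.rpow_sub_one hs.ne' a
  have e2 : (1 - Y 0) ^ (a - 2) = (1 - Y 0) ^ a / (1 - Y 0) ^ 2 := by
    have := Real.rpow_sub_natCast hs.ne' a 2
    simpa using this
  unfold fld GG
  simp only [add_apply, smul_apply,
    neg_apply, ContinuousLinearMap.proj_apply, smul_eq_mul, Function.comp]
  rw [e1, e2]
  have hww : ww Y = 2 * nsq Y / (1 - Y 0) ^ 2 - 1 := rfl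
  generalize F (ww Y) = f0
  generalize hg : deriv F (ww Y) = f1
  rw [hww]
  have hs' := hs.ne'
  generalize (1 - Y 0) ^ a = p
  field_simp
  simp
  ring

end Pool.Agent.H733R2
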