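import Pool.Agent.H733R2.BFld

set_option autoImplicit false

namespace Pool.Agent.H733R2

open Set Filter Topology

/-- the domain of smoothness of the self-similar solution -/
def Om : Set (Fin 4 → ℝ) := {Y | Y 0 < 1 ∧ nsq Y < 9 / 8 * (1 - Y 0) ^ 2}

lemma continuous_nsq : Continuous nsq := by
  unfold nsq
  fun_prop

lemma isOpen_Om : IsOpen Om := by
  unfold Om
  refine IsOpen.inter ?_ ?_
  · exact isOpen_lt (continuous_apply 0) continuous_const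
  · exact isOpen_lt continuous_nsq (by fun_prop)

lemma nsq_nonneg (Y : Fin 4 → ℝ) : 0 ≤ nsq Y := by unfold nsq; positivity

lemma ww_mem {Y : Fin 4 → ℝ} (hY : Y ∈ Om) : ww Y ∈ Ioo (-(5/4) : ℝ) (5/4) := by
  obtain ⟨h1, h2⟩ := hY
  have hs : 0 < (1 - Y 0) ^ 2 := by
    have : 0 < 1 - Y 0 := by linarith
    positivity
  have h3 : 0 ≤ 2 * nsq Y / (1 - Y 0) ^ 2 := div_nonneg (by linarith [nsq_nonneg Y]) hs.le
  have h4 : 2 * nsq Y / (1 - Y 0) ^ 2 < 9 / 4 := by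
    rw [div_lt_iff₀ hs]; linarith
  unfold ww
  constructor <;> linarith

/-- smooth profiles -/
def Sm (F : ℝ → ℝ) : Prop := ContDiffOn ℝ (⊤ : ℕ∞) F (Ioo (-(5/4)) (5/4))

lemma Sm.diff {F : ℝ → ℝ} (h : Sm F) {w : ℝ} (hw : w ∈ Ioo (-(5/4) : ℝ) (5/4)) :
    DifferentiableAt ℝ F w := by
  have h1 := (ContDiffOn.contDiffAt h (isOpen_Ioo.mem_nhds hw))
  exact h1.differentiableAt (by simp)

lemma Sm.deriv {F : ℝ → ℝ} (h : Sm F) : Sm (deriv F) :=
  ContDiffOn.deriv_of_isOpen h isOpen_Ioo (by simp)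

lemma Sm.GG {F : ℝ → ℝ} (h : Sm F) (a : ℝ) : Sm (GG a F) := by
  have h1 : Sm (_root_.deriv F) := h.deriv
  unfold Sm Pool.Agent.H733R2.GG at *
  refine ContDiffOn.add (contDiffOn_const.mul h) (ContDiffOn.mul ?_ h1)
  fun_prop

lemma fderiv_fld {a : ℝ} {F : ℝ → ℝ} (hF : Sm F) {Y : Fin 4 → ℝ} (hY : Y ∈ Om) (v : Fin 4 → ℝ) :
    fderiv ℝ (fld a F) Y v = v 0 * fld (a - 1) (GG a F) Y +
        4 * (Y 1 * v 1 + Y 2 * v 2 + Y 3 * v 3) * fld (a - 2) (deriv F) Y := by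
  obtain ⟨L, hL, hv⟩ := hasFDerivAt_fld (a := a) hY.1 (hF.diff (ww_mem hY))
  rw [hL.fderiv, hv]

lemma differentiableAt_fld {a : ℝ} {F : ℝ → ℝ} (hF : Sm F) {Y : Fin 4 → ℝ} (hY : Y ∈ Om) :
    DifferentiableAt ℝ (fld a F) Y := by
  obtain ⟨L, hL, _⟩ := hasFDerivAt_fld (a := a) hY.1 (hF.diff (ww_mem hY))
  exact hL.differentiableAt

lemma fderiv_fld_t {a : ℝ} {F : ℝ → ℝ} (hF : Sm F) {Y : Fin 4 → ℝ} (hY : Y ∈ Om) :
    fderiv ℝ (fld a F) Y (Pi.single 0 1) = fld (a - 1) (GG a F) Y := by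
  rw [fderiv_fld hF hY]
  simp

lemma fderiv_fld_x {a : ℝ} {F : ℝ → ℝ} (hF : Sm F) {Y : Fin 4 → ℝ} (hY : Y ∈ Om) {i : Fin 4}
    (hi : i ≠ 0) :
    fderiv ℝ (fld a F) Y (Pi.single i 1) = 4 * Y i * fld (a - 2) (deriv F) Y := by
  rw [fderiv_fld hF hY]
  fin_cases i
  · exact absurd rfl hi
  · simp
  · simp
  · simp

lemma second_t {a : ℝ} {F : ℝ → ℝ} (hF : Sm F) {Y : Fin 4 → ℝ} (hY : Y ∈ Om) :
    fderiv ℝ (fun Y => fderiv ℝ (fld a F) Y (Pi.single 0 1)) Y (Pi.single 0 1) =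
      fld (a - 2) (GG (a - 1) (GG a F)) Y := by
  have h : (fun Y => fderiv ℝ (fld a F) Y (Pi.single 0 1)) =ᶠ[𝓝 Y] fld (a - 1) (GG a F) := by
    filter_upwards [isOpen_Om.mem_nhds hY] with Y' hY'
    exact fderiv_fld_t hF hY'
  rw [h.fderiv_eq, fderiv_fld_t (hF.GG a) hY]
  congr 1
  ring

lemma second_x {a : ℝ} {F : ℝ → ℝ} (hF : Sm F) {Y : Fin 4 → ℝ} (hY : Y ∈ Om) {i : Fin 4}
    (hi : i ≠ 0) :
    fderiv ℝ (fun Y => fderiv ℝ (fld a F) Y (Pi.single i 1)) Y (Pi.single i 1) =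
      4 * fld (a - 2) (deriv F) Y + 16 * (Y i) ^ 2 * fld (a - 4) (deriv (deriv F)) Y := by
  have h : (fun Y => fderiv ℝ (fld a F) Y (Pi.single i 1)) =ᶠ[𝓝 Y]
      fun Y => 4 * Y i * fld (a - 2) (deriv F) Y := by
    filter_upwards [isOpen_Om.mem_nhds hY] with Y' hY'
    exact fderiv_fld_x hF hY' hi
  rw [h.fderiv_eq]
  have h1 := ((hasFDerivAt_apply (𝕜 := ℝ) i Y).const_mul (4 : ℝ)).mul
    (differentiableAt_fld (a := a - 2) hF.deriv hY).hasFDerivAt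
  have h2 : HasFDerivAt (fun Y : Fin 4 → ℝ => 4 * Y i * fld (a - 2) (deriv F) Y) _ Y := h1
  rw [h2.fderiv]
  simp only [add_apply, smul_apply, ContinuousLinearMap.proj_apply, smul_eq_mul, Pi.single_eq_same]
  rw [fderiv_fld_x hF.deriv hY hi]
  have : a - 2 - 2 = a - 4 := by ring
  rw [this]
  ring

/-- profile d'Alembertian -/
noncomputable def bx (a : ℝ) (F : ℝ → ℝ) (w : ℝ) : ℝ :=
  -a * (a - 1) * F w + ((4 * a - 6) * (1 + w) + 12) * deriv F w + 4 * (1 - w ^ 2) * deriv (deriv F) w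

lemma box_fld {a : ℝ} {F : ℝ → ℝ} (hF : Sm F) {Y : Fin 4 → ℝ} (hY : Y ∈ Om) :
    ∑ μ : Fin 4, (if μ = 0 then (-1 : ℝ) else 1) *
      fderiv ℝ (fun Y => fderiv ℝ (fld a F) Y (Pi.single μ 1)) Y (Pi.single μ 1) =
      (1 - Y 0) ^ (a - 2) * bx a F (ww Y) := by
  have hs : 0 < 1 - Y 0 := by have := hY.1; linarith
  rw [Fin.sum_univ_four, if_pos rfl, if_neg (by decide), if_neg (by decide), if_neg (by decide),
    second_t hF hY, second_x hF hY (by decide), second_x hF hY (by decide),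
    second_x hF hY (by decide)]
  have hw := ww_mem hY
  have hd : deriv (GG a F) (ww Y) = -a * deriv F (ww Y) + (2 * deriv F (ww Y) +
      2 * (1 + ww Y) * deriv (deriv F) (ww Y)) := by
    have h1 := ((hF.diff hw).hasDerivAt.const_mul (-a)).add
      ((((hasDerivAt_id (ww Y)).const_add 1).const_mul 2).mul (hF.deriv.diff hw).hasDerivAt)
    have h2 := h1.deriv
    have h3 : GG a F = ((fun y => -a * F y) + ((fun y => 2 * (1 + id y)) * deriv F)) := by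
      funext y; simp [GG]
    rw [h3, h2]
    simp
  have e4 : (1 - Y 0) ^ (a - 4) = (1 - Y 0) ^ (a - 2) / (1 - Y 0) ^ 2 := by
    have := Real.rpow_sub_natCast hs.ne' (a - 2) 2
    have h5 : a - 4 = a - 2 - ((2 : ℕ) : ℝ) := by push_cast; ring
    rw [h5, this]
  have hn : nsq Y = (1 - Y 0) ^ 2 * (1 + ww Y) / 2 := by
    unfold ww; field_simp; ring
  have hn' : Y 1 ^ 2 + Y 2 ^ 2 + Y 3 ^ 2 = (1 - Y 0) ^ 2 * (1 + ww Y) / 2 := hn
  unfold fld bx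
  rw [e4]
  have e5 : GG (a - 1) (GG a F) (ww Y) = -(a - 1) * GG a F (ww Y) +
    2 * (1 + ww Y) * deriv (GG a F) (ww Y) := rfl
  rw [e5, hd]
  have e6 : GG a F (ww Y) = -a * F (ww Y) + 2 * (1 + ww Y) * deriv F (ww Y) := rfl
  rw [e6]
  generalize F (ww Y) = f0
  generalize deriv F (ww Y) = f1
  generalize deriv (deriv F) (ww Y) = f2
  have hs2 : (1 - Y 0) ^ 2 ≠ 0 := (pow_pos hs 2).ne'
  have key : 16 * Y 1 ^ 2 * ((1 - Y 0) ^ (a - 2) / (1 - Y 0) ^ 2 * f2) +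
      16 * Y 2 ^ 2 * ((1 - Y 0) ^ (a - 2) / (1 - Y 0) ^ 2 * f2) +
      16 * Y 3 ^ 2 * ((1 - Y 0) ^ (a - 2) / (1 - Y 0) ^ 2 * f2) =
      8 * (1 + ww Y) * (1 - Y 0) ^ (a - 2) * f2 := by
    have : 16 * Y 1 ^ 2 * ((1 - Y 0) ^ (a - 2) / (1 - Y 0) ^ 2 * f2) +
      16 * Y 2 ^ 2 * ((1 - Y 0) ^ (a - 2) / (1 - Y 0) ^ 2 * f2) +
      16 * Y 3 ^ 2 * ((1 - Y 0) ^ (a - 2) / (1 - Y 0) ^ 2 * f2) =
      16 * (Y 1 ^ 2 + Y 2 ^ 2 + Y 3 ^ 2) * ((1 - Y 0) ^ (a - 2) / (1 - Y 0) ^ 2 * f2) := by ring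
    rw [this, hn']
    field_simp
    ring
  linear_combination key

/-- Minkowski product of gradients, on profiles -/
noncomputable def dd (a : ℝ) (F G : ℝ → ℝ) (w : ℝ) : ℝ :=
  -a ^ 2 * F w * G w + 2 * a * (1 + w) * (F w * deriv G w + deriv F w * G w) +
    4 * (1 - w ^ 2) * deriv F w * deriv G w

lemma grad_fld {a : ℝ} {F G : ℝ → ℝ} (hF : Sm F) (hG : Sm G) {Y : Fin 4 → ℝ} (hY : Y ∈ Om) :
    ∑ μ : Fin 4, (if μ = 0 then (-1 : ℝ) else 1) *
      (fderiv ℝ (fld a F) Y (Pi.single μ 1) * fderiv ℝ (fld a G) Y (Pi.single μ 1)) =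
      ((1 - Y 0) ^ (a - 1)) ^ 2 * dd a F G (ww Y) := by
  have hs : 0 < 1 - Y 0 := by have := hY.1; linarith
  rw [Fin.sum_univ_four, if_pos rfl, if_neg (by decide), if_neg (by decide), if_neg (by decide),
    fderiv_fld_t hF hY, fderiv_fld_t hG hY, fderiv_fld_x hF hY (by decide),
    fderiv_fld_x hG hY (by decide), fderiv_fld_x hF hY (by decide),
    fderiv_fld_x hG hY (by decide), fderiv_fld_x hF hY (by decide), fderiv_fld_x hG hY (by decide)]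
  have hn : nsq Y = (1 - Y 0) ^ 2 * (1 + ww Y) / 2 := by
    unfold ww; field_simp; ring
  have hn' : Y 1 ^ 2 + Y 2 ^ 2 + Y 3 ^ 2 = (1 - Y 0) ^ 2 * (1 + ww Y) / 2 := hn
  have e1 : (1 - Y 0) ^ (a - 2) = (1 - Y 0) ^ (a - 1) / (1 - Y 0) := by
    have h5 : a - 2 = a - 1 - 1 := by ring
    rw [h5, Real.rpow_sub_one hs.ne']
  have e5 : GG a F (ww Y) = -a * F (ww Y) + 2 * (1 + ww Y) * deriv F (ww Y) := rfl
  have e6 : GG a G (ww Y) = -a * G (ww Y) + 2 * (1 + ww Y) * deriv G (ww Y) := rfl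
  unfold fld dd
  rw [e1, e5, e6]
  generalize F (ww Y) = f0
  generalize deriv F (ww Y) = f1
  generalize G (ww Y) = g0
  generalize deriv G (ww Y) = g1
  generalize (1 - Y 0) ^ (a - 1) = p
  have hs1 := hs.ne'
  have key : 1 * (4 * Y 1 * (p / (1 - Y 0) * f1) * (4 * Y 1 * (p / (1 - Y 0) * g1))) +
      1 * (4 * Y 2 * (p / (1 - Y 0) * f1) * (4 * Y 2 * (p / (1 - Y 0) * g1))) +
      1 * (4 * Y 3 * (p / (1 - Y 0) * f1) * (4 * Y 3 * (p / (1 - Y 0) * g1))) =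
      8 * (1 + ww Y) * p ^ 2 * f1 * g1 := by
    have : 1 * (4 * Y 1 * (p / (1 - Y 0) * f1) * (4 * Y 1 * (p / (1 - Y 0) * g1))) +
      1 * (4 * Y 2 * (p / (1 - Y 0) * f1) * (4 * Y 2 * (p / (1 - Y 0) * g1))) +
      1 * (4 * Y 3 * (p / (1 - Y 0) * f1) * (4 * Y 3 * (p / (1 - Y 0) * g1))) =
      16 * (Y 1 ^ 2 + Y 2 ^ 2 + Y 3 ^ 2) * (p / (1 - Y 0)) ^ 2 * f1 * g1 := by ring
    rw [this, hn']
    field_simp
    ring
  linear_combination key

/-- the self-similar solution -/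
noncomputable def UU (a : ℝ) (X Z : ℝ → ℝ) (Y : Fin 4 → ℝ) : Fin 3 → ℝ :=
  ![fld a X Y, 0, fld a Z Y]

lemma differentiableAt_UU {a : ℝ} {X Z : ℝ → ℝ} (hX : Sm X) (hZ : Sm Z) {Y : Fin 4 → ℝ}
    (hY : Y ∈ Om) : DifferentiableAt ℝ (UU a X Z) Y := by
  rw [differentiableAt_pi]
  intro i
  fin_cases i
  · exact differentiableAt_fld hX hY
  · exact differentiableAt_const _
  · exact differentiableAt_fld hZ hY

lemma fd_apply {u : (Fin 4 → ℝ) → (Fin 3 → ℝ)} {Y : Fin 4 → ℝ} (h : DifferentiableAt ℝ u Y)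
    (v : Fin 4 → ℝ) (k : Fin 3) : fderiv ℝ u Y v k = fderiv ℝ (fun Y => u Y k) Y v := by
  have h1 := (hasFDerivAt_pi'.1 h.hasFDerivAt k).fderiv
  rw [h1]
  rfl

/-- the left hand side of the wave map equation -/
noncomputable def eqn (u : (Fin 4 → ℝ) → (Fin 3 → ℝ)) (P : Fin 4 → ℝ) (k : Fin 3) : ℝ :=
  ∑ μ : Fin 4, (if μ = 0 then (-1 : ℝ) else 1) *
            (fderiv ℝ (fun Y => fderiv ℝ u Y (Pi.single μ 1) k) P (Pi.single μ 1) +
              ∑ i : Fin 3, ∑ j : Fin 3,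
                (-((if i = k then (1 : ℝ) else 0) * (if j = 2 then (1 : ℝ) else 0)
                    + (if j = k then (1 : ℝ) else 0) * (if i = 2 then (1 : ℝ) else 0)
                    - (if i = j then (1 : ℝ) else 0) * (if k = 2 then (1 : ℝ) else 0)) / u P 2)
                  * fderiv ℝ u P (Pi.single μ 1) i * fderiv ℝ u P (Pi.single μ 1) j)

/-- the quadratic part of the equation -/
noncomputable def NL (p : ℝ) (D : Fin 4 → Fin 3 → ℝ) (k : Fin 3) : ℝ :=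
  ∑ μ : Fin 4, (if μ = 0 then (-1 : ℝ) else 1) *
              ∑ i : Fin 3, ∑ j : Fin 3,
                (-((if i = k then (1 : ℝ) else 0) * (if j = 2 then (1 : ℝ) else 0)
                    + (if j = k then (1 : ℝ) else 0) * (if i = 2 then (1 : ℝ) else 0)
                    - (if i = j then (1 : ℝ) else 0) * (if k = 2 then (1 : ℝ) else 0)) / p)
                  * D μ i * D μ j

lemma eqn_eq (u : (Fin 4 → ℝ) → (Fin 3 → ℝ)) (P : Fin 4 → ℝ) (k : Fin 3) :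
    eqn u P k = box u k P + NL (u P 2) (fun μ i => pd u μ i P) k := by
  unfold eqn box NL pd
  rw [← Finset.sum_add_distrib]
  apply Finset.sum_congr rfl
  intro μ _
  ring

lemma box_UU {a : ℝ} {X Z : ℝ → ℝ} (hX : Sm X) (hZ : Sm Z) {P : Fin 4 → ℝ} (hP : P ∈ Om)
    (k : Fin 3) : box (UU a X Z) k P =
      ![(1 - P 0) ^ (a - 2) * bx a X (ww P), 0, (1 - P 0) ^ (a - 2) * bx a Z (ww P)] k := by
  have h : ∀ μ : Fin 4, (fun Y => fderiv ℝ (UU a X Z) Y (Pi.single μ 1) k) =ᶠ[𝓝 P]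
      fun Y => fderiv ℝ (fun Y => UU a X Z Y k) Y (Pi.single μ 1) := by
    intro μ
    filter_upwards [isOpen_Om.mem_nhds hP] with Y hY
    exact fd_apply (differentiableAt_UU hX hZ hY) _ _
  unfold box
  have h1 : ∀ μ : Fin 4, fderiv ℝ (fun Y => fderiv ℝ (UU a X Z) Y (Pi.single μ 1) k) P
      (Pi.single μ 1) = fderiv ℝ (fun Y => fderiv ℝ (fun Y => UU a X Z Y k) Y (Pi.single μ 1)) P
      (Pi.single μ 1) := by
    intro μ; rw [(h μ).fderiv_eq]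
  rw [Finset.sum_congr rfl (fun μ _ => by rw [h1 μ])]
  fin_cases k
  · exact box_fld hX hP
  · have : (fun Y => UU a X Z Y 1) = fun _ => (0 : ℝ) := rfl
    simp [this]
  · exact box_fld hZ hP

lemma pd_UU {a : ℝ} {X Z : ℝ → ℝ} (hX : Sm X) (hZ : Sm Z) {P : Fin 4 → ℝ} (hP : P ∈ Om)
    (μ : Fin 4) (k : Fin 3) : pd (UU a X Z) μ k P =
      ![fderiv ℝ (fld a X) P (Pi.single μ 1), 0, fderiv ℝ (fld a Z) P (Pi.single μ 1)] k := by
  unfold pd
  rw [fd_apply (differentiableAt_UU hX hZ hP)]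
  fin_cases k
  · rfl
  · have : (fun Y => UU a X Z Y 1) = fun _ => (0 : ℝ) := rfl
    simp [this]
  · rfl

lemma eqn_UU {a : ℝ} {X Z : ℝ → ℝ} (h : Profile a X Z) {P : Fin 4 → ℝ} (hP : P ∈ Om)
    (k : Fin 3) : eqn (UU a X Z) P k = 0 := by
  have hX : Sm X := h.smoothX
  have hZ : Sm Z := h.smoothZ
  have hs : 0 < 1 - P 0 := by have := hP.1; linarith
  have hw := ww_mem hP
  have hZp := h.Z_pos _ hw
  have hE1 := h.E1 _ hw
  have hE2 := h.E2 _ hw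
  rw [eqn_eq, box_UU hX hZ hP]
  have hfun : (fun μ i => pd (UU a X Z) μ i P) = fun μ i =>
      ![fderiv ℝ (fld a X) P (Pi.single μ 1), 0, fderiv ℝ (fld a Z) P (Pi.single μ 1)] i := by
    funext μ i; exact pd_UU hX hZ hP μ i
  rw [hfun]
  have hXZ := grad_fld (a := a) hX hZ hP
  have hZZ := grad_fld (a := a) hZ hZ hP
  have hXX := grad_fld (a := a) hX hX hP
  have hU2 : UU a X Z P 2 = (1 - P 0) ^ a * Z (ww P) := rfl
  rw [hU2]
  have hpa : 0 < (1 - P 0) ^ a := Real.rpow_pos_of_pos hs a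
  have e2 : (1 - P 0) ^ (a - 2) = (1 - P 0) ^ a / (1 - P 0) ^ 2 := by
    have := Real.rpow_sub_natCast hs.ne' a 2
    simpa using this
  have e1 : (1 - P 0) ^ (a - 1) = (1 - P 0) ^ a / (1 - P 0) := Real.rpow_sub_one hs.ne' a
  unfold NL
  rw [Fin.sum_univ_four] at hXZ hZZ hXX ⊢
  simp only [Fin.sum_univ_three]
  unfold dd at hXZ hZZ hXX
  unfold bx
  rw [e2]
  rw [e1] at hXZ hZZ hXX
  generalize (1 - P 0) ^ a = p at *
  generalize ww P = w at *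
  generalize X w = x0 at *
  generalize deriv X w = x1 at *
  generalize deriv (deriv X) w = x2 at *
  generalize Z w = z0 at *
  generalize deriv Z w = z1 at *
  generalize deriv (deriv Z) w = z2 at *
  generalize fderiv ℝ (fld a X) P (Pi.single 0 1) = a0 at *
  generalize fderiv ℝ (fld a X) P (Pi.single 1 1) = a1 at *
  generalize fderiv ℝ (fld a X) P (Pi.single 2 1) = a2 at *
  generalize fderiv ℝ (fld a X) P (Pi.single 3 1) = a3 at *
  generalize fderiv ℝ (fld a Z) P (Pi.single 0 1) = b0 at *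
  generalize fderiv ℝ (fld a Z) P (Pi.single 1 1) = b1 at *
  generalize fderiv ℝ (fld a Z) P (Pi.single 2 1) = b2 at *
  generalize fderiv ℝ (fld a Z) P (Pi.single 3 1) = b3 at *
  generalize 1 - P 0 = s at *
  fin_cases k
  · simp at hXZ hZZ hXX ⊢
    have hp1 := hpa.ne'
    have hs1 := hs.ne'
    have hz1 := hZp.ne'
    linear_combination (norm := (field_simp; ring)) (-2 / (p * z0)) * hXZ +
      (p / (s ^ 2 * z0)) * hE1
  · simp
  · simp at hXZ hZZ hXX ⊢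
    have hp1 := hpa.ne'
    have hs1 := hs.ne'
    have hz1 := hZp.ne'
    linear_combination (norm := (field_simp; ring)) (1 / (p * z0)) * hXX -
      (1 / (p * z0)) * hZZ + (p / (s ^ 2 * z0)) * hE2

end Pool.Agent.H733R2
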