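import Pool.Agent.H733R2.BCut

set_option autoImplicit false

namespace Pool.Agent.H733R2

open Set Filter Topology

lemma quot_diff {m M x y x' y' p q : ℝ} (hm : 0 < m) (hx : |x| ≤ M) (hy : |y| ≤ M)
    (hx' : |x'| ≤ M) (hp : m ≤ p) (hq : m ≤ q) :
    |x * y / p - x' * y' / q| ≤ M ^ 2 / m ^ 2 * |p - q| + M / m * (|x - x'| + |y - y'|) := by
  have hp0 : 0 < p := hm.trans_le hp
  have hq0 : 0 < q := hm.trans_le hq
  have hM : 0 ≤ M := (abs_nonneg x).trans hx
  have e : x * y / p - x' * y' / q =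
      (x * y) * ((q - p) / (p * q)) + ((x - x') * y / q + x' * (y - y') / q) := by
    field_simp
    ring
  rw [e]
  have h1 : |(x * y) * ((q - p) / (p * q))| ≤ M ^ 2 / m ^ 2 * |p - q| := by
    rw [abs_mul, abs_mul, abs_div, abs_of_pos (mul_pos hp0 hq0), abs_sub_comm q p]
    have h2 : |x| * |y| ≤ M ^ 2 := by
      rw [pow_two]; exact mul_le_mul hx hy (abs_nonneg _) hM
    have h3 : |p - q| / (p * q) ≤ |p - q| / m ^ 2 := by
      apply div_le_div_of_nonneg_left (abs_nonneg _) (by positivity)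
      rw [pow_two]; exact mul_le_mul hp hq hm.le hp0.le
    calc |x| * |y| * (|p - q| / (p * q)) ≤ M ^ 2 * (|p - q| / m ^ 2) := by
          exact mul_le_mul h2 h3 (by positivity) (by positivity)
      _ = M ^ 2 / m ^ 2 * |p - q| := by ring
  have h4 : |(x - x') * y / q| ≤ M / m * |x - x'| := by
    rw [abs_div, abs_mul, abs_of_pos hq0]
    calc |x - x'| * |y| / q ≤ |x - x'| * M / m := by
          apply div_le_div₀ (by positivity) _ hm hq
          exact mul_le_mul_of_nonneg_left hy (abs_nonneg _)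
      _ = M / m * |x - x'| := by ring
  have h5 : |x' * (y - y') / q| ≤ M / m * |y - y'| := by
    rw [abs_div, abs_mul, abs_of_pos hq0]
    calc |x'| * |y - y'| / q ≤ M * |y - y'| / m := by
          apply div_le_div₀ (by positivity) _ hm hq
          exact mul_le_mul_of_nonneg_right hx' (abs_nonneg _)
      _ = M / m * |y - y'| := by ring
  calc _ ≤ |(x * y) * ((q - p) / (p * q))| + |(x - x') * y / q + x' * (y - y') / q| :=
        abs_add_le _ _
    _ ≤ |(x * y) * ((q - p) / (p * q))| + (|(x - x') * y / q| + |x' * (y - y') / q|) := by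
        gcongr
        exact abs_add_le _ _
    _ ≤ _ := by
        have : M / m * (|x - x'| + |y - y'|) = M / m * |x - x'| + M / m * |y - y'| := by ring
        rw [this]
        linarith

lemma coef_le (i j k : Fin 3) : |((if i = k then (1 : ℝ) else 0) * (if j = 2 then (1 : ℝ) else 0)
                    + (if j = k then (1 : ℝ) else 0) * (if i = 2 then (1 : ℝ) else 0)
                    - (if i = j then (1 : ℝ) else 0) * (if k = 2 then (1 : ℝ) else 0))| ≤ 3 := by
  have h : ∀ P Q : Prop, ∀ [Decidable P] [Decidable Q],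
      |(if P then (1 : ℝ) else 0) * (if Q then (1 : ℝ) else 0)| ≤ 1 := by
    intro P Q _ _
    split_ifs <;> norm_num
  have h1 := abs_le.1 (h (i = k) (j = 2))
  have h2 := abs_le.1 (h (j = k) (i = 2))
  have h3 := abs_le.1 (h (i = j) (k = 2))
  rw [abs_le]
  constructor <;> linarith [h1.1, h1.2, h2.1, h2.2, h3.1, h3.2]

lemma NL_diff {m M : ℝ} (hm : 0 < m) (k : Fin 3) {p q : ℝ} (hp : m ≤ p) (hq : m ≤ q)
    {D E : Fin 4 → Fin 3 → ℝ} (hD : ∀ μ i, |D μ i| ≤ M) (hE : ∀ μ i, |E μ i| ≤ M) :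
    |NL p D k - NL q E k| ≤ 108 * (M ^ 2 / m ^ 2 + 2 * (M / m)) *
      (|p - q| + ∑ μ : Fin 4, ∑ i : Fin 3, |D μ i - E μ i|) := by
  have hM : 0 ≤ M := (abs_nonneg _).trans (hD 0 0)
  set S : ℝ := |p - q| + ∑ μ : Fin 4, ∑ i : Fin 3, |D μ i - E μ i| with hS
  set K : ℝ := M ^ 2 / m ^ 2 + 2 * (M / m) with hK
  have hSpq : |p - q| ≤ S := by
    have : 0 ≤ ∑ μ : Fin 4, ∑ i : Fin 3, |D μ i - E μ i| :=
      Finset.sum_nonneg fun μ _ => Finset.sum_nonneg fun i _ => abs_nonneg _
    linarith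
  have hSi : ∀ μ i, |D μ i - E μ i| ≤ S := by
    intro μ i
    have h1 : |D μ i - E μ i| ≤ ∑ i : Fin 3, |D μ i - E μ i| :=
      Finset.single_le_sum (f := fun i => |D μ i - E μ i|) (fun i _ => abs_nonneg _)
        (Finset.mem_univ i)
    have h2 : ∑ i : Fin 3, |D μ i - E μ i| ≤ ∑ μ : Fin 4, ∑ i : Fin 3, |D μ i - E μ i| :=
      Finset.single_le_sum (f := fun μ => ∑ i : Fin 3, |D μ i - E μ i|)
        (fun μ _ => Finset.sum_nonneg fun i _ => abs_nonneg _) (Finset.mem_univ μ)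
    have h3 := abs_nonneg (p - q)
    linarith
  have hS0 : 0 ≤ S := (abs_nonneg _).trans hSpq
  have hMm : 0 ≤ M / m := by positivity
  have hterm : ∀ μ i j, |(-((if i = k then (1 : ℝ) else 0) * (if j = 2 then (1 : ℝ) else 0)
                    + (if j = k then (1 : ℝ) else 0) * (if i = 2 then (1 : ℝ) else 0)
                    - (if i = j then (1 : ℝ) else 0) * (if k = 2 then (1 : ℝ) else 0)) / p)
                  * D μ i * D μ j -
                  (-((if i = k then (1 : ℝ) else 0) * (if j = 2 then (1 : ℝ) else 0)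
                    + (if j = k then (1 : ℝ) else 0) * (if i = 2 then (1 : ℝ) else 0)
                    - (if i = j then (1 : ℝ) else 0) * (if k = 2 then (1 : ℝ) else 0)) / q)
                  * E μ i * E μ j| ≤ 3 * (K * S) := by
    intro μ i j
    have hc := coef_le i j k
    generalize ((if i = k then (1 : ℝ) else 0) * (if j = 2 then (1 : ℝ) else 0)
                    + (if j = k then (1 : ℝ) else 0) * (if i = 2 then (1 : ℝ) else 0)
                    - (if i = j then (1 : ℝ) else 0) * (if k = 2 then (1 : ℝ) else 0)) = c at hc ⊢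
    have e : -c / p * D μ i * D μ j - -c / q * E μ i * E μ j =
        -c * (D μ i * D μ j / p - E μ i * E μ j / q) := by ring
    rw [e, abs_mul, abs_neg]
    have h1 := quot_diff (y' := E μ j) hm (hD μ i) (hD μ j) (hE μ i) hp hq
    have h2 : M ^ 2 / m ^ 2 * |p - q| + M / m * (|D μ i - E μ i| + |D μ j - E μ j|) ≤ K * S := by
      have h3 : M ^ 2 / m ^ 2 * |p - q| ≤ M ^ 2 / m ^ 2 * S :=
        mul_le_mul_of_nonneg_left hSpq (by positivity)
      have h4 : M / m * (|D μ i - E μ i| + |D μ j - E μ j|) ≤ M / m * (S + S) :=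
        mul_le_mul_of_nonneg_left (add_le_add (hSi μ i) (hSi μ j)) hMm
      have : K * S = M ^ 2 / m ^ 2 * S + M / m * (S + S) := by rw [hK]; ring
      rw [this]
      linarith
    exact mul_le_mul hc (h1.trans h2) (abs_nonneg _) (by norm_num)
  have hmu : ∀ μ : Fin 4, |(if μ = 0 then (-1 : ℝ) else 1) *
              (∑ i : Fin 3, ∑ j : Fin 3,
                (-((if i = k then (1 : ℝ) else 0) * (if j = 2 then (1 : ℝ) else 0)
                    + (if j = k then (1 : ℝ) else 0) * (if i = 2 then (1 : ℝ) else 0)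
                    - (if i = j then (1 : ℝ) else 0) * (if k = 2 then (1 : ℝ) else 0)) / p)
                  * D μ i * D μ j) - (if μ = 0 then (-1 : ℝ) else 1) *
              (∑ i : Fin 3, ∑ j : Fin 3,
                (-((if i = k then (1 : ℝ) else 0) * (if j = 2 then (1 : ℝ) else 0)
                    + (if j = k then (1 : ℝ) else 0) * (if i = 2 then (1 : ℝ) else 0)
                    - (if i = j then (1 : ℝ) else 0) * (if k = 2 then (1 : ℝ) else 0)) / q)
                  * E μ i * E μ j)| ≤ 9 * (3 * (K * S)) := by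
    intro μ
    rw [← mul_sub, abs_mul]
    have hs : |(if μ = 0 then (-1 : ℝ) else 1)| = 1 := by split_ifs <;> simp
    rw [hs, one_mul, ← Finset.sum_sub_distrib]
    calc _ ≤ ∑ i : Fin 3, 3 * (3 * (K * S)) := by
          refine (Finset.abs_sum_le_sum_abs _ _).trans (Finset.sum_le_sum fun i _ => ?_)
          rw [← Finset.sum_sub_distrib]
          calc _ ≤ ∑ j : Fin 3, (3 * (K * S)) :=
                (Finset.abs_sum_le_sum_abs _ _).trans (Finset.sum_le_sum fun j _ => hterm μ i j)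
            _ = 3 * (3 * (K * S)) := by simp
      _ = 9 * (3 * (K * S)) := by simp; ring
  unfold NL
  rw [← Finset.sum_sub_distrib]
  calc _ ≤ ∑ μ : Fin 4, 9 * (3 * (K * S)) :=
        (Finset.abs_sum_le_sum_abs _ _).trans (Finset.sum_le_sum fun μ _ => hmu μ)
    _ = 108 * K * S := by simp; ring

lemma pd_sub {v W : (Fin 4 → ℝ) → (Fin 3 → ℝ)} (hv : ContDiff ℝ (⊤ : ℕ∞) v)
    (hW : ContDiff ℝ (⊤ : ℕ∞) W) (μ : Fin 4) (k : Fin 3) (P : Fin 4 → ℝ) :
    pd (fun Y => v Y - W Y) μ k P = pd v μ k P - pd W μ k P := by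
  unfold pd
  rw [fderiv_fun_sub (hv.differentiable (by simp) P) (hW.differentiable (by simp) P)]
  rfl

lemma differentiable_pd {v : (Fin 4 → ℝ) → (Fin 3 → ℝ)} (hv : ContDiff ℝ (⊤ : ℕ∞) v) (μ : Fin 4)
    (k : Fin 3) : Differentiable ℝ (fun Y => fderiv ℝ v Y (Pi.single μ 1) k) := by
  have h1 : ContDiff ℝ (⊤ : ℕ∞) (fderiv ℝ v) := hv.fderiv_right (by simp)
  have h2 : ContDiff ℝ (⊤ : ℕ∞) (fun Y => fderiv ℝ v Y (Pi.single μ 1)) :=
    h1.clm_apply contDiff_const
  exact (contDiff_pi.1 h2 k).differentiable (by simp)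

lemma box_sub {v W : (Fin 4 → ℝ) → (Fin 3 → ℝ)} (hv : ContDiff ℝ (⊤ : ℕ∞) v)
    (hW : ContDiff ℝ (⊤ : ℕ∞) W) (k : Fin 3) (P : Fin 4 → ℝ) :
    box (fun Y => v Y - W Y) k P = box v k P - box W k P := by
  unfold box
  rw [← Finset.sum_sub_distrib]
  apply Finset.sum_congr rfl
  intro μ _
  have h1 : (fun Y => fderiv ℝ (fun Y => v Y - W Y) Y (Pi.single μ 1) k) =
      fun Y => fderiv ℝ v Y (Pi.single μ 1) k - fderiv ℝ W Y (Pi.single μ 1) k := by
    funext Y
    exact pd_sub hv hW μ k Y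
  rw [h1, fderiv_fun_sub (differentiable_pd hv μ k P) (differentiable_pd hW μ k P)]
  rw [sub_apply]
  ring

lemma pd_bound {v : (Fin 4 → ℝ) → (Fin 3 → ℝ)} (hv : ContDiff ℝ (⊤ : ℕ∞) v)
    {K : Set (Fin 4 → ℝ)} (hK : IsCompact K) :
    ∃ M : ℝ, ∀ Y ∈ K, ∀ μ i, |pd v μ i Y| ≤ M := by
  have h1 : Continuous (fderiv ℝ v) := hv.continuous_fderiv (by simp)
  obtain ⟨M, hM⟩ := hK.exists_bound_of_continuousOn h1.continuousOn
  refine ⟨M, fun Y hY μ i => ?_⟩
  unfold pd
  calc |fderiv ℝ v Y (Pi.single μ 1) i| = ‖fderiv ℝ v Y (Pi.single μ 1) i‖ := rfl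
    _ ≤ ‖fderiv ℝ v Y (Pi.single μ 1)‖ := norm_le_pi_norm _ i
    _ ≤ ‖fderiv ℝ v Y‖ * ‖(Pi.single μ 1 : Fin 4 → ℝ)‖ := ContinuousLinearMap.le_opNorm _ _
    _ ≤ ‖fderiv ℝ v Y‖ * 1 := by
        gcongr
        rw [Pi.norm_single]
        simp
    _ ≤ M := by rw [mul_one]; exact hM Y hY

lemma pos_bound {v : (Fin 4 → ℝ) → (Fin 3 → ℝ)} (hv : ContDiff ℝ (⊤ : ℕ∞) v)
    (hpos : ∀ Y, 0 < v Y 2) {K : Set (Fin 4 → ℝ)} (hK : IsCompact K) :
    ∃ m : ℝ, 0 < m ∧ ∀ Y ∈ K, m ≤ v Y 2 := by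
  rcases K.eq_empty_or_nonempty with h | h
  · exact ⟨1, one_pos, by simp [h]⟩
  · have hc : Continuous (fun Y => v Y 2) := (continuous_apply 2).comp hv.continuous
    obtain ⟨Y0, _, hmin⟩ := hK.exists_isMinOn h hc.continuousOn
    exact ⟨v Y0 2, hpos Y0, fun Y hY => hmin hY⟩

lemma vecCons_tail (P : Fin 4 → ℝ) (h : P 0 = 0) : Matrix.vecCons 0 (Matrix.vecTail P) = P := by
  have := Matrix.cons_head_tail P
  rw [show Matrix.vecHead P = 0 from h] at this
  exact this

theorem blowup_of_profile (hU : EnergyUniqueness) {a : ℝ} {X Z : ℝ → ℝ} (h : Profile a X Z) :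
    ¬ (∀ (u0 u1 : (Fin 3 → ℝ) → (Fin 3 → ℝ)),
      ContDiff ℝ (⊤ : ℕ∞) u0 → ContDiff ℝ (⊤ : ℕ∞) u1 → (∀ x, 0 < u0 x 2) →
      ∃ u : (Fin 4 → ℝ) → (Fin 3 → ℝ),
        ContDiff ℝ (⊤ : ℕ∞) u ∧
        (∀ X, 0 < u X 2) ∧
        (∀ x, u (Matrix.vecCons 0 x) = u0 x) ∧
        (∀ x, fderiv ℝ u (Matrix.vecCons 0 x) (Pi.single 0 1) = u1 x) ∧
        ∀ (X : Fin 4 → ℝ) (k : Fin 3),
          ∑ μ : Fin 4, (if μ = 0 then (-1 : ℝ) else 1) *
            (fderiv ℝ (fun Y => fderiv ℝ u Y (Pi.single μ 1) k) X (Pi.single μ 1) +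
              ∑ i : Fin 3, ∑ j : Fin 3,
                (-((if i = k then (1 : ℝ) else 0) * (if j = 2 then (1 : ℝ) else 0)
                    + (if j = k then (1 : ℝ) else 0) * (if i = 2 then (1 : ℝ) else 0)
                    - (if i = j then (1 : ℝ) else 0) * (if k = 2 then (1 : ℝ) else 0)) / u X 2)
                  * fderiv ℝ u X (Pi.single μ 1) i * fderiv ℝ u X (Pi.single μ 1) j) = 0) := by
  intro H
  have hX : Sm X := h.smoothX
  have hZ : Sm Z := h.smoothZ
  have hc0 : ∀ x : Fin 3 → ℝ, (Matrix.vecCons 0 x : Fin 4 → ℝ) 0 < 1 := by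
    intro x
    show (0 : ℝ) < 1
    exact one_pos
  have hcons : ContDiff ℝ (⊤ : ℕ∞) (fun x : Fin 3 → ℝ => (Matrix.vecCons 0 x : Fin 4 → ℝ)) := by
    rw [contDiff_pi]
    intro i
    refine Fin.cases ?_ (fun j => ?_) i
    · exact contDiff_const
    · exact contDiff_apply ℝ ℝ j
  have h0 : ContDiff ℝ (⊤ : ℕ∞) (fun x => VV a X Z (Matrix.vecCons 0 x)) :=
    contDiff_iff_contDiffAt.2 fun x =>
      (contDiffAt_VV hX hZ (hc0 x)).comp x hcons.contDiffAt
  have h1 : ContDiff ℝ (⊤ : ℕ∞)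
      (fun x => fderiv ℝ (VV a X Z) (Matrix.vecCons 0 x) (Pi.single 0 1)) :=
    contDiff_iff_contDiffAt.2 fun x =>
      (((contDiffAt_VV hX hZ (hc0 x)).fderiv_right (m := (⊤ : ℕ∞)) (by simp)).comp x
        hcons.contDiffAt).clm_apply contDiffAt_const
  obtain ⟨v, hv, hvpos, hv0, hv1, hveq⟩ := H _ _ h0 h1 (fun x => VV_pos h (hc0 x))
  have hveq' : ∀ P k, eqn v P k = 0 := hveq
  have claim : ∀ T : ℝ, 0 < T → T < 1 → v ![T, 0, 0, 0] 2 = (1 - T) ^ a * Z (-1) := by
    intro T hT0 hT1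
    have hT' : (1 + T) / 2 < 1 := by linarith
    have hTT : T < (1 + T) / 2 := by linarith
    set W := WW a X Z ((1 + T) / 2) with hWdef
    have hW : ContDiff ℝ (⊤ : ℕ∞) W := contDiff_WW hX hZ hT'
    have hWpos : ∀ Y, 0 < W Y 2 := WW_pos h hT'
    have hKc : IsCompact (Icc (fun _ => (-1 : ℝ)) (fun _ => (1 : ℝ)) : Set (Fin 4 → ℝ)) :=
      isCompact_Icc
    obtain ⟨m1, hm1, hm1'⟩ := pos_bound hv hvpos hKc
    obtain ⟨m2, hm2, hm2'⟩ := pos_bound hW hWpos hKc
    obtain ⟨M1, hM1⟩ := pd_bound hv hKc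
    obtain ⟨M2, hM2⟩ := pd_bound hW hKc
    set m := min m1 m2 with hm
    set M := max M1 M2 with hM
    have hmpos : 0 < m := lt_min hm1 hm2
    have hineq : ∀ P : Fin 4 → ℝ, 0 ≤ P 0 → P 0 ≤ T →
        P 1 ^ 2 + P 2 ^ 2 + P 3 ^ 2 ≤ (1 - P 0) ^ 2 → ∀ k,
        |box (fun Y => v Y - W Y) k P| ≤ (108 * (M ^ 2 / m ^ 2 + 2 * (M / m))) *
          ∑ j : Fin 3, (|(fun Y => v Y - W Y) P j| +
            ∑ μ : Fin 4, |pd (fun Y => v Y - W Y) μ j P|) := by
      intro P hP0 hPT hPn k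
      have hPK : P ∈ (Icc (fun _ => (-1 : ℝ)) (fun _ => (1 : ℝ)) : Set (Fin 4 → ℝ)) := by
        have hb : (1 - P 0) ^ 2 ≤ 1 := by nlinarith
        have hP1 : |P 1| ≤ 1 := by
          rw [← sq_le_one_iff_abs_le_one]
          nlinarith [sq_nonneg (P 2), sq_nonneg (P 3)]
        have hP2 : |P 2| ≤ 1 := by
          rw [← sq_le_one_iff_abs_le_one]
          nlinarith [sq_nonneg (P 1), sq_nonneg (P 3)]
        have hP3 : |P 3| ≤ 1 := by
          rw [← sq_le_one_iff_abs_le_one]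
          nlinarith [sq_nonneg (P 2), sq_nonneg (P 1)]
        rw [abs_le] at hP1 hP2 hP3
        constructor
        · intro i
          fin_cases i
          · show (-1 : ℝ) ≤ P 0
            linarith
          · exact hP1.1
          · exact hP2.1
          · exact hP3.1
        · intro i
          fin_cases i
          · show P 0 ≤ (1 : ℝ)
            linarith
          · exact hP1.2
          · exact hP2.2
          · exact hP3.2
      have hWU : W =ᶠ[𝓝 P] UU a X Z := WW_eq_UU hT' (by linarith) hPn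
      have hPO : P ∈ Om := by
        refine ⟨by linarith, ?_⟩
        have : 0 < (1 - P 0) ^ 2 := by
          have : 0 < 1 - P 0 := by linarith
          positivity
        have h2 : nsq P ≤ (1 - P 0) ^ 2 := hPn
        linarith
      have hWe : eqn W P k = 0 := by
        rw [eqn_congr hWU]
        exact eqn_UU h hPO k
      have hve := hveq' P k
      rw [eqn_eq] at hWe hve
      rw [box_sub hv hW]
      have e1 : box v k P - box W k P = -(NL (v P 2) (fun μ i => pd v μ i P) k -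
          NL (W P 2) (fun μ i => pd W μ i P) k) := by linarith
      rw [e1, abs_neg]
      have hmv : m ≤ v P 2 := (min_le_left _ _).trans (hm1' P hPK)
      have hmW : m ≤ W P 2 := (min_le_right _ _).trans (hm2' P hPK)
      have hMv : ∀ μ i, |pd v μ i P| ≤ M := fun μ i => (hM1 P hPK μ i).trans (le_max_left _ _)
      have hMW : ∀ μ i, |pd W μ i P| ≤ M := fun μ i => (hM2 P hPK μ i).trans (le_max_right _ _)
      have hnl := NL_diff hmpos k hmv hmW (D := fun μ i => pd v μ i P)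
        (E := fun μ i => pd W μ i P) hMv hMW
      refine hnl.trans ?_
      have hM0 : 0 ≤ M := (abs_nonneg _).trans (hMv 0 0)
      apply mul_le_mul_of_nonneg_left _ (by positivity)
      rw [Finset.sum_add_distrib, Finset.sum_comm]
      have e2 : ∀ j μ, pd (fun Y => v Y - W Y) μ j P = pd v μ j P - pd W μ j P :=
        fun j μ => pd_sub hv hW μ j P
      simp only [e2]
      gcongr
      have := Finset.single_le_sum (f := fun j => |(v P - W P) j|) (s := Finset.univ)
        (fun i _ => abs_nonneg _) (Finset.mem_univ (2 : Fin 3))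
      exact this
    have hinit : ∀ P : Fin 4 → ℝ, P 0 = 0 → P 1 ^ 2 + P 2 ^ 2 + P 3 ^ 2 ≤ 1 ^ 2 →
        ∀ j, (fun Y => v Y - W Y) P j = 0 ∧ pd (fun Y => v Y - W Y) 0 j P = 0 := by
      intro P hP0 _ j
      have hPc := vecCons_tail P hP0
      have hWV : W =ᶠ[𝓝 P] VV a X Z := WW_eq_VV hT' (by rw [hP0]; linarith)
      constructor
      · have e1 : v P = VV a X Z P := by
          have := hv0 (Matrix.vecTail P)
          rw [hPc] at this
          exact this
        show v P j - W P j = 0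
        rw [e1, hWV.eq_of_nhds]
        ring
      · rw [pd_sub hv hW, pd_congr hWV]
        have := hv1 (Matrix.vecTail P)
        rw [hPc] at this
        unfold pd
        rw [this]
        ring
    have hfin := hU (fun Y => v Y - W Y) (hv.sub hW) 1 T _ hT0 hT1 hineq hinit
      ![T, 0, 0, 0] (by simpa using hT0.le) (by simp) (by
        simp
        have : 0 < 1 - T := by linarith
        positivity)
    have hvW : v ![T, 0, 0, 0] = W ![T, 0, 0, 0] := sub_eq_zero.1 hfin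
    have hn0 : nsq ![T, 0, 0, 0] = 0 := by
      unfold nsq
      simp
    have hWU : W =ᶠ[𝓝 ![T, 0, 0, 0]] UU a X Z := by
      apply WW_eq_UU hT'
      · show T < (1 + T) / 2
        exact hTT
      · rw [hn0]; positivity
    rw [hvW, hWU.eq_of_nhds]
    show fld a Z ![T, 0, 0, 0] = _
    unfold fld ww
    rw [hn0]
    simp
  have hcontF : Continuous (fun T : ℝ => (![T, 0, 0, 0] : Fin 4 → ℝ)) := by
    refine continuous_pi fun i => ?_
    fin_cases i
    · exact continuous_id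
    · exact continuous_const
    · exact continuous_const
    · exact continuous_const
  have hcont : Continuous (fun T : ℝ => v ![T, 0, 0, 0] 2) :=
    (continuous_apply 2).comp (hv.continuous.comp hcontF)
  have ht1 : Tendsto (fun T : ℝ => v ![T, 0, 0, 0] 2) (𝓝[<] 1) (𝓝 (v ![1, 0, 0, 0] 2)) :=
    (hcont.tendsto 1).mono_left nhdsWithin_le_nhds
  have hcont2 : Continuous (fun T : ℝ => (1 - T) ^ a * Z (-1)) := by
    refine Continuous.mul ?_ continuous_const
    exact Continuous.rpow_const (by fun_prop) (fun _ => Or.inr h.a_pos.le)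
  have ht2 : Tendsto (fun T : ℝ => (1 - T) ^ a * Z (-1)) (𝓝[<] 1) (𝓝 ((1 - 1) ^ a * Z (-1))) :=
    (hcont2.tendsto 1).mono_left nhdsWithin_le_nhds
  have heq : (fun T : ℝ => v ![T, 0, 0, 0] 2) =ᶠ[𝓝[<] 1] fun T : ℝ => (1 - T) ^ a * Z (-1) := by
    have : Ioo (0 : ℝ) 1 ∈ 𝓝[<] (1 : ℝ) := Ioo_mem_nhdsLT one_pos
    filter_upwards [this] with T hT
    exact claim T hT.1 hT.2
  have ht3 := ht1.congr' heq
  have hval := tendsto_nhds_unique ht3 ht2
  rw [sub_self, Real.zero_rpow h.a_pos.ne', zero_mul] at hval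
  exact (hvpos ![1, 0, 0, 0]).ne' hval

end Pool.Agent.H733R2
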