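import Pool.Agent.H733R2.Data

set_option autoImplicit false

open Finset

namespace Pool.Agent.H733R2

/-- weighted norm, accumulator version -/
def nzA : List ℤ → ℕ → ℕ → ℕ
  | [], _, acc => acc
  | c :: t, w, acc => nzA t (w / 4 * 5) (acc + c.natAbs * w)

/-- first entries, padded by zeros -/
def padT : ℕ → List ℤ → List ℤ
  | 0, _ => []
  | n + 1, [] => 0 :: padT n []
  | n + 1, c :: t => c :: padT n t

/-- head entries -/
def headL (v : VZ) : List ℤ :=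
  v.s0 :: v.s1 :: v.s2 :: v.s3 :: (padT 16 v.f ++ padT 16 v.g)

/-- vector with given head entries -/
def PVof (l : List ℤ) : VZ :=
  ⟨l.getD 0 0, l.getD 1 0, l.getD 2 0, l.getD 3 0, padT 16 (l.drop 4), padT 16 (l.drop 20)⟩

/-- scalar product -/
def dotL : List ℤ → List ℤ → ℤ
  | [], _ => 0
  | _ :: _, [] => 0
  | a :: s, b :: t => a * b + dotL s t

/-- matrix times vector -/
def mvL (rows : List (List ℤ)) (h : List ℤ) : List ℤ := rows.map (fun r => dotL r h)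

/-- `2^12 (v - P h) + P (A h)` -/
def appA (v : VZ) : VZ :=
  let h := headL v
  addV (smulV 4096 (addV v (smulV (-1) (PVof h)))) (PVof (mvL rowsI h))

/-- `2^12 u - (2^12 (v - P h) + P (A h))` -/
def resV (u v : VZ) : VZ := addV (smulV 4096 u) (smulV (-1) (appA v))

/-- columns of type `f`, scaled by `2^124 (n+1)(n+2)` -/
def colF (n : ℕ) : VZ :=
  packV
    (addL (smulL (((n + 1) * (n + 2) : ℕ)) (shiftL n b1L)) (smulL (-((n + 2 : ℕ) : ℤ)) (shiftL (n + 1) b2L)))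
    (addL (smulL ((n + 2 : ℕ)) (shiftL (n + 1) q1L)) (shiftL (n + 2) q2L))
    (smulL ((n + 2 : ℕ)) (shiftL (n + 1) b3L))
    (addL (smulL ((n + 2 : ℕ)) (shiftL (n + 1) q3L)) (shiftL (n + 2) q4L))

/-- columns of type `g`, scaled by `2^124 (n+1)(n+2)` -/
def colG (n : ℕ) : VZ :=
  packV
    (addL (shiftL (n + 2) b4L) (smulL (-((n + 2 : ℕ) : ℤ)) (shiftL (n + 1) b3L)))
    (addL (shiftL (n + 2) p2L) (smulL (-((n + 2 : ℕ) : ℤ)) (shiftL (n + 1) q3L)))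
    (addL (smulL (((n + 1) * (n + 2) : ℕ)) (shiftL n b1L))
      (addL (shiftL (n + 2) b5L) (smulL (-((n + 2 : ℕ) : ℤ)) (shiftL (n + 1) b2L))))
    (addL (smulL ((n + 2 : ℕ)) (shiftL (n + 1) q1L)) (shiftL (n + 2) p4L))

/-- scalar columns -/
def col0 : VZ := packV [] r1L [] r2L
/-- scalar columns -/
def col1 : VZ := packV [] q2L [] q4L
/-- scalar columns -/
def col2 : VZ := packV (smulL (-1) b2L) (addL q1L (shiftL 1 q2L)) b3L (addL q3L (shiftL 1 q4L))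
/-- scalar columns -/
def col3 : VZ := packV (addL (shiftL 1 b4L) (smulL (-1) b3L)) (addL (shiftL 1 p2L) (smulL (-1) q3L))
  (addL (shiftL 1 b5L) (smulL (-1) b2L)) (addL q1L (shiftL 1 p4L))

/-- unit vectors, scaled -/
def uF (c : ℤ) (n : ℕ) : VZ := ⟨0, 0, 0, 0, shiftL n [c], []⟩
/-- unit vectors, scaled -/
def uG (c : ℤ) (n : ℕ) : VZ := ⟨0, 0, 0, 0, [], shiftL n [c]⟩
/-- unit vectors, scaled -/
def u0 (c : ℤ) : VZ := ⟨c, 0, 0, 0, [], []⟩
/-- unit vectors, scaled -/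
def u1 (c : ℤ) : VZ := ⟨0, c, 0, 0, [], []⟩
/-- unit vectors, scaled -/
def u2 (c : ℤ) : VZ := ⟨0, 0, c, 0, [], []⟩
/-- unit vectors, scaled -/
def u3 (c : ℤ) : VZ := ⟨0, 0, 0, c, [], []⟩

/-- check of a norm inequality `‖v‖ * den ≤ num` -/
def chkN (v : VZ) (num den : ℕ) : Bool :=
  Nat.ble v.f.length 80 && Nat.ble v.g.length 80 &&
  Nat.ble ((((v.s0.natAbs + v.s1.natAbs + v.s2.natAbs + v.s3.natAbs) * 4 ^ 80 +
    nzA v.f (4 ^ 80) 0 + nzA v.g (4 ^ 80) 0)) * den) (num * 4 ^ 80)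

/-- check of a norm inequality `‖v‖ * den ≤ num` -/
def chkL (l : List ℤ) (num den : ℕ) : Bool :=
  Nat.ble l.length 80 && Nat.ble (nzA l (4 ^ 80) 0 * den) (num * 4 ^ 80)

def chkF (n : ℕ) : Bool :=
  chkN (resV (uF (2 ^ 124 * (((n + 1) * (n + 2) : ℕ) : ℤ)) n) (colF n))
    (68 * 5 ^ n * (4096 * (2 ^ 124 * ((n + 1) * (n + 2))))) (100 * 4 ^ n)
def chkG (n : ℕ) : Bool :=
  chkN (resV (uG (2 ^ 124 * (((n + 1) * (n + 2) : ℕ) : ℤ)) n) (colG n))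
    (68 * 5 ^ n * (4096 * (2 ^ 124 * ((n + 1) * (n + 2))))) (100 * 4 ^ n)
def chkAF (n : ℕ) : Bool := chkN (appA (uF 1 n)) (525 * 5 ^ n * 4096) (100 * 4 ^ n)
def chkAG (n : ℕ) : Bool := chkN (appA (uG 1 n)) (525 * 5 ^ n * 4096) (100 * 4 ^ n)

/-- check of `rho` -/
def chkR (l : List ℤ) (num den : ℕ) : Bool :=
  let g := gsL l
  let d := addL l (smulL (-1) g)
  Nat.ble l.length 80 && Nat.ble d.length 80 &&
  Nat.ble ((9 * nzA d (4 ^ 80) 0 + (16 * (g.getD 0 0).natAbs + 20 * (g.getD 1 0).natAbs) * 4 ^ 80) * den)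
    (9 * num * 4 ^ 80)

/-- residual, scaled by `2^168` -/
def resU1 : List ℤ := addL (smulL (4 * 2 ^ 68) (mulL WI (mulL ZI X2I)))
  (smulL (-(8 * 2 ^ 68)) (mulL WI (mulL X1I Z1I)))
def resU2 : List ℤ := addL (smulL (4 * 2 ^ 68) (mulL WI (mulL ZI Z2I)))
  (addL (smulL (-(4 * 2 ^ 68)) (mulL WI (mulL Z1I Z1I))) (smulL (4 * 2 ^ 68) (mulL WI (mulL X1I X1I))))
def resM1 : List ℤ := addL (smulL (2 ^ 68) (mulL [6, -6] (mulL WI (mulL ZI X1I))))
  (addL (smulL (-(2 ^ 34 * aI)) (mulL [4, 4] (mulL WI (mulL XI Z1I))))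
    (smulL (aI * aI + 2 ^ 34 * aI) (mulL WI (mulL XI ZI))))
def resM2 : List ℤ := addL (smulL (2 ^ 68) (mulL [6, -6] (mulL WI (mulL ZI Z1I))))
  (addL (smulL (2 ^ 34 * aI) (mulL [4, 4] (mulL WI (mulL XI X1I))))
    (addL (smulL (2 ^ 34 * aI) (mulL WI (mulL ZI ZI))) (smulL (-(aI * aI)) (mulL WI (mulL XI XI)))))
def resG : VZ := packV resU1 resM1 resU2 resM2

end Pool.Agent.H733R2
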