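import Pool.Agent.H733R2.Check

set_option autoImplicit false
set_option maxRecDepth 100000

open Finset

namespace Pool.Agent.H733R2

/-- a Boolean quantifier over `n < N` -/
def allB : ℕ → (ℕ → Bool) → Bool
  | 0, _ => true
  | n + 1, p => p n && allB n p

lemma allB_spec {N : ℕ} {p : ℕ → Bool} (h : allB N p = true) : ∀ n < N, p n = true := by
  induction N with
  | zero => intro n hn; omega
  | succ N ih =>
    simp only [allB, Bool.and_eq_true] at h
    intro n hn
    rcases Nat.lt_succ_iff_lt_or_eq.1 hn with h' | h'
    · exact ih h.2 n h'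
    · rw [h']; exact h.1

theorem kF : allB 40 chkF = true := by decide +kernel
theorem kG : allB 40 chkG = true := by decide +kernel
theorem kAF : allB 16 chkAF = true := by decide +kernel
theorem kAG : allB 16 chkAG = true := by decide +kernel
theorem k0 : chkN (resV (u0 (2^134)) col0) (68*(4096*2^134)) 100 = true := by decide +kernel
theorem k1 : chkN (resV (u1 (2^124)) col1) (68*(4096*2^124)) 100 = true := by decide +kernel
theorem k2 : chkN (resV (u2 (2^124)) col2) (68*(4096*2^124)) 100 = true := by decide +kernel
theorem k3 : chkN (resV (u3 (2^124)) col3) (68*(4096*2^124)) 100 = true := by decide +kernel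
theorem kA0 : chkN (appA (u0 1)) (525*4096) 100 = true := by decide +kernel
theorem kA1 : chkN (appA (u1 1)) (525*4096) 100 = true := by decide +kernel
theorem kA2 : chkN (appA (u2 1)) (525*4096) 100 = true := by decide +kernel
theorem kA3 : chkN (appA (u3 1)) (525*4096) 100 = true := by decide +kernel
theorem kY : chkN (appA resG) (7 * 4096 * 2^168) (10^7) = true := by decide +kernel
theorem kr1 : chkR q1L (61*2^124) 10 = true := by decide +kernel
theorem kr2 : chkR q2L (241*2^124) 100 = true := by decide +kernel
theorem kr3 : chkR q3L (44*2^124) 10 = true := by decide +kernel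
theorem kr4 : chkR q4L (604*2^124) 100 = true := by decide +kernel
theorem kr5 : chkR p2L (101*2^124) 100 = true := by decide +kernel
theorem kr6 : chkR p4L (957*2^124) 100 = true := by decide +kernel
theorem kn1 : chkL q1L (35*2^124) 10 = true := by decide +kernel
theorem kn2 : chkL q2L (14*2^124) 10 = true := by decide +kernel
theorem kn3 : chkL q3L (41*2^124) 10 = true := by decide +kernel
theorem kn4 : chkL q4L (35*2^124) 10 = true := by decide +kernel
theorem kn5 : chkL p2L (8*2^124) 10 = true := by decide +kernel
theorem kn6 : chkL p4L (55*2^124) 10 = true := by decide +kernel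
theorem kb1 : chkL (addL b1L [-2^124]) (28*2^124) 1000 = true := by decide +kernel
theorem kb2 : chkL b2L (278*2^124) 100 = true := by decide +kernel
theorem kb3 : chkL b3L (202*2^124) 100 = true := by decide +kernel
theorem kb4 : chkL b4L (72*2^124) 1000 = true := by decide +kernel
theorem kb5 : chkL b5L (19*2^124) 100 = true := by decide +kernel
theorem kX : chkL XI (1406*2^44) 1000 = true := by decide +kernel
theorem kZ : chkL ZI (1623*2^44) 1000 = true := by decide +kernel
theorem kX1 : chkL X1I (387*2^44) 1000 = true := by decide +kernel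
theorem kZ1 : chkL Z1I (532*2^44) 1000 = true := by decide +kernel
theorem kX2 : chkL X2I (28*2^44) 1000 = true := by decide +kernel
theorem kZ2 : chkL Z2I (7*2^44) 100 = true := by decide +kernel
theorem kW : chkL WI (652*2^12) 1000 = true := by decide +kernel
theorem kZm : chkL (addL ZI [-2^44]) (63*2^44) 100 = true := by decide +kernel
theorem eb1 : b1L = smulL (4 * 2^68) (mulL WI ZI) := by decide +kernel
theorem eb2 : b2L = smulL (8 * 2^68) (mulL WI Z1I) := by decide +kernel
theorem eb3 : b3L = smulL (8 * 2^68) (mulL WI X1I) := by decide +kernel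
theorem eb4 : b4L = smulL (4 * 2^68) (mulL WI X2I) := by decide +kernel
theorem eb5 : b5L = smulL (4 * 2^68) (mulL WI Z2I) := by decide +kernel
theorem eq1 : q1L = smulL (2^68) (mulL [6,-6] (mulL WI ZI)) := by decide +kernel
theorem eq2 : q2L = addL (smulL (aI*aI+2^34*aI) (mulL WI ZI))
    (smulL (-(2^34*aI)) (mulL [4,4] (mulL WI Z1I))) := by decide +kernel
theorem eq3 : q3L = (smulL ((2^34*aI)) (mulL [4,4] (mulL WI XI))) := by decide +kernel
theorem eq4 : q4L = addL (smulL ((2^34*aI)) (mulL [4,4] (mulL WI X1I)))
    (smulL (-(2*(aI*aI))) (mulL WI XI)) := by decide +kernel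
theorem ep2 : p2L = addL (smulL (2^68) (mulL [6,-6] (mulL WI X1I)))
    (smulL (aI*aI+2^34*aI) (mulL WI XI)) := by decide +kernel
theorem ep4 : p4L = addL (smulL (2^68) (mulL [6,-6] (mulL WI Z1I)))
    (smulL (2*(2^34*aI)) (mulL WI ZI)) := by decide +kernel
theorem er1 : r1L = addL (smulL (2*aI+2^34) (mulL WI (mulL XI ZI)))
    (smulL (-(2^34)) (mulL [4,4] (mulL WI (mulL XI Z1I)))) := by decide +kernel
theorem er2 : r2L = addL (smulL (2^34) (mulL [4,4] (mulL WI (mulL XI X1I))))
    (addL (smulL (2^34) (mulL WI (mulL ZI ZI))) (smulL (-(2*aI)) (mulL WI (mulL XI XI)))) := by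
  decide +kernel
theorem eX1 : dzL 0 (XI.drop 1) = X1I := by decide +kernel
theorem eX2 : dzL 0 (X1I.drop 1) = X2I := by decide +kernel
theorem eZ1 : dzL 0 (ZI.drop 1) = Z1I := by decide +kernel
theorem eZ2 : dzL 0 (Z1I.drop 1) = Z2I := by decide +kernel
theorem eX10 : X1I.getD 0 0 = XI.getD 1 0 := by decide +kernel
theorem eZ10 : Z1I.getD 0 0 = ZI.getD 1 0 := by decide +kernel
theorem eZ0 : ZI.getD 0 0 = 2^44 := by decide +kernel
theorem elen : rowsI.length = 36 := by decide +kernel
theorem elen2 : allB 36 (fun k => (rowsI.getD k []).length == 36) = true := by decide +kernel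

end Pool.Agent.H733R2
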