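import Pool.Agent.H733R2.Head
import Pool.Agent.H733R2.KCheck

set_option autoImplicit false

open Finset

namespace Pool.Agent.H733R2

/-- approximate solution -/
noncomputable def xbar : E :=
  ((2:ℝ)^44)⁻¹ • toE ⟨aI * 2^10, XI.getD 0 0, XI.getD 1 0, ZI.getD 1 0, X2I, Z2I⟩

/-- the weight `W ≈ 1/(4Z)` -/
noncomputable def Wb : B := ((2:ℝ)^12)⁻¹ • ofL WI

lemma pf_toE (v : VZ) : pf (toE v) = ofL v.f := by
  apply B.ext; intro n; rw [cf_pf, toE_f, cf_ofL]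
lemma pg_toE (v : VZ) : pg (toE v) = ofL v.g := by
  apply B.ext; intro n; rw [cf_pg, toE_g, cf_ofL]

lemma rows_len : ∀ k < 36, (rowsI.getD k []).length ≤ 36 := by
  intro k hk
  have := allB_spec elen2 k hk
  simp only [beq_iff_eq] at this
  exact this.le

lemma A_toE (v : VZ) : Aop hI ωI QM (toE v) = (1/4096 : ℝ) • toE (appA v) := by
  rw [Aop_apply]
  have h1 : Phi hI ωI (toE v) = fun k => (((headL v).getD k.1 0 : ℤ) : ℝ) :=
    funext (Phi_toE v)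
  rw [h1, Psi_toE]
  have h2 : QM.mulVec (fun k => (((headL v).getD k.1 0 : ℤ) : ℝ))
      = (1/4096 : ℝ) • (fun i : Fin 36 => (((mvL rowsI (headL v)).getD i.1 0 : ℤ) : ℝ)) := by
    funext i
    rw [mvL_spec _ rows_len elen i, Pi.smul_apply, smul_eq_mul]
    ring
  rw [h2, map_smul, Psi_toE]
  simp only [appA, toE_add, toE_smul]
  push_cast
  module

lemma B_ofNat_smul (c : ℤ) (f : B) : (c : ℝ) • f = (c : B) * f := by
  rw [Algebra.smul_def]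
  congr 1
  simp

lemma ofL_smul' (c : ℤ) (s : List ℤ) : ofL (smulL c s) = (c : B) * ofL s := by
  rw [ofL_smul, B_ofNat_smul]

lemma two_pow_mul (n : ℕ) (f : B) : (2:B)^n * (((2:ℝ)^n)⁻¹ • f) = f := by
  have h : (2:B)^n = algebraMap ℝ B (2^n) := by rw [map_pow, map_ofNat]
  rw [h, Algebra.smul_def, ← mul_assoc, ← map_mul, mul_inv_cancel₀ (by positivity), map_one, one_mul]

lemma algMap_int (c : ℤ) : algebraMap ℝ B (c : ℝ) = (c : B) := by simp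

lemma hW : ofL WI = 2^12 * Wb := (two_pow_mul 12 _).symm

lemma hX2 : ofL X2I = 2^44 * cX2 xbar := by
  have : cX2 xbar = ((2:ℝ)^44)⁻¹ • ofL X2I := by
    unfold xbar cX2
    rw [map_smul, pf_toE]
  rw [this, two_pow_mul]

lemma hZ2 : ofL Z2I = 2^44 * cZ2 xbar := by
  have : cZ2 xbar = ((2:ℝ)^44)⁻¹ • ofL Z2I := by
    unfold xbar cZ2
    rw [map_smul, pg_toE]
  rw [this, two_pow_mul]

lemma xbar_apply (i : Idx) : xbar i = ((2:ℝ)^44)⁻¹ *
    toE ⟨aI * 2^10, XI.getD 0 0, XI.getD 1 0, ZI.getD 1 0, X2I, Z2I⟩ i := rfl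

lemma J_ofL (s t : List ℤ) (h : dzL 0 (s.drop 1) = t) :
    J (ofL t) = wv * ofL (s.drop 1) := by
  have := J_dzL 0 (s.drop 1)
  rw [h] at this
  simpa using this

lemma ofL_split (s : List ℤ) : ofL s = ((s.getD 0 0 : ℤ) : B) + wv * ofL (s.drop 1) := by
  rw [ofL_drop_one, algMap_int]

lemma hX1 : ofL X1I = 2^44 * cX1 xbar := by
  have : cX1 xbar = ((2:ℝ)^44)⁻¹ • ofL X1I := by
    rw [cX1_apply, xbar_apply, toE_s2]
    have h1 : pf xbar = ((2:ℝ)^44)⁻¹ • ofL X2I := by unfold xbar; rw [map_smul, pf_toE]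
    rw [h1, map_smul, J_ofL _ _ eX2, ofL_split X1I, eX10]
    simp only [smul_add, mul_smul]
    congr 2
    rw [B_ofNat_smul, mul_one]
  rw [this, two_pow_mul]

lemma hX : ofL XI = 2^44 * cX xbar := by
  have : cX xbar = ((2:ℝ)^44)⁻¹ • ofL XI := by
    rw [cX_apply, xbar_apply, xbar_apply, toE_s2, toE_s1]
    have h1 : pf xbar = ((2:ℝ)^44)⁻¹ • ofL X2I := by unfold xbar; rw [map_smul, pf_toE]
    rw [h1, map_smul, map_smul]
    have h2 : J (ofL X1I) = wv * ofL (XI.drop 1) := J_ofL _ _ eX1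
    have h3 : J (ofL X1I) = (((XI.getD 1 0 : ℤ)) : ℝ) • wv + J (J (ofL X2I)) := by
      rw [ofL_split X1I, ← J_ofL _ _ eX2, eX10, map_add]
      congr 1
      have : ((XI.getD 1 0 : ℤ) : B) = (((XI.getD 1 0 : ℤ)) : ℝ) • (1 : B) := by
        rw [B_ofNat_smul, mul_one]
      rw [this, map_smul, J_one]
    rw [ofL_split XI, ← h2, h3]
    simp only [smul_add, mul_smul]
    rw [B_ofNat_smul _ (1 : B), mul_one]
    abel
  rw [this, two_pow_mul]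

lemma hZ1 : ofL Z1I = 2^44 * cZ1 xbar := by
  have : cZ1 xbar = ((2:ℝ)^44)⁻¹ • ofL Z1I := by
    rw [cZ1_apply, xbar_apply, toE_s3]
    have h1 : pg xbar = ((2:ℝ)^44)⁻¹ • ofL Z2I := by unfold xbar; rw [map_smul, pg_toE]
    rw [h1, map_smul, J_ofL _ _ eZ2, ofL_split Z1I, eZ10]
    simp only [smul_add, mul_smul]
    congr 2
    rw [B_ofNat_smul, mul_one]
  rw [this, two_pow_mul]

lemma hZ : ofL ZI = 2^44 * ZZ xbar := by
  have : cZ xbar = ((2:ℝ)^44)⁻¹ • (ofL ZI - 2^44) := by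
    rw [cZ_apply, xbar_apply, toE_s3]
    have h1 : pg xbar = ((2:ℝ)^44)⁻¹ • ofL Z2I := by unfold xbar; rw [map_smul, pg_toE]
    rw [h1, map_smul, map_smul]
    have h2 : J (ofL Z1I) = wv * ofL (ZI.drop 1) := J_ofL _ _ eZ1
    have h3 : J (ofL Z1I) = (((ZI.getD 1 0 : ℤ)) : ℝ) • wv + J (J (ofL Z2I)) := by
      rw [ofL_split Z1I, ← J_ofL _ _ eZ2, eZ10, map_add]
      congr 1
      have : ((ZI.getD 1 0 : ℤ) : B) = (((ZI.getD 1 0 : ℤ)) : ℝ) • (1 : B) := by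
        rw [B_ofNat_smul, mul_one]
      rw [this, map_smul, J_one]
    rw [ofL_split ZI, ← h2, h3, eZ0]
    push_cast
    have e44 : (17592186044416 : B) = 2 ^ 44 := by norm_num
    simp only [mul_smul]
    rw [e44, add_sub_cancel_left, smul_add]
  have h2 : ZZ xbar = 1 + ((2:ℝ)^44)⁻¹ • (ofL ZI - 2^44) := by rw [ZZ, this]
  rw [h2, mul_add, two_pow_mul]
  ring

lemma hA : ((aI : ℤ) : B) = 2^34 * cA xbar := by
  have : cA xbar = ((2:ℝ)^34)⁻¹ • ((aI : ℤ) : B) := by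
    rw [cA_apply, xbar_apply, toE_s0]
    have h1 : ((aI : ℤ) : B) = ((aI : ℤ) : ℝ) • (1 : B) := by rw [B_ofNat_smul, mul_one]
    rw [h1, smul_smul]
    congr 1
    push_cast
    ring
  rw [this, two_pow_mul]

lemma ofL_66 : ofL [6, -6] = 6 * (1 - wv) := by
  rw [ofL_cons, ofL_cons, ofL_nil, algMap_int, algMap_int]; push_cast; ring
lemma ofL_44 : ofL [4, 4] = 4 * (1 + wv) := by
  rw [ofL_cons, ofL_cons, ofL_nil, algMap_int]; push_cast; ring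

lemma hb1 : ofL b1L = 2^124 * (4 * (Wb * ZZ xbar)) := by
  rw [eb1, ofL_smul', ofL_mul, hW, hZ]; push_cast; ring
lemma hb2 : ofL b2L = 2^124 * (8 * (Wb * cZ1 xbar)) := by
  rw [eb2, ofL_smul', ofL_mul, hW, hZ1]; push_cast; ring
lemma hb3 : ofL b3L = 2^124 * (8 * (Wb * cX1 xbar)) := by
  rw [eb3, ofL_smul', ofL_mul, hW, hX1]; push_cast; ring
lemma hb4 : ofL b4L = 2^124 * (4 * (Wb * cX2 xbar)) := by
  rw [eb4, ofL_smul', ofL_mul, hW, hX2]; push_cast; ring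
lemma hb5 : ofL b5L = 2^124 * (4 * (Wb * cZ2 xbar)) := by
  rw [eb5, ofL_smul', ofL_mul, hW, hZ2]; push_cast; ring
lemma hq1 : ofL q1L = 2^124 * q1 Wb xbar := by
  rw [eq1, ofL_smul', ofL_mul, ofL_mul, ofL_66, hW, hZ, q1]; push_cast; ring
lemma hq2 : ofL q2L = 2^124 * q2 Wb xbar := by
  rw [eq2, ofL_add, ofL_smul', ofL_smul', ofL_mul, ofL_mul, ofL_mul, ofL_44, hW, hZ, hZ1, q2]
  push_cast; rw [hA]; ring
lemma hq3 : ofL q3L = 2^124 * q3 Wb xbar := by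
  rw [eq3, ofL_smul', ofL_mul, ofL_mul, ofL_44, hW, hX, q3]
  push_cast; rw [hA]; ring
lemma hq4 : ofL q4L = 2^124 * q4 Wb xbar := by
  rw [eq4, ofL_add, ofL_smul', ofL_smul', ofL_mul, ofL_mul, ofL_mul, ofL_44, hW, hX, hX1, q4]
  push_cast; rw [hA]; ring
lemma hp2 : ofL p2L = 2^124 * p2 Wb xbar := by
  rw [ep2, ofL_add, ofL_smul', ofL_smul', ofL_mul, ofL_mul, ofL_mul, ofL_66, hW, hX, hX1, p2]
  push_cast; rw [hA]; ring
lemma hp4 : ofL p4L = 2^124 * p4 Wb xbar := by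
  rw [ep4, ofL_add, ofL_smul', ofL_smul', ofL_mul, ofL_mul, ofL_mul, ofL_66, hW, hZ, hZ1, p4]
  push_cast; rw [hA]; ring
lemma hr1 : ofL r1L = 2^134 * r1 Wb xbar := by
  rw [er1, ofL_add, ofL_smul', ofL_smul', ofL_mul, ofL_mul, ofL_mul, ofL_mul, ofL_mul, ofL_44, hW,
    hX, hZ, hZ1, r1]
  push_cast; rw [hA]; ring
lemma hr2 : ofL r2L = 2^134 * r2 Wb xbar := by
  rw [er2, ofL_add, ofL_add, ofL_smul', ofL_smul', ofL_smul', ofL_mul, ofL_mul, ofL_mul, ofL_mul,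
    ofL_mul, ofL_mul, ofL_mul, ofL_44, hW, hX, hZ, hX1, r2]
  push_cast; rw [hA]; ring

lemma hRU1 : ofL resU1 = 2^168 * FU1 Wb xbar := by
  rw [resU1, ofL_add, ofL_smul', ofL_smul', ofL_mul, ofL_mul, ofL_mul, ofL_mul, hW, hZ, hX2, hX1,
    hZ1, FU1]
  push_cast; ring
lemma hRU2 : ofL resU2 = 2^168 * FU2 Wb xbar := by
  rw [resU2, ofL_add, ofL_add, ofL_smul', ofL_smul', ofL_smul', ofL_mul, ofL_mul, ofL_mul, ofL_mul,
    ofL_mul, ofL_mul, hW, hZ, hZ2, hX1, hZ1, FU2]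
  push_cast; ring
lemma hRM1 : ofL resM1 = 2^168 * FM1 Wb xbar := by
  rw [resM1, ofL_add, ofL_add, ofL_smul', ofL_smul', ofL_smul', ofL_mul, ofL_mul, ofL_mul, ofL_mul,
    ofL_mul, ofL_mul, ofL_mul, ofL_mul, ofL_66, ofL_44, hW, hX, hZ, hX1, hZ1, FM1]
  push_cast; rw [hA]; ring
lemma hRM2 : ofL resM2 = 2^168 * FM2 Wb xbar := by
  rw [resM2, ofL_add, ofL_add, ofL_add, ofL_smul', ofL_smul', ofL_smul', ofL_smul', ofL_mul,
    ofL_mul, ofL_mul, ofL_mul, ofL_mul, ofL_mul, ofL_mul, ofL_mul, ofL_mul, ofL_mul, ofL_66,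
    ofL_44, hW, hX, hZ, hX1, hZ1, FM2]
  push_cast; rw [hA]; ring

end Pool.Agent.H733R2
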