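import Mathlib

set_option autoImplicit false

namespace Pool.Agent.H733R2

/-- partial derivative of the `j`-th component in direction `μ` -/
noncomputable def pd (w : (Fin 4 → ℝ) → (Fin 3 → ℝ)) (μ : Fin 4) (j : Fin 3) (X : Fin 4 → ℝ) : ℝ :=
  fderiv ℝ w X (Pi.single μ 1) j

/-- d'Alembertian `-∂_t² + Δ` of the `k`-th component, in the form used by the frozen statement -/
noncomputable def box (w : (Fin 4 → ℝ) → (Fin 3 → ℝ)) (k : Fin 3) (X : Fin 4 → ℝ) : ℝ :=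
  ∑ μ : Fin 4, (if μ = 0 then (-1 : ℝ) else 1) *
    fderiv ℝ (fun Y => fderiv ℝ w Y (Pi.single μ 1) k) X (Pi.single μ 1)

/-- Energy uniqueness (finite speed of propagation) for differential inequalities in a cone. -/
def EnergyUniqueness : Prop :=
  ∀ (w : (Fin 4 → ℝ) → (Fin 3 → ℝ)), ContDiff ℝ (⊤ : ℕ∞) w →
    ∀ (R T C : ℝ), 0 < T → T < R →
    (∀ X : Fin 4 → ℝ, 0 ≤ X 0 → X 0 ≤ T →
      X 1 ^ 2 + X 2 ^ 2 + X 3 ^ 2 ≤ (R - X 0) ^ 2 → ∀ k,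
      |box w k X| ≤ C * ∑ j : Fin 3, (|w X j| + ∑ μ : Fin 4, |pd w μ j X|)) →
    (∀ X : Fin 4 → ℝ, X 0 = 0 → X 1 ^ 2 + X 2 ^ 2 + X 3 ^ 2 ≤ R ^ 2 →
      ∀ j, w X j = 0 ∧ pd w 0 j X = 0) →
    ∀ X : Fin 4 → ℝ, 0 ≤ X 0 → X 0 ≤ T →
      X 1 ^ 2 + X 2 ^ 2 + X 3 ^ 2 < (R - X 0) ^ 2 → w X = 0

/-- a twisted self-similar profile, `w = 2y - 1`, `y = |x|² / (1-t)²` -/
structure Profile (a : ℝ) (X Z : ℝ → ℝ) : Prop where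
  a_pos : 0 < a
  smoothX : ContDiffOn ℝ (⊤ : ℕ∞) X (Set.Ioo (-(5/4)) (5/4))
  smoothZ : ContDiffOn ℝ (⊤ : ℕ∞) Z (Set.Ioo (-(5/4)) (5/4))
  Z_pos : ∀ w ∈ Set.Ioo (-(5/4) : ℝ) (5/4), 0 < Z w
  E1 : ∀ w ∈ Set.Ioo (-(5/4) : ℝ) (5/4),
    4 * (1 - w^2) * (Z w * deriv (deriv X) w - 2 * deriv X w * deriv Z w)
      + 6 * (1 - w) * Z w * deriv X w - 4 * a * (1 + w) * X w * deriv Z w
      + a * (a + 1) * X w * Z w = 0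
  E2 : ∀ w ∈ Set.Ioo (-(5/4) : ℝ) (5/4),
    4 * (1 - w^2) * (Z w * deriv (deriv Z) w - (deriv Z w)^2 + (deriv X w)^2)
      + 6 * (1 - w) * Z w * deriv Z w + 4 * a * (1 + w) * X w * deriv X w
      + a * (Z w)^2 - a^2 * (X w)^2 = 0

end Pool.Agent.H733R2
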