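import Pool.Agent.H733R2.GDef
import Pool.Agent.H733R2.Defs

set_option autoImplicit false

open Finset

namespace Pool.Agent.H733R2

namespace Eval

/-- evaluation of the power series at `w` -/
noncomputable def ev (w : ℝ) (f : B) : ℝ := ∑' n, cf f n * (4 / 5 * w) ^ n

lemma abs_pow_le {w : ℝ} (hw : |w| ≤ 5/4) (n : ℕ) : |(4 / 5 * w) ^ n| ≤ 1 := by
  rw [abs_pow]
  apply pow_le_one₀ (abs_nonneg _)
  rw [abs_mul, abs_of_pos (by norm_num : (0:ℝ) < 4/5)]
  linarith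

lemma abs_term_le {w : ℝ} (hw : |w| ≤ 5/4) (f : B) (n : ℕ) :
    |cf f n * (4 / 5 * w) ^ n| ≤ |cf f n| := by
  rw [abs_mul]
  have h1 := abs_pow_le hw n
  have h2 := abs_nonneg (cf f n)
  nlinarith

lemma ev_summable_abs {w : ℝ} (hw : |w| ≤ 5/4) (f : B) :
    Summable fun n => |cf f n * (4 / 5 * w) ^ n| :=
  Summable.of_nonneg_of_le (fun _ => abs_nonneg _) (abs_term_le hw f) (B_summable f)

lemma ev_summable {w : ℝ} (hw : |w| ≤ 5/4) (f : B) :
    Summable fun n => cf f n * (4 / 5 * w) ^ n := (ev_summable_abs hw f).of_abs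

lemma ev_abs_le {w : ℝ} (hw : |w| ≤ 5/4) (f : B) : |ev w f| ≤ ‖f‖ := by
  rw [B_norm, ev, ← Real.norm_eq_abs]
  apply tsum_of_norm_bounded (B_summable f).hasSum
  intro n
  rw [Real.norm_eq_abs]
  exact abs_term_le hw f n

lemma ev_mul {w : ℝ} (hw : |w| ≤ 5/4) (f g : B) : ev w (f * g) = ev w f * ev w g := by
  unfold ev
  rw [tsum_mul_tsum_eq_tsum_sum_antidiagonal_of_summable_norm (R := ℝ)
    (by simpa only [Real.norm_eq_abs] using ev_summable_abs hw f)
    (by simpa only [Real.norm_eq_abs] using ev_summable_abs hw g)]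
  apply tsum_congr
  intro n
  rw [cf_mul, Finset.sum_mul]
  apply Finset.sum_congr rfl
  rintro ⟨i, j⟩ hij
  simp only [HasAntidiagonal.mem_antidiagonal] at hij
  rw [← hij, pow_add]
  ring

lemma ev_mono {w : ℝ} (c : ℝ) (k : ℕ) : ev w (mono c k) = c * (4 / 5 * w) ^ k := by
  unfold ev
  rw [tsum_eq_single k]
  · simp
  · intro n hn; simp [hn]

lemma ev_one {w : ℝ} : ev w 1 = 1 := by
  have h : (1 : B) = mono 1 0 := rfl
  rw [h, ev_mono]; simp

lemma ev_wv {w : ℝ} : ev w wv = w := by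
  unfold wv
  rw [ev_mono]; ring

lemma ev_add {w : ℝ} (hw : |w| ≤ 5/4) (f g : B) : ev w (f + g) = ev w f + ev w g := by
  unfold ev
  rw [← (ev_summable hw f).tsum_add (ev_summable hw g)]
  apply tsum_congr
  intro n
  rw [cf_add]; ring

lemma ev_smul {w : ℝ} (c : ℝ) (f : B) : ev w (c • f) = c * ev w f := by
  unfold ev
  rw [← tsum_mul_left]
  apply tsum_congr
  intro n
  rw [cf_smul]; ring

lemma ev_zero {w : ℝ} : ev w 0 = 0 := by
  unfold ev
  simp

/-- evaluation as a ring homomorphism -/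
noncomputable def evR {w : ℝ} (hw : |w| ≤ 5/4) : B →+* ℝ where
  toFun := ev w
  map_one' := ev_one
  map_mul' := ev_mul hw
  map_zero' := ev_zero
  map_add' := ev_add hw

lemma evR_apply {w : ℝ} (hw : |w| ≤ 5/4) (f : B) : evR hw f = ev w f := rfl

lemma abs_le_of_mem {w : ℝ} (hw : w ∈ Set.Ioo (-(5/4) : ℝ) (5/4)) : |w| ≤ 5/4 :=
  abs_le.2 ⟨hw.1.le, hw.2.le⟩

lemma ev_J (w : ℝ) (hw : |w| ≤ 5/4) (f : B) :
    ev w (J f) = ∑' m : ℕ, (5/4) * cf f m / (m + 1) * (4 / 5 * w) ^ (m + 1) := by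
  have h := (ev_summable hw (J f)).tsum_eq_zero_add
  rw [ev, h]
  simp [cf_J_succ]

lemma ev_J_hasDerivAt (f : B) {w : ℝ} (hw : w ∈ Set.Ioo (-(5/4) : ℝ) (5/4)) :
    HasDerivAt (fun w => ev w (J f)) (ev w f) w := by
  have key : HasDerivAt
      (fun z : ℝ => ∑' m : ℕ, (5/4) * cf f m / ((m:ℝ) + 1) * (4 / 5 * z) ^ (m + 1))
      (∑' m : ℕ, cf f m * (4 / 5 * w) ^ m) w := by
    refine hasDerivAt_tsum_of_isPreconnected (𝕜 := ℝ) (F := ℝ) (u := fun n => |cf f n|)
      (g := fun (m : ℕ) (z : ℝ) => (5/4) * cf f m / ((m:ℝ) + 1) * (4 / 5 * z) ^ (m + 1))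
      (g' := fun (m : ℕ) (z : ℝ) => cf f m * (4 / 5 * z) ^ m) (B_summable f)
      (t := Set.Ioo (-(5/4) : ℝ) (5/4)) isOpen_Ioo isPreconnected_Ioo ?_ ?_ (y₀ := 0) ?_ ?_ hw
    · intro n y _
      have h1 : HasDerivAt (fun z : ℝ => 4 / 5 * z) (4/5) y := by
        simpa using (hasDerivAt_id y).const_mul (4/5 : ℝ)
      have h2 : HasDerivAt (fun z : ℝ => (5/4) * cf f n / ((n:ℝ) + 1) * (4 / 5 * z) ^ (n + 1))
          ((5/4) * cf f n / ((n:ℝ) + 1) * (((n + 1 : ℕ) : ℝ) * (4 / 5 * y) ^ (n + 1 - 1) * (4/5))) y :=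
        (h1.pow (n + 1)).const_mul ((5/4) * cf f n / ((n:ℝ) + 1))
      have hn : ((n:ℝ) + 1) ≠ 0 := by positivity
      have e : (5/4) * cf f n / ((n:ℝ) + 1) * (((n + 1 : ℕ) : ℝ) * (4 / 5 * y) ^ (n + 1 - 1) * (4/5))
          = cf f n * (4 / 5 * y) ^ n := by
        push_cast
        field_simp
      rw [e] at h2
      exact h2
    · intro n y hy
      rw [Real.norm_eq_abs]
      exact abs_term_le (abs_le_of_mem hy) f n
    · constructor <;> norm_num
    · simp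
  refine key.congr_of_eventuallyEq ?_
  filter_upwards [isOpen_Ioo.mem_nhds hw] with z hz
  exact ev_J z (abs_le_of_mem hz) f

/-- the formal multilinear series of `f` -/
noncomputable def ser (f : B) : FormalMultilinearSeries ℝ ℝ ℝ :=
  FormalMultilinearSeries.ofScalars ℝ (fun n => cf f n * (4/5) ^ n)

lemma ser_sum (f : B) (w : ℝ) : (ser f).sum w = ev w f := by
  unfold ser FormalMultilinearSeries.sum ev
  apply tsum_congr
  intro n
  rw [FormalMultilinearSeries.ofScalars_apply_eq]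
  rw [smul_eq_mul, mul_pow]; ring

lemma ser_radius (f : B) : (((5/4 : NNReal)) : ENNReal) ≤ (ser f).radius := by
  apply FormalMultilinearSeries.le_radius_of_bound (C := ‖f‖)
  intro n
  have h1 : ‖ser f n‖ = |cf f n * (4/5) ^ n| := by
    unfold ser
    rw [FormalMultilinearSeries.ofScalars_norm]
    rfl
  rw [h1, abs_mul, abs_of_pos (by positivity : (0:ℝ) < (4/5)^n), mul_assoc, NNReal.coe_div,
    ← mul_pow]
  norm_num
  exact cf_le f n

lemma ev_contDiffOn (f : B) :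
    ContDiffOn ℝ (⊤ : ℕ∞) (fun w => ev w f) (Set.Ioo (-(5/4)) (5/4)) := by
  have h0 : (0 : ENNReal) < (ser f).radius := lt_of_lt_of_le (by norm_num) (ser_radius f)
  have h1 := (ser f).hasFPowerSeriesOnBall h0
  have h2 : AnalyticOnNhd ℝ (ser f).sum (Metric.eball 0 (ser f).radius) := h1.analyticOnNhd
  have h3 : Set.Ioo (-(5/4) : ℝ) (5/4) ⊆ Metric.eball (0:ℝ) (ser f).radius := by
    intro w hw
    rw [Metric.mem_eball]
    refine lt_of_lt_of_le ?_ (ser_radius f)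
    rw [edist_dist, dist_zero_right, Real.norm_eq_abs]
    have h4 : |w| < 5/4 := abs_lt.2 ⟨hw.1, hw.2⟩
    have h5 : (((5/4 : NNReal)) : ENNReal) = ENNReal.ofReal (5/4) := by
      rw [ENNReal.ofReal]
      congr 1
      apply NNReal.eq
      rw [Real.coe_toNNReal _ (by norm_num)]
      simp
    rw [h5]
    exact (ENNReal.ofReal_lt_ofReal_iff (by norm_num)).2 h4
  have h4 : AnalyticOn ℝ (fun w => ev w f) (Set.Ioo (-(5/4)) (5/4)) := by
    have h5 : (fun w => ev w f) = (ser f).sum := by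
      funext w
      exact (ser_sum f w).symm
    rw [h5]
    exact (h2.mono h3).analyticOn
  exact h4.contDiffOn isOpen_Ioo.uniqueDiffOn

end Eval

open Eval

lemma pf_Gm (W : B) (x : E) : pf (Gm W x) = FU1 W x + Dv (FM1 W x) := by
  apply B.ext
  intro n
  rw [cf_pf]
  unfold Gm
  rw [pk1_apply, pk2_apply]
  simp only [lp.coeFn_add, lp.coeFn_smul, Pi.add_apply, Pi.smul_apply, jf_f, jg_f, bs_apply,
    cf_add, smul_eq_mul]
  simp

lemma pg_Gm (W : B) (x : E) : pg (Gm W x) = FU2 W x + Dv (FM2 W x) := by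
  apply B.ext
  intro n
  rw [cf_pg]
  unfold Gm
  rw [pk1_apply, pk2_apply]
  simp only [lp.coeFn_add, lp.coeFn_smul, Pi.add_apply, Pi.smul_apply, jf_g, jg_g, bs_apply,
    cf_add, smul_eq_mul]
  simp

lemma s_Gm (W : B) (x : E) :
    Gm W x (Sum.inl 0) = cf (Gs (FM1 W x)) 0 ∧ Gm W x (Sum.inl 1) = 4/5 * cf (Gs (FM1 W x)) 1 ∧
    Gm W x (Sum.inl 2) = cf (Gs (FM2 W x)) 0 ∧ Gm W x (Sum.inl 3) = 4/5 * cf (Gs (FM2 W x)) 1 := by
  unfold Gm
  rw [pk1_apply, pk2_apply]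
  simp only [lp.coeFn_add, lp.coeFn_smul, Pi.add_apply, Pi.smul_apply, jf_s, jg_s, bs_apply,
    smul_eq_mul]
  simp

lemma eq_of_zero (W : B) (x : E) (hG : Gm W x = 0) :
    (1 - wv * wv) * FU1 W x + FM1 W x = 0 ∧ (1 - wv * wv) * FU2 W x + FM2 W x = 0 := by
  obtain ⟨h0, h1, h2, h3⟩ := s_Gm W x
  have hf := pf_Gm W x
  have hg := pg_Gm W x
  rw [hG] at h0 h1 h2 h3 hf hg
  have z : ∀ i : Idx, (0 : E) i = 0 := fun i => rfl
  rw [z] at h0 h1 h2 h3
  rw [map_zero] at hf hg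
  have i1 := Dv_identity (FM1 W x)
  have i2 := Dv_identity (FM2 W x)
  rw [← h0, ← h1, map_zero, zero_smul, add_zero, add_zero] at i1
  rw [← h2, ← h3, map_zero, zero_smul, add_zero, add_zero] at i2
  have e1 : Dv (FM1 W x) = - FU1 W x := by
    rw [eq_neg_iff_add_eq_zero, add_comm]; exact hf.symm
  have e2 : Dv (FM2 W x) = - FU2 W x := by
    rw [eq_neg_iff_add_eq_zero, add_comm]; exact hg.symm
  rw [e1] at i1
  rw [e2] at i2
  constructor
  · rw [i1]; ring
  · rw [i2]; ring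

/-- TASK P2: from a zero of `Gm` to a profile. -/
theorem profile_of_zero (W : B) (x : E) (hG : Gm W x = 0) (ha : 0 < x (Sum.inl 0))
    (hWZ : ‖4 * (W * ZZ x) - 1‖ < 1) (hZ : ‖cZ x‖ < 1) :
    ∃ (a : ℝ) (X Z : ℝ → ℝ), Profile a X Z := by
  obtain ⟨e1, e2⟩ := eq_of_zero W x hG
  have hid : ∀ w : ℝ, HasDerivAt (fun w : ℝ => w) 1 w := fun w => hasDerivAt_id w
  -- evaluation of the components
  have eX : ∀ w, |w| ≤ 5/4 → ev w (cX x) = x (Sum.inl 1) + x (Sum.inl 2) * w + ev w (J (J (pf x))) := by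
    intro w hw
    rw [cX_apply, ev_add hw, ev_add hw, ev_smul, ev_smul, ev_one, ev_wv]; ring
  have eX1 : ∀ w, |w| ≤ 5/4 → ev w (cX1 x) = x (Sum.inl 2) + ev w (J (pf x)) := by
    intro w hw
    rw [cX1_apply, ev_add hw, ev_smul, ev_one]; ring
  have eZ : ∀ w, |w| ≤ 5/4 → ev w (ZZ x) = 1 + (x (Sum.inl 3) * w + ev w (J (J (pg x)))) := by
    intro w hw
    unfold ZZ
    rw [cZ_apply, ev_add hw, ev_add hw, ev_smul, ev_one, ev_wv]
  have eZ1 : ∀ w, |w| ≤ 5/4 → ev w (cZ1 x) = x (Sum.inl 3) + ev w (J (pg x)) := by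
    intro w hw
    rw [cZ1_apply, ev_add hw, ev_smul, ev_one]; ring
  have dX : ∀ w ∈ Set.Ioo (-(5/4) : ℝ) (5/4),
      HasDerivAt (fun w => ev w (cX x)) (ev w (cX1 x)) w := by
    intro w hw
    rw [eX1 w (abs_le_of_mem hw)]
    have h1 : HasDerivAt (fun w => x (Sum.inl 1) + x (Sum.inl 2) * w + ev w (J (J (pf x))))
        (x (Sum.inl 2) + ev w (J (pf x))) w := by
      have := (((hid w).const_mul (x (Sum.inl 2))).const_add (x (Sum.inl 1))).add
        (ev_J_hasDerivAt (J (pf x)) hw)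
      rw [mul_one] at this
      exact this
    refine h1.congr_of_eventuallyEq ?_
    filter_upwards [isOpen_Ioo.mem_nhds hw] with z hz
    exact eX z (abs_le_of_mem hz)
  have dX1 : ∀ w ∈ Set.Ioo (-(5/4) : ℝ) (5/4),
      HasDerivAt (fun w => ev w (cX1 x)) (ev w (cX2 x)) w := by
    intro w hw
    have h1 : HasDerivAt (fun w => x (Sum.inl 2) + ev w (J (pf x))) (ev w (cX2 x)) w :=
      (ev_J_hasDerivAt (pf x) hw).const_add _
    refine h1.congr_of_eventuallyEq ?_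
    filter_upwards [isOpen_Ioo.mem_nhds hw] with z hz
    exact eX1 z (abs_le_of_mem hz)
  have dZ : ∀ w ∈ Set.Ioo (-(5/4) : ℝ) (5/4),
      HasDerivAt (fun w => ev w (ZZ x)) (ev w (cZ1 x)) w := by
    intro w hw
    rw [eZ1 w (abs_le_of_mem hw)]
    have h1 : HasDerivAt (fun w => 1 + (x (Sum.inl 3) * w + ev w (J (J (pg x)))))
        (x (Sum.inl 3) + ev w (J (pg x))) w := by
      have := (((hid w).const_mul (x (Sum.inl 3))).add
        (ev_J_hasDerivAt (J (pg x)) hw)).const_add (1:ℝ)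
      rw [mul_one] at this
      exact this
    refine h1.congr_of_eventuallyEq ?_
    filter_upwards [isOpen_Ioo.mem_nhds hw] with z hz
    exact eZ z (abs_le_of_mem hz)
  have dZ1 : ∀ w ∈ Set.Ioo (-(5/4) : ℝ) (5/4),
      HasDerivAt (fun w => ev w (cZ1 x)) (ev w (cZ2 x)) w := by
    intro w hw
    have h1 : HasDerivAt (fun w => x (Sum.inl 3) + ev w (J (pg x))) (ev w (cZ2 x)) w :=
      (ev_J_hasDerivAt (pg x) hw).const_add _
    refine h1.congr_of_eventuallyEq ?_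
    filter_upwards [isOpen_Ioo.mem_nhds hw] with z hz
    exact eZ1 z (abs_le_of_mem hz)
  have ddX : ∀ w ∈ Set.Ioo (-(5/4) : ℝ) (5/4),
      deriv (deriv (fun w => ev w (cX x))) w = ev w (cX2 x) := by
    intro w hw
    have h1 : deriv (fun w => ev w (cX x)) =ᶠ[nhds w] fun w => ev w (cX1 x) := by
      filter_upwards [isOpen_Ioo.mem_nhds hw] with z hz
      exact (dX z hz).deriv
    rw [h1.deriv_eq]
    exact (dX1 w hw).deriv
  have ddZ : ∀ w ∈ Set.Ioo (-(5/4) : ℝ) (5/4),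
      deriv (deriv (fun w => ev w (ZZ x))) w = ev w (cZ2 x) := by
    intro w hw
    have h1 : deriv (fun w => ev w (ZZ x)) =ᶠ[nhds w] fun w => ev w (cZ1 x) := by
      filter_upwards [isOpen_Ioo.mem_nhds hw] with z hz
      exact (dZ z hz).deriv
    rw [h1.deriv_eq]
    exact (dZ1 w hw).deriv
  have eA : ∀ w : ℝ, ev w (cA x) = x (Sum.inl 0) := by
    intro w
    rw [cA_apply, ev_smul, ev_one, mul_one]
  have eW : ∀ w, |w| ≤ 5/4 → ev w W ≠ 0 := by
    intro w hw h0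
    have h1 := ev_abs_le hw (4 * (W * ZZ x) - 1)
    have h2 : ev w (4 * (W * ZZ x) - 1) = -1 := by
      rw [← evR_apply hw, map_sub, map_mul, map_mul, map_one, evR_apply hw W, h0]
      ring
    rw [h2] at h1
    have h3 := lt_of_le_of_lt h1 hWZ
    norm_num at h3
  refine ⟨x (Sum.inl 0), fun w => ev w (cX x), fun w => ev w (ZZ x), ?_⟩
  refine ⟨ha, ev_contDiffOn _, ev_contDiffOn _, ?_, ?_, ?_⟩
  · intro w hw
    have hw' := abs_le_of_mem hw
    have h1 := ev_abs_le hw' (cZ x)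
    have h2 : ev w (ZZ x) = 1 + ev w (cZ x) := by
      unfold ZZ
      rw [ev_add hw', ev_one]
    show 0 < ev w (ZZ x)
    rw [h2]
    have h3 := lt_of_le_of_lt h1 hZ
    have h4 := (abs_lt.1 h3).1
    linarith
  · intro w hw
    have hw' := abs_le_of_mem hw
    rw [ddX w hw, (dX w hw).deriv, (dZ w hw).deriv]
    have h := congrArg (evR hw') e1
    unfold FU1 FM1 at h
    simp only [map_add, map_sub, map_mul, map_one, map_zero, map_ofNat, evR_apply, ev_wv, eA] at h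
    apply mul_left_cancel₀ (eW w hw')
    rw [mul_zero, ← h]
    ring
  · intro w hw
    have hw' := abs_le_of_mem hw
    rw [ddZ w hw, (dX w hw).deriv, (dZ w hw).deriv]
    have h := congrArg (evR hw') e2
    unfold FU2 FM2 at h
    simp only [map_add, map_sub, map_mul, map_one, map_zero, map_ofNat, evR_apply, ev_wv, eA] at h
    apply mul_left_cancel₀ (eW w hw')
    rw [mul_zero, ← h]
    ring

end Pool.Agent.H733R2
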