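import Pool.Agent.H733R2.GDef

set_option autoImplicit false

open Finset

namespace Pool.Agent.H733R2

lemma norm_num_mul (c : ℕ) [c.AtLeastTwo] (f : B) :
    ‖(OfNat.ofNat c : B) * f‖ ≤ (OfNat.ofNat c : ℝ) * ‖f‖ := by
  have h : (OfNat.ofNat c : B) = algebraMap ℝ B (OfNat.ofNat c : ℝ) := by rw [map_ofNat]
  rw [h, ← Algebra.smul_def, norm_smul, Real.norm_ofNat]

lemma norm_4 (f : B) : ‖4 * f‖ ≤ 4 * ‖f‖ := norm_num_mul 4 f
lemma norm_6 (f : B) : ‖6 * f‖ ≤ 6 * ‖f‖ := norm_num_mul 6 f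
lemma norm_8 (f : B) : ‖8 * f‖ ≤ 8 * ‖f‖ := norm_num_mul 8 f

lemma norm_1m : ‖(1 : B) - wv‖ ≤ 9/4 := by
  refine (norm_sub_le _ _).trans ?_
  rw [norm_one, norm_wv]; norm_num
lemma norm_1p : ‖(1 : B) + wv‖ ≤ 9/4 := by
  refine (norm_add_le _ _).trans ?_
  rw [norm_one, norm_wv]; norm_num

lemma norm_6m (f : B) : ‖6 * (1 - wv) * f‖ ≤ 27/2 * ‖f‖ := by
  rw [mul_assoc]
  refine (norm_6 _).trans ?_
  have h1 := norm_mul_le (1 - wv) f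
  have h2 : ‖(1 : B) - wv‖ * ‖f‖ ≤ 9/4 * ‖f‖ := by
    gcongr; exact norm_1m
  linarith
lemma norm_4p (f : B) : ‖4 * (1 + wv) * f‖ ≤ 9 * ‖f‖ := by
  rw [mul_assoc]
  refine (norm_4 _).trans ?_
  have h1 := norm_mul_le (1 + wv) f
  have h2 : ‖(1 : B) + wv‖ * ‖f‖ ≤ 9/4 * ‖f‖ := by
    gcongr; exact norm_1p
  linarith

lemma norm_W {W : B} (hW : ‖W‖ ≤ 0.652) {f : B} {c : ℝ} (hf : ‖f‖ ≤ c) : ‖W * f‖ ≤ 0.652 * c :=
  (norm_mul_le _ _).trans (mul_le_mul hW hf (norm_nonneg _) (by norm_num))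

/-- TASK P1: Lipschitz estimate. -/
theorem Gm_lip (W : B) (x0 : E) (hW : ‖W‖ ≤ 0.652)
    (hA0 : |x0 (Sum.inl 0)| ≤ 1.4312) (hX : ‖cX x0‖ ≤ 1.406) (hZ : ‖ZZ x0‖ ≤ 1.623)
    (hX1 : ‖cX1 x0‖ ≤ 0.387) (hZ1 : ‖cZ1 x0‖ ≤ 0.532) (hX2 : ‖cX2 x0‖ ≤ 0.028)
    (hZ2 : ‖cZ2 x0‖ ≤ 0.07) :
    ∀ x ∈ Metric.closedBall x0 (1/200000), ∀ y ∈ Metric.closedBall x0 (1/200000),
      ‖Gm W x - Gm W y - DGm W x0 (x - y)‖ ≤ 1/100 * ‖x - y‖ := by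
  have hr : (0:ℝ) ≤ 1/200000 := by norm_num
  have hA' : ‖cA x0‖ ≤ 1.4312 := by
    rw [cA_apply, norm_smul, norm_one, mul_one]; exact hA0
  have aff : ∀ (Λ : E →L[ℝ] B) (K M m : ℝ) (hK : ∀ δ, ‖Λ δ‖ ≤ K * ‖δ‖) (hK0 : 0 ≤ K)
      (hm : ‖Λ x0‖ ≤ m) (hM : m + K * (1/200000) ≤ M) (hM0 : 0 ≤ M),
      Ap x0 (1/200000) (fun x => Λ x) Λ M K 0 := by
    intro Λ K M m hK hK0 hm hM hM0
    have h := Ap.affine (x0 := x0) (r := 1/200000) 0 Λ hK hK0 (M := M) (by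
      rw [zero_add]; linarith) hM0
    simpa using h
  have aA : Ap x0 (1/200000) (fun x => cA x) cA 1.432 1 0 :=
    aff cA 1 1.432 1.4312 cA_le (by norm_num) hA' (by norm_num) (by norm_num)
  have aX : Ap x0 (1/200000) (fun x => cX x) cX 1.407 (5/4) 0 :=
    aff cX (5/4) 1.407 1.406 cX_le (by norm_num) hX (by norm_num) (by norm_num)
  have aX1 : Ap x0 (1/200000) (fun x => cX1 x) cX1 0.388 (5/4) 0 :=
    aff cX1 (5/4) 0.388 0.387 cX1_le (by norm_num) hX1 (by norm_num) (by norm_num)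
  have aZ1 : Ap x0 (1/200000) (fun x => cZ1 x) cZ1 0.533 (5/4) 0 :=
    aff cZ1 (5/4) 0.533 0.532 cZ1_le (by norm_num) hZ1 (by norm_num) (by norm_num)
  have aX2 : Ap x0 (1/200000) (fun x => cX2 x) cX2 0.029 1 0 :=
    aff cX2 1 0.029 0.028 cX2_le (by norm_num) hX2 (by norm_num) (by norm_num)
  have aZ2 : Ap x0 (1/200000) (fun x => cZ2 x) cZ2 0.071 1 0 :=
    aff cZ2 1 0.071 0.07 cZ2_le (by norm_num) hZ2 (by norm_num) (by norm_num)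
  have aZ : Ap x0 (1/200000) (fun x => ZZ x) cZ 1.624 (5/4) 0 := by
    have h := Ap.affine (x0 := x0) (r := 1/200000) 1 cZ cZ_le (by norm_num : (0:ℝ) ≤ 5/4)
      (M := 1.624) (by
        have : ‖1 + cZ x0‖ ≤ 1.623 := hZ
        norm_num at this ⊢; linarith) (by norm_num)
    exact h
  -- products
  have pZX2 := (Ap.mul hr aZ aX2).mono (M' := 1) (K' := 10) (L' := 2.5 * (1/200000)) (by norm_num) (by norm_num) (by norm_num)
  have pX1Z1 := (Ap.mul hr aX1 aZ1).mono (M' := 1) (K' := 10) (L' := 3.125 * (1/200000)) (by norm_num) (by norm_num) (by norm_num)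
  have pZZ2 := (Ap.mul hr aZ aZ2).mono (M' := 1) (K' := 10) (L' := 2.5 * (1/200000)) (by norm_num) (by norm_num) (by norm_num)
  have pZ1Z1 := (Ap.mul hr aZ1 aZ1).mono (M' := 1) (K' := 10) (L' := 3.125 * (1/200000)) (by norm_num) (by norm_num) (by norm_num)
  have pX1X1 := (Ap.mul hr aX1 aX1).mono (M' := 1) (K' := 10) (L' := 3.125 * (1/200000)) (by norm_num) (by norm_num) (by norm_num)
  have pZX1 := (Ap.mul hr aZ aX1).mono (M' := 1) (K' := 10) (L' := 3.125 * (1/200000)) (by norm_num) (by norm_num) (by norm_num)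
  have pZZ1 := (Ap.mul hr aZ aZ1).mono (M' := 1) (K' := 10) (L' := 3.125 * (1/200000)) (by norm_num) (by norm_num) (by norm_num)
  have pXZ1 := Ap.mul hr aX aZ1
  have pXX1 := Ap.mul hr aX aX1
  have pXZ := Ap.mul hr aX aZ
  have pZZ := Ap.mul hr aZ aZ
  have pXX := Ap.mul hr aX aX
  have pAA := Ap.mul hr aA aA
  have pAA1 := Ap.add pAA aA
  have pAXZ1 := (Ap.mul hr aA pXZ1).mono (M' := 2) (K' := 10) (L' := 9.4 * (1/200000)) (by norm_num) (by norm_num) (by norm_num)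
  have pAXX1 := (Ap.mul hr aA pXX1).mono (M' := 2) (K' := 10) (L' := 9 * (1/200000)) (by norm_num) (by norm_num) (by norm_num)
  have pAAXZ := (Ap.mul hr pAA1 pXZ).mono (M' := 10) (K' := 30) (L' := 45 * (1/200000)) (by norm_num) (by norm_num) (by norm_num)
  have pAZZ := (Ap.mul hr aA pZZ).mono (M' := 10) (K' := 30) (L' := 12.7 * (1/200000)) (by norm_num) (by norm_num) (by norm_num)
  have pAAXX := (Ap.mul hr pAA pXX).mono (M' := 10) (K' := 30) (L' := 30.6 * (1/200000)) (by norm_num) (by norm_num) (by norm_num)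
  intro x hx y hy
  set δ := x - y with hδ
  have n0 : 0 ≤ ‖δ‖ := norm_nonneg _
  have b1 := pZX2.app x hx y hy
  have b2 := pX1Z1.app x hx y hy
  have b3 := pZZ2.app x hx y hy
  have b4 := pZ1Z1.app x hx y hy
  have b5 := pX1X1.app x hx y hy
  have b6 := pZX1.app x hx y hy
  have b7 := pZZ1.app x hx y hy
  have b8 := pAXZ1.app x hx y hy
  have b9 := pAXX1.app x hx y hy
  have b10 := pAAXZ.app x hx y hy
  have b11 := pAZZ.app x hx y hy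
  have b12 := pAAXX.app x hx y hy
  rw [← hδ] at b1 b2 b3 b4 b5 b6 b7 b8 b9 b10 b11 b12
  -- the four components
  have eU1 : FU1 W x - FU1 W y - dU1 W x0 δ
      = 4 * (W * (ZZ x * cX2 x - ZZ y * cX2 y - (mulc (cX2 x0) ∘L cZ + mulc (ZZ x0) ∘L cX2) δ))
        - 8 * (W * (cX1 x * cZ1 x - cX1 y * cZ1 y - (mulc (cZ1 x0) ∘L cX1 + mulc (cX1 x0) ∘L cZ1) δ)) := by
    have e1 : (mulc (cX2 x0) ∘L cZ + mulc (ZZ x0) ∘L cX2) δ = cX2 x0 * cZ δ + ZZ x0 * cX2 δ := rfl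
    have e2 : (mulc (cZ1 x0) ∘L cX1 + mulc (cX1 x0) ∘L cZ1) δ = cZ1 x0 * cX1 δ + cX1 x0 * cZ1 δ := rfl
    rw [e1, e2, dU1_apply, FU1, FU1]
    ring
  have eU2 : FU2 W x - FU2 W y - dU2 W x0 δ
      = 4 * (W * (ZZ x * cZ2 x - ZZ y * cZ2 y - (mulc (cZ2 x0) ∘L cZ + mulc (ZZ x0) ∘L cZ2) δ))
        - 4 * (W * (cZ1 x * cZ1 x - cZ1 y * cZ1 y - (mulc (cZ1 x0) ∘L cZ1 + mulc (cZ1 x0) ∘L cZ1) δ))
        + 4 * (W * (cX1 x * cX1 x - cX1 y * cX1 y - (mulc (cX1 x0) ∘L cX1 + mulc (cX1 x0) ∘L cX1) δ)) := by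
    have e1 : (mulc (cZ2 x0) ∘L cZ + mulc (ZZ x0) ∘L cZ2) δ = cZ2 x0 * cZ δ + ZZ x0 * cZ2 δ := rfl
    have e2 : (mulc (cZ1 x0) ∘L cZ1 + mulc (cZ1 x0) ∘L cZ1) δ = cZ1 x0 * cZ1 δ + cZ1 x0 * cZ1 δ := rfl
    have e3 : (mulc (cX1 x0) ∘L cX1 + mulc (cX1 x0) ∘L cX1) δ = cX1 x0 * cX1 δ + cX1 x0 * cX1 δ := rfl
    rw [e1, e2, e3, dU2_apply, FU2, FU2]
    ring
  have eM1 : FM1 W x - FM1 W y - dM1 W x0 δ
      = 6 * (1 - wv) * (W * (ZZ x * cX1 x - ZZ y * cX1 y - (mulc (cX1 x0) ∘L cZ + mulc (ZZ x0) ∘L cX1) δ))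
        - 4 * (1 + wv) * (W * (cA x * (cX x * cZ1 x) - cA y * (cX y * cZ1 y)
          - (mulc (cX x0 * cZ1 x0) ∘L cA + mulc (cA x0) ∘L (mulc (cZ1 x0) ∘L cX + mulc (cX x0) ∘L cZ1)) δ))
        + W * ((cA x * cA x + cA x) * (cX x * ZZ x) - (cA y * cA y + cA y) * (cX y * ZZ y)
          - (mulc (cX x0 * ZZ x0) ∘L (mulc (cA x0) ∘L cA + mulc (cA x0) ∘L cA + cA)
            + mulc (cA x0 * cA x0 + cA x0) ∘L (mulc (ZZ x0) ∘L cX + mulc (cX x0) ∘L cZ)) δ) := by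
    have e1 : (mulc (cX1 x0) ∘L cZ + mulc (ZZ x0) ∘L cX1) δ = cX1 x0 * cZ δ + ZZ x0 * cX1 δ := rfl
    have e2 : (mulc (cX x0 * cZ1 x0) ∘L cA + mulc (cA x0) ∘L (mulc (cZ1 x0) ∘L cX + mulc (cX x0) ∘L cZ1)) δ
      = (cX x0 * cZ1 x0) * cA δ + cA x0 * (cZ1 x0 * cX δ + cX x0 * cZ1 δ) := rfl
    have e3 : (mulc (cX x0 * ZZ x0) ∘L (mulc (cA x0) ∘L cA + mulc (cA x0) ∘L cA + cA)
            + mulc (cA x0 * cA x0 + cA x0) ∘L (mulc (ZZ x0) ∘L cX + mulc (cX x0) ∘L cZ)) δ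
      = (cX x0 * ZZ x0) * (cA x0 * cA δ + cA x0 * cA δ + cA δ)
        + (cA x0 * cA x0 + cA x0) * (ZZ x0 * cX δ + cX x0 * cZ δ) := rfl
    rw [e1, e2, e3, dM1_apply, FM1, FM1, q1, q2, q3, p2, r1]
    ring
  have eM2 : FM2 W x - FM2 W y - dM2 W x0 δ
      = 6 * (1 - wv) * (W * (ZZ x * cZ1 x - ZZ y * cZ1 y - (mulc (cZ1 x0) ∘L cZ + mulc (ZZ x0) ∘L cZ1) δ))
        + 4 * (1 + wv) * (W * (cA x * (cX x * cX1 x) - cA y * (cX y * cX1 y)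
          - (mulc (cX x0 * cX1 x0) ∘L cA + mulc (cA x0) ∘L (mulc (cX1 x0) ∘L cX + mulc (cX x0) ∘L cX1)) δ))
        + W * (cA x * (ZZ x * ZZ x) - cA y * (ZZ y * ZZ y)
          - (mulc (ZZ x0 * ZZ x0) ∘L cA + mulc (cA x0) ∘L (mulc (ZZ x0) ∘L cZ + mulc (ZZ x0) ∘L cZ)) δ)
        - W * ((cA x * cA x) * (cX x * cX x) - (cA y * cA y) * (cX y * cX y)
          - (mulc (cX x0 * cX x0) ∘L (mulc (cA x0) ∘L cA + mulc (cA x0) ∘L cA)
            + mulc (cA x0 * cA x0) ∘L (mulc (cX x0) ∘L cX + mulc (cX x0) ∘L cX)) δ) := by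
    have e1 : (mulc (cZ1 x0) ∘L cZ + mulc (ZZ x0) ∘L cZ1) δ = cZ1 x0 * cZ δ + ZZ x0 * cZ1 δ := rfl
    have e2 : (mulc (cX x0 * cX1 x0) ∘L cA + mulc (cA x0) ∘L (mulc (cX1 x0) ∘L cX + mulc (cX x0) ∘L cX1)) δ
      = (cX x0 * cX1 x0) * cA δ + cA x0 * (cX1 x0 * cX δ + cX x0 * cX1 δ) := rfl
    have e3 : (mulc (ZZ x0 * ZZ x0) ∘L cA + mulc (cA x0) ∘L (mulc (ZZ x0) ∘L cZ + mulc (ZZ x0) ∘L cZ)) δ
      = (ZZ x0 * ZZ x0) * cA δ + cA x0 * (ZZ x0 * cZ δ + ZZ x0 * cZ δ) := rfl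
    have e4 : (mulc (cX x0 * cX x0) ∘L (mulc (cA x0) ∘L cA + mulc (cA x0) ∘L cA)
            + mulc (cA x0 * cA x0) ∘L (mulc (cX x0) ∘L cX + mulc (cX x0) ∘L cX)) δ
      = (cX x0 * cX x0) * (cA x0 * cA δ + cA x0 * cA δ)
        + (cA x0 * cA x0) * (cX x0 * cX δ + cX x0 * cX δ) := rfl
    rw [e1, e2, e3, e4, dM2_apply, FM2, FM2, q1, p4, q3, q4, r2]
    ring
  have cU1 : ‖FU1 W x - FU1 W y - dU1 W x0 δ‖ ≤ 23 * (1/200000) * ‖δ‖ := by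
    rw [eU1]
    refine (norm_sub_le _ _).trans ?_
    have h1 := (norm_4 _).trans (mul_le_mul_of_nonneg_left (norm_W hW b1) (by norm_num : (0:ℝ) ≤ 4))
    have h2 := (norm_8 _).trans (mul_le_mul_of_nonneg_left (norm_W hW b2) (by norm_num : (0:ℝ) ≤ 8))
    refine (add_le_add h1 h2).trans ?_
    nlinarith
  have cU2 : ‖FU2 W x - FU2 W y - dU2 W x0 δ‖ ≤ 23 * (1/200000) * ‖δ‖ := by
    rw [eU2]
    refine (norm_add_le _ _).trans ?_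
    have h1 := (norm_4 _).trans (mul_le_mul_of_nonneg_left (norm_W hW b3) (by norm_num : (0:ℝ) ≤ 4))
    have h2 := (norm_4 _).trans (mul_le_mul_of_nonneg_left (norm_W hW b4) (by norm_num : (0:ℝ) ≤ 4))
    have h3 := (norm_4 _).trans (mul_le_mul_of_nonneg_left (norm_W hW b5) (by norm_num : (0:ℝ) ≤ 4))
    refine (add_le_add ((norm_sub_le _ _).trans (add_le_add h1 h2)) h3).trans ?_
    nlinarith
  have cM1 : ‖FM1 W x - FM1 W y - dM1 W x0 δ‖ ≤ 113 * (1/200000) * ‖δ‖ := by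
    rw [eM1]
    refine (norm_add_le _ _).trans ?_
    have h1 := (norm_6m _).trans (mul_le_mul_of_nonneg_left (norm_W hW b6) (by norm_num : (0:ℝ) ≤ 27/2))
    have h2 := (norm_4p _).trans (mul_le_mul_of_nonneg_left (norm_W hW b8) (by norm_num : (0:ℝ) ≤ 9))
    have h3 := norm_W hW b10
    refine (add_le_add ((norm_sub_le _ _).trans (add_le_add h1 h2)) h3).trans ?_
    nlinarith
  have cM2 : ‖FM2 W x - FM2 W y - dM2 W x0 δ‖ ≤ 109 * (1/200000) * ‖δ‖ := by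
    rw [eM2]
    refine (norm_sub_le _ _).trans ?_
    have h1 := (norm_6m _).trans (mul_le_mul_of_nonneg_left (norm_W hW b7) (by norm_num : (0:ℝ) ≤ 27/2))
    have h2 := (norm_4p _).trans (mul_le_mul_of_nonneg_left (norm_W hW b9) (by norm_num : (0:ℝ) ≤ 9))
    have h3 := norm_W hW b11
    have h4 := norm_W hW b12
    refine (add_le_add ((norm_add_le _ _).trans (add_le_add ((norm_add_le _ _).trans
      (add_le_add h1 h2)) h3)) h4).trans ?_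
    nlinarith
  have eG : Gm W x - Gm W y - DGm W x0 δ
      = jf (FU1 W x - FU1 W y - dU1 W x0 δ) + pk1 (FM1 W x - FM1 W y - dM1 W x0 δ)
        + jg (FU2 W x - FU2 W y - dU2 W x0 δ) + pk2 (FM2 W x - FM2 W y - dM2 W x0 δ) := by
    rw [DGm_apply, Gm, Gm]
    simp only [map_sub]
    abel
  rw [eG]
  have g1 := (jf_le (FU1 W x - FU1 W y - dU1 W x0 δ)).trans cU1
  have g2 := (pk1_le (FM1 W x - FM1 W y - dM1 W x0 δ)).trans
    (mul_le_mul_of_nonneg_left cM1 (by norm_num : (0:ℝ) ≤ 61/9))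
  have g3 := (jg_le (FU2 W x - FU2 W y - dU2 W x0 δ)).trans cU2
  have g4 := (pk2_le (FM2 W x - FM2 W y - dM2 W x0 δ)).trans
    (mul_le_mul_of_nonneg_left cM2 (by norm_num : (0:ℝ) ≤ 61/9))
  refine (norm_add_le _ _).trans (le_trans (add_le_add ((norm_add_le _ _).trans
    (add_le_add ((norm_add_le _ _).trans (add_le_add g1 g2)) g3)) g4) ?_)
  nlinarith

end Pool.Agent.H733R2
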