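import Pool.Agent.H733R2.Fin2
import Pool.Agent.H733R2.Lip
import Pool.Agent.H733R2.Eval

set_option autoImplicit false

open Finset

namespace Pool.Agent.H733R2

lemma aI_val : (aI : ℤ) = 24587444379 := rfl

lemma xbar0 : xbar (Sum.inl 0) = 24587444379 / 2^34 := by
  rw [xbar_apply, toE_s0]
  simp only []
  rw [aI_val]
  norm_num

theorem exists_profile : ∃ (a : ℝ) (X Z : ℝ → ℝ), Profile a X Z := by
  obtain ⟨x, hx, hG⟩ := newton (Gm Wb) (DGm Wb xbar) (Aop hI ωI QM) xbar (1/200000) 0.68 5.25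
    (1/100) 0.0000007
    (Aop_injective hI ωI QM hI_inj ωI_pos (DGm Wb xbar) 0.68 (by norm_num) contraction (by norm_num))
    contraction Aop_bound
    (Gm_lip Wb xbar s_W (by rw [xbar0, abs_of_pos (by norm_num)]; norm_num) s_X s_Z s_X1 s_Z1 s_X2 s_Z2)
    residual (by norm_num) (by norm_num) (by norm_num) (by norm_num) (by norm_num) (by norm_num)
  rw [Metric.mem_closedBall, dist_eq_norm] at hx
  apply profile_of_zero Wb x hG
  · have h1 := E_apply_le (x - xbar) (Sum.inl 0)
    have h2 : (x - xbar) (Sum.inl 0) = x (Sum.inl 0) - xbar (Sum.inl 0) := rfl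
    rw [h2, xbar0] at h1
    have h3 := (abs_le.1 (h1.trans hx)).1
    norm_num at h3
    linarith
  · have h1 : ‖4 * (Wb * cZ (x - xbar))‖ ≤ 4 * (0.652 * (5/4 * (1/200000))) := by
      have e : (4 : B) * (Wb * cZ (x - xbar)) = (4 : ℝ) • (Wb * cZ (x - xbar)) := by
        rw [R_cast_smul, map_ofNat]
      rw [e, norm_smul, Real.norm_ofNat]
      have h2 := norm_mul_le Wb (cZ (x - xbar))
      have h3 := cZ_le (x - xbar)
      have h4 : ‖cZ (x - xbar)‖ ≤ 5/4 * (1/200000) := h3.trans (by gcongr)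
      have h5 : ‖Wb‖ * ‖cZ (x - xbar)‖ ≤ 0.652 * (5/4 * (1/200000)) := by
        gcongr
        exact s_W
      linarith
    have e : 4 * (Wb * ZZ x) - 1 = (4 * (Wb * ZZ xbar) - 1) + 4 * (Wb * cZ (x - xbar)) := by
      simp only [ZZ, map_sub]
      ring
    rw [e]
    refine lt_of_le_of_lt (norm_add_le _ _) ?_
    have := s_b1
    norm_num at this h1 ⊢
    linarith
  · have h3 := cZ_le (x - xbar)
    have h4 : ‖cZ (x - xbar)‖ ≤ 5/4 * (1/200000) := h3.trans (by gcongr)
    have e : cZ x = cZ xbar + cZ (x - xbar) := by rw [map_sub]; abel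
    rw [e]
    refine lt_of_le_of_lt (norm_add_le _ _) ?_
    have := s_Zm
    norm_num at this h4 ⊢
    linarith

end Pool.Agent.H733R2
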