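import Pool.Agent.H733R2.GDef

set_option autoImplicit false

open Finset

namespace Pool.Agent.H733R2
namespace Tail

/-! ### the norm `rho` and multiplication by `wv` -/

lemma Gs_wv (f : B) : Gs (wv * f) = wv * Gs f + algebraMap ℝ B (4/5 * cf (Gs f) 1) := by
  apply Gs_eq
  have h0 : ∀ n, cf (Gs f) n - 16/25 * cf (Gs f) (n + 2) = cf f n := by
    intro n
    have := congrArg (fun g => cf g n) (Gs_spec1 f)
    simpa only [cf_sub, cf_T2] using this
  apply B.ext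
  intro n
  rw [algebraMap_eq]
  simp only [cf_sub, cf_add, cf_T2, cf_mono]
  cases n with
  | zero =>
    rw [cf_wv_mul_zero, cf_wv_mul_zero, show (0 + 2 : ℕ) = 1 + 1 from rfl, cf_wv_mul]
    simp
    ring
  | succ m =>
    rw [cf_wv_mul, cf_wv_mul, show m + 1 + 2 = (m + 2) + 1 from rfl, cf_wv_mul, ← h0 m]
    simp
    ring

lemma rho_nonneg (f : B) : 0 ≤ rho f := by unfold rho; positivity

lemma rho_wv (f : B) : rho (wv * f) ≤ 5/4 * rho f := by
  have hG := Gs_wv f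
  have hD : Dv (wv * f) = wv * Dv f - algebraMap ℝ B (4/5 * cf (Gs f) 1) := by
    rw [Dv_apply, Dv_apply, hG]; ring
  have h0 : cf (Gs (wv * f)) 0 = 4/5 * cf (Gs f) 1 := by
    rw [hG, algebraMap_eq, cf_add, cf_wv_mul_zero, cf_mono]; simp
  have h1 : cf (Gs (wv * f)) 1 = 5/4 * cf (Gs f) 0 := by
    rw [hG, algebraMap_eq, cf_add, cf_wv_mul, cf_mono]; simp
  have hn : ‖Dv (wv * f)‖ ≤ 5/4 * ‖Dv f‖ + |4/5 * cf (Gs f) 1| := by
    rw [hD]
    refine (norm_sub_le _ _).trans ?_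
    have a1 : ‖wv * Dv f‖ ≤ 5/4 * ‖Dv f‖ := by
      have := norm_mul_le wv (Dv f)
      rwa [norm_wv] at this
    have a2 : ‖algebraMap ℝ B (4/5 * cf (Gs f) 1)‖ = |4/5 * cf (Gs f) 1| := by
      rw [algebraMap_eq, mono_norm]
    linarith
  unfold rho
  rw [h0, h1]
  have e : (4/5 : ℝ) * (5/4 * cf (Gs f) 0) = cf (Gs f) 0 := by ring
  rw [e]
  linarith

lemma rho_wv_pow (f : B) (K : ℕ) : rho (wv ^ K * f) ≤ (5/4) ^ K * rho f := by
  induction K with
  | zero => simp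
  | succ K ih =>
    have e : wv ^ (K + 1) * f = wv * (wv ^ K * f) := by ring
    rw [e]
    refine (rho_wv _).trans ?_
    have : (5/4 : ℝ) ^ (K + 1) * rho f = 5/4 * ((5/4) ^ K * rho f) := by ring
    rw [this]
    linarith

lemma rho_smul (c : ℝ) (f : B) : rho (c • f) = |c| * rho f := by
  unfold rho
  rw [map_smul, map_smul, norm_smul, cf_smul, cf_smul, Real.norm_eq_abs, abs_mul]
  have e : |4/5 * (c * cf (Gs f) 1)| = |c| * |4/5 * cf (Gs f) 1| := by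
    rw [← abs_mul]; congr 1; ring
  rw [e]
  ring

lemma wv_pow (K : ℕ) : wv ^ K = mono ((5/4) ^ K) K := by
  induction K with
  | zero => rw [pow_zero, pow_zero]; rfl
  | succ K ih =>
    rw [pow_succ, ih]
    unfold wv
    rw [mono_mul, pow_succ]

lemma smul_mono (a c : ℝ) (K : ℕ) : a • mono c K = mono (a * c) K := by
  apply B.ext
  intro n
  rw [cf_smul, cf_mono, cf_mono]
  split_ifs <;> simp

lemma mul_mono_eq (q : B) (c : ℝ) (K : ℕ) :
    q * mono c K = (c / (5/4) ^ K) • (wv ^ K * q) := by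
  have h : (c / (5/4) ^ K) • wv ^ K = mono c K := by
    rw [wv_pow, smul_mono]
    congr 1
    field_simp
  rw [← h]
  rw [mul_comm q, smul_mul_assoc]

lemma rho_mul_mono (q : B) (c : ℝ) (K : ℕ) : rho (q * mono c K) ≤ |c| * rho q := by
  rw [mul_mono_eq, rho_smul]
  have h := rho_wv_pow q K
  have hp : (0 : ℝ) < (5/4) ^ K := by positivity
  rw [abs_div, abs_of_pos hp]
  calc |c| / (5/4) ^ K * rho (wv ^ K * q) ≤ |c| / (5/4) ^ K * ((5/4) ^ K * rho q) := by gcongr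
    _ = |c| * rho q := by field_simp

lemma pk1_rho (f : B) : ‖pk1 f‖ ≤ rho f := by
  rw [pk1_apply]
  have h5 := jf_le (Dv f)
  calc _ ≤ ‖(cf (Gs f) 0) • (bs (Sum.inl 0) : E)‖ + ‖(4/5 * cf (Gs f) 1) • (bs (Sum.inl 1) : E)‖
        + ‖jf (Dv f)‖ := norm_add₃_le
    _ ≤ rho f := by
        rw [norm_smul, norm_smul, bs_norm, bs_norm, mul_one, mul_one, Real.norm_eq_abs,
          Real.norm_eq_abs]
        unfold rho
        have := abs_nonneg (cf (Gs f) 0)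
        have := abs_nonneg (4/5 * cf (Gs f) 1)
        linarith

lemma pk2_rho (f : B) : ‖pk2 f‖ ≤ rho f := by
  rw [pk2_apply]
  have h5 := jg_le (Dv f)
  calc _ ≤ ‖(cf (Gs f) 0) • (bs (Sum.inl 2) : E)‖ + ‖(4/5 * cf (Gs f) 1) • (bs (Sum.inl 3) : E)‖
        + ‖jg (Dv f)‖ := norm_add₃_le
    _ ≤ rho f := by
        rw [norm_smul, norm_smul, bs_norm, bs_norm, mul_one, mul_one, Real.norm_eq_abs,
          Real.norm_eq_abs]
        unfold rho
        have := abs_nonneg (cf (Gs f) 0)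
        have := abs_nonneg (4/5 * cf (Gs f) 1)
        linarith

/-! ### head coordinates -/

lemma hI_inj : Function.Injective hI := by
  intro a b hab
  unfold hI at hab
  apply Fin.ext
  split_ifs at hab with h1 h2 h3 h4 h5 h6 h7 h8 <;> simp at hab <;> omega

lemma ωI_pos (k : Fin 36) : 0 < ωI k := by
  unfold ωI
  split_ifs <;> positivity

/-- sum of the absolute values of the head coordinates -/
noncomputable def hd (v : E) : ℝ := ∑ k, |v (hI k)|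

lemma hd_nonneg (v : E) : 0 ≤ hd v := Finset.sum_nonneg fun _ _ => abs_nonneg _

lemma hd_add (u v : E) : hd (u + v) ≤ hd u + hd v := by
  unfold hd
  rw [← Finset.sum_add_distrib]
  refine Finset.sum_le_sum fun k _ => ?_
  exact abs_add_le _ _

lemma hd_eq (v : E) : hd v = (|v (Sum.inl 0)| + |v (Sum.inl 1)| + |v (Sum.inl 2)| + |v (Sum.inl 3)|)
    + ∑ m ∈ range 16, |v (Sum.inr (Sum.inl m))| + ∑ m ∈ range 16, |v (Sum.inr (Sum.inr m))| := by
  unfold hd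
  set F : ℕ → ℝ := fun k => if h : k < 4 then |v (Sum.inl ⟨k, h⟩)| else
    if k < 20 then |v (Sum.inr (Sum.inl (k - 4)))| else |v (Sum.inr (Sum.inr (k - 20)))| with hF
  have h1 : ∀ k : Fin 36, |v (hI k)| = F k := by
    intro k
    rw [hF]
    unfold hI
    simp only
    split_ifs <;> rfl
  rw [Finset.sum_congr rfl fun k _ => h1 k, ← Finset.sum_range F]
  simp only [Finset.sum_range_succ, Finset.sum_range_zero, hF]
  norm_num
  have e2 : (⟨2, by norm_num⟩ : Fin 4) = 2 := rfl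
  have e3 : (⟨3, by norm_num⟩ : Fin 4) = 3 := rfl
  rw [e2, e3]
  ring

lemma norm_H_le (v : E) : ‖Psi hI ωI (Phi hI ωI v)‖ ≤ hd v := by
  rw [Psi_apply]
  refine (norm_sum_le _ _).trans ?_
  unfold hd
  refine Finset.sum_le_sum fun k _ => ?_
  rw [norm_smul, bs_norm, mul_one, Phi_apply, Real.norm_eq_abs, ← mul_assoc,
    mul_inv_cancel₀ (ωI_pos k).ne', one_mul]

lemma Aop_le (Q : Matrix (Fin 36) (Fin 36) ℝ) (hA : ∀ y : E, ‖Aop hI ωI Q y‖ ≤ 5.25 * ‖y‖)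
    (u v : E) : ‖u - Aop hI ωI Q v‖ ≤ ‖u - v‖ + 6.25 * hd v := by
  have h1 : Aop hI ωI Q v = v - Psi hI ωI (Phi hI ωI v)
      + Aop hI ωI Q (Psi hI ωI (Phi hI ωI v)) := by
    rw [Aop_apply, Aop_apply, Phi_Psi hI ωI hI_inj ωI_pos]
    abel
  have e : u - Aop hI ωI Q v = (u - v) + Psi hI ωI (Phi hI ωI v)
      - Aop hI ωI Q (Psi hI ωI (Phi hI ωI v)) := by
    rw [h1]; abel
  rw [e]
  have h2 := norm_H_le v
  have h3 := hA (Psi hI ωI (Phi hI ωI v))
  have h4 := norm_sub_le ((u - v) + Psi hI ωI (Phi hI ωI v))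
    (Aop hI ωI Q (Psi hI ωI (Phi hI ωI v)))
  have h5 := norm_add_le (u - v) (Psi hI ωI (Phi hI ωI v))
  linarith

lemma cf_mul_mono_lt (q : B) (c : ℝ) (K m : ℕ) (h : m < K) : cf (q * mono c K) m = 0 := by
  rw [cf_mul]
  refine Finset.sum_eq_zero fun p hp => ?_
  rw [HasAntidiagonal.mem_antidiagonal] at hp
  have : p.2 ≠ K := by omega
  rw [cf_mono, if_neg this, mul_zero]

lemma Gs_decay (f : B) (K : ℕ) (hf : ∀ m < K, cf f m = 0) :
    ∀ j m, m + j = K → |cf (Gs f) m| ≤ ‖Gs f‖ * (4/5) ^ j := by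
  have h0 : ∀ n, n < K → cf (Gs f) n = 16/25 * cf (Gs f) (n + 2) := by
    intro n hn
    have := congrArg (fun g => cf g n) (Gs_spec1 f)
    simp only [cf_sub, cf_T2] at this
    rw [hf n hn] at this
    linarith
  intro j
  induction j using Nat.twoStepInduction with
  | zero =>
    intro m hm
    simpa using cf_le (Gs f) m
  | one =>
    intro m hm
    rw [h0 m (by omega), abs_mul, abs_of_pos (by norm_num : (0:ℝ) < 16/25)]
    have := cf_le (Gs f) (m + 2)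
    have := norm_nonneg (Gs f)
    norm_num
    nlinarith
  | more j ih1 ih2 =>
    intro m hm
    rw [h0 m (by omega), abs_mul, abs_of_pos (by norm_num : (0:ℝ) < 16/25)]
    have := ih1 (m + 2) (by omega)
    have e : ‖Gs f‖ * (4/5 : ℝ) ^ (j + 2) = 16/25 * (‖Gs f‖ * (4/5) ^ j) := by ring
    rw [e]
    linarith

lemma Gs_decay' (f : B) (K : ℕ) (hK : 41 ≤ K) (hf : ∀ m < K, cf f m = 0) (m : ℕ) (hm : m < 16) :
    |cf (Gs f) m| ≤ 25/9 * ‖f‖ * (4/5) ^ (41 - m) := by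
  have h1 := Gs_decay f K hf (K - m) m (by omega)
  have h2 : (4/5 : ℝ) ^ (K - m) ≤ (4/5) ^ (41 - m) :=
    pow_le_pow_of_le_one (by norm_num) (by norm_num) (by omega)
  have h3 := Gs_le f
  calc |cf (Gs f) m| ≤ ‖Gs f‖ * (4/5) ^ (K - m) := h1
    _ ≤ (25/9 * ‖f‖) * (4/5) ^ (41 - m) := by gcongr

lemma head_sum (f : B) (K : ℕ) (hK : 41 ≤ K) (hf : ∀ m < K, cf f m = 0) :
    |cf (Gs f) 0| + |4/5 * cf (Gs f) 1| + ∑ m ∈ range 16, |cf (Dv f) m| ≤ 0.0415 * ‖f‖ := by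
  have h := Gs_decay' f K hK hf
  have h1 : ∀ m ∈ range 16, |cf (Dv f) m| ≤ 25/9 * ‖f‖ * (4/5) ^ (41 - m) := by
    intro m hm
    rw [Finset.mem_range] at hm
    rw [Dv_apply, cf_sub, hf m (by omega), zero_sub, abs_neg]
    exact h m hm
  have h2 := Finset.sum_le_sum h1
  rw [← Finset.mul_sum] at h2
  have h3 : ∑ m ∈ range 16, (4/5 : ℝ) ^ (41 - m) ≤ 0.01469 := by
    simp only [Finset.sum_range_succ, Finset.sum_range_zero]
    norm_num
  have h4 := h 0 (by norm_num)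
  have h5 := h 1 (by norm_num)
  have h6 : (4/5 : ℝ) ^ (41 - 0) ≤ 0.000107 := by norm_num
  have h7 : (4/5 : ℝ) ^ (41 - 1) ≤ 0.000134 := by norm_num
  rw [abs_mul, abs_of_pos (by norm_num : (0:ℝ) < 4/5)]
  have hn := norm_nonneg f
  have a1 : 25/9 * ‖f‖ * ∑ m ∈ range 16, (4/5 : ℝ) ^ (41 - m) ≤ 25/9 * ‖f‖ * 0.01469 := by gcongr
  have a2 : 25/9 * ‖f‖ * (4/5 : ℝ) ^ (41 - 0) ≤ 25/9 * ‖f‖ * 0.000107 := by gcongr
  have a3 : 25/9 * ‖f‖ * (4/5 : ℝ) ^ (41 - 1) ≤ 25/9 * ‖f‖ * 0.000134 := by gcongr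
  linarith

lemma hd_pk1 (f : B) (K : ℕ) (hK : 41 ≤ K) (hf : ∀ m < K, cf f m = 0) :
    hd (pk1 f) ≤ 0.0415 * ‖f‖ := by
  refine le_trans (le_of_eq ?_) (head_sum f K hK hf)
  rw [hd_eq]
  have hs : ∀ i : Idx, pk1 f i = (cf (Gs f) 0) * (bs (Sum.inl 0) : E) i
    + (4/5 * cf (Gs f) 1) * (bs (Sum.inl 1) : E) i + jf (Dv f) i := by
    intro i; rw [pk1_apply]; rfl
  simp only [hs, bs_apply, jf_s, jf_f, jf_g]
  simp

lemma hd_pk2 (f : B) (K : ℕ) (hK : 41 ≤ K) (hf : ∀ m < K, cf f m = 0) :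
    hd (pk2 f) ≤ 0.0415 * ‖f‖ := by
  refine le_trans (le_of_eq ?_) (head_sum f K hK hf)
  rw [hd_eq]
  have hs : ∀ i : Idx, pk2 f i = (cf (Gs f) 0) * (bs (Sum.inl 2) : E) i
    + (4/5 * cf (Gs f) 1) * (bs (Sum.inl 3) : E) i + jg (Dv f) i := by
    intro i; rw [pk2_apply]; rfl
  simp only [hs, bs_apply, jg_s, jg_f, jg_g]
  simp

lemma hd_jf (f : B) (hf : ∀ m < 16, cf f m = 0) : hd (jf f) = 0 := by
  rw [hd_eq]
  simp only [jf_s, jf_f, jf_g]
  simp only [abs_zero, Finset.sum_const_zero, add_zero]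
  simp
  refine Finset.sum_eq_zero fun m hm => ?_
  rw [hf m (Finset.mem_range.1 hm), abs_zero]

lemma hd_jg (f : B) (hf : ∀ m < 16, cf f m = 0) : hd (jg f) = 0 := by
  rw [hd_eq]
  simp only [jg_s, jg_f, jg_g]
  simp only [abs_zero, Finset.sum_const_zero, add_zero]
  simp
  refine Finset.sum_eq_zero fun m hm => ?_
  rw [hf m (Finset.mem_range.1 hm), abs_zero]

lemma norm_mul_mono (q : B) (c : ℝ) (K : ℕ) : ‖q * mono c K‖ ≤ |c| * ‖q‖ := by
  have := norm_mul_le q (mono c K)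
  rw [mono_norm] at this
  linarith

/-- everything about a term `pk_i (q * mono c K)` -/
lemma pk1_term (q : B) {c C : ℝ} (hc0 : 0 ≤ c) (hc : c ≤ C) {K : ℕ} (hK : 41 ≤ K) {R N : ℝ}
    (hR : rho q ≤ R) (hN : ‖q‖ ≤ N) :
    ‖pk1 (q * mono c K)‖ ≤ C * R ∧ hd (pk1 (q * mono c K)) ≤ 0.0415 * (C * N) := by
  have hR0 : 0 ≤ R := (rho_nonneg q).trans hR
  have hN0 : 0 ≤ N := (norm_nonneg q).trans hN
  constructor
  · refine (pk1_rho _).trans ((rho_mul_mono q c K).trans ?_)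
    rw [abs_of_nonneg hc0]
    exact mul_le_mul hc hR (rho_nonneg q) (hc0.trans hc)
  · refine (hd_pk1 _ K hK fun m hm => cf_mul_mono_lt q c K m hm).trans ?_
    refine mul_le_mul_of_nonneg_left ?_ (by norm_num)
    refine (norm_mul_mono q c K).trans ?_
    rw [abs_of_nonneg hc0]
    exact mul_le_mul hc hN (norm_nonneg q) (hc0.trans hc)

lemma pk2_term (q : B) {c C : ℝ} (hc0 : 0 ≤ c) (hc : c ≤ C) {K : ℕ} (hK : 41 ≤ K) {R N : ℝ}
    (hR : rho q ≤ R) (hN : ‖q‖ ≤ N) :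
    ‖pk2 (q * mono c K)‖ ≤ C * R ∧ hd (pk2 (q * mono c K)) ≤ 0.0415 * (C * N) := by
  have hR0 : 0 ≤ R := (rho_nonneg q).trans hR
  have hN0 : 0 ≤ N := (norm_nonneg q).trans hN
  constructor
  · refine (pk2_rho _).trans ((rho_mul_mono q c K).trans ?_)
    rw [abs_of_nonneg hc0]
    exact mul_le_mul hc hR (rho_nonneg q) (hc0.trans hc)
  · refine (hd_pk2 _ K hK fun m hm => cf_mul_mono_lt q c K m hm).trans ?_
    refine mul_le_mul_of_nonneg_left ?_ (by norm_num)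
    refine (norm_mul_mono q c K).trans ?_
    rw [abs_of_nonneg hc0]
    exact mul_le_mul hc hN (norm_nonneg q) (hc0.trans hc)

lemma jf_term (q : B) {c C : ℝ} (hc0 : 0 ≤ c) (hc : c ≤ C) {K : ℕ} (hK : 16 ≤ K) {N : ℝ}
    (hN : ‖q‖ ≤ N) :
    ‖jf (q * mono c K)‖ ≤ C * N ∧ hd (jf (q * mono c K)) = 0 := by
  have hN0 : 0 ≤ N := (norm_nonneg q).trans hN
  constructor
  · refine (jf_le _).trans ((norm_mul_mono q c K).trans ?_)
    rw [abs_of_nonneg hc0]
    exact mul_le_mul hc hN (norm_nonneg q) (hc0.trans hc)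
  · exact hd_jf _ fun m hm => cf_mul_mono_lt q c K m (by omega)

lemma jg_term (q : B) {c C : ℝ} (hc0 : 0 ≤ c) (hc : c ≤ C) {K : ℕ} (hK : 16 ≤ K) {N : ℝ}
    (hN : ‖q‖ ≤ N) :
    ‖jg (q * mono c K)‖ ≤ C * N ∧ hd (jg (q * mono c K)) = 0 := by
  have hN0 : 0 ≤ N := (norm_nonneg q).trans hN
  constructor
  · refine (jg_le _).trans ((norm_mul_mono q c K).trans ?_)
    rw [abs_of_nonneg hc0]
    exact mul_le_mul hc hN (norm_nonneg q) (hc0.trans hc)
  · exact hd_jg _ fun m hm => cf_mul_mono_lt q c K m (by omega)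

lemma hd_neg (v : E) : hd (-v) = hd v := by
  unfold hd
  refine Finset.sum_congr rfl fun k _ => ?_
  exact abs_neg _

lemma final_bound (Q : Matrix (Fin 36) (Fin 36) ℝ) (hA : ∀ y : E, ‖Aop hI ωI Q y‖ ≤ 5.25 * ‖y‖)
    (u a0 a1 a2 a3 a4 a5 a6 a7 : E) :
    ‖u - Aop hI ωI Q (u + a0 + a1 + a2 + a3 + a4 + a5 + a6 + a7)‖ ≤
      ‖a0‖ + ‖a1‖ + ‖a2‖ + ‖a3‖ + ‖a4‖ + ‖a5‖ + ‖a6‖ + ‖a7‖
      + 6.25 * (hd u + hd a0 + hd a1 + hd a2 + hd a3 + hd a4 + hd a5 + hd a6 + hd a7) := by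
  refine (Aop_le Q hA _ _).trans ?_
  have e : u - (u + a0 + a1 + a2 + a3 + a4 + a5 + a6 + a7)
      = -(a0 + a1 + a2 + a3 + a4 + a5 + a6 + a7) := by abel
  rw [e, norm_neg]
  have n1 := norm_add_le a0 a1
  have n2 := norm_add_le (a0 + a1) a2
  have n3 := norm_add_le (a0 + a1 + a2) a3
  have n4 := norm_add_le (a0 + a1 + a2 + a3) a4
  have n5 := norm_add_le (a0 + a1 + a2 + a3 + a4) a5
  have n6 := norm_add_le (a0 + a1 + a2 + a3 + a4 + a5) a6
  have n7 := norm_add_le (a0 + a1 + a2 + a3 + a4 + a5 + a6) a7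
  have m0 := hd_add u a0
  have m1 := hd_add (u + a0) a1
  have m2 := hd_add (u + a0 + a1) a2
  have m3 := hd_add (u + a0 + a1 + a2) a3
  have m4 := hd_add (u + a0 + a1 + a2 + a3) a4
  have m5 := hd_add (u + a0 + a1 + a2 + a3 + a4) a5
  have m6 := hd_add (u + a0 + a1 + a2 + a3 + a4 + a5) a6
  have m7 := hd_add (u + a0 + a1 + a2 + a3 + a4 + a5 + a6) a7
  linarith

/-- first integration coefficient -/
noncomputable def c1 (n : ℕ) : ℝ := 5/4 * 1 / ((n:ℝ) + 1)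
/-- second integration coefficient -/
noncomputable def c2 (n : ℕ) : ℝ := 5/4 * c1 n / (((n + 1 : ℕ):ℝ) + 1)

lemma c1_nonneg (n : ℕ) : 0 ≤ c1 n := by unfold c1; positivity
lemma c2_nonneg (n : ℕ) : 0 ≤ c2 n := by
  have := c1_nonneg n
  unfold c2; positivity

lemma c1_le (n : ℕ) (hn : 40 ≤ n) : c1 n ≤ 0.0305 := by
  unfold c1
  have h : (40 : ℝ) ≤ n := by exact_mod_cast hn
  rw [div_le_iff₀ (by positivity)]
  norm_num
  linarith

lemma c2_le (n : ℕ) (hn : 40 ≤ n) : c2 n ≤ 0.00091 := by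
  have h1 := c1_le n hn
  unfold c2
  have h : (40 : ℝ) ≤ n := by exact_mod_cast hn
  rw [div_le_iff₀ (by positivity)]
  push_cast
  norm_num at h1 ⊢
  nlinarith

lemma J_mono1 (n : ℕ) : J (mono 1 n) = mono (c1 n) (n + 1) := by
  rw [J_mono]; rfl

lemma JJ_mono1 (n : ℕ) : J (J (mono 1 n)) = mono (c2 n) (n + 2) := by
  rw [J_mono1, J_mono]; rfl

end Tail

open Tail in
/-- TASK P3: the tail columns. -/
theorem tail_columns (W : B) (x : E) (Q : Matrix (Fin 36) (Fin 36) ℝ)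
    (hA : ∀ y : E, ‖Aop hI ωI Q y‖ ≤ 5.25 * ‖y‖)
    (h0 : ‖4 * (W * ZZ x) - 1‖ ≤ 0.028)
    (h1 : ‖8 * (W * cZ1 x)‖ ≤ 2.78) (h2 : ‖8 * (W * cX1 x)‖ ≤ 2.02)
    (h3 : ‖4 * (W * cX2 x)‖ ≤ 0.072) (h4 : ‖4 * (W * cZ2 x)‖ ≤ 0.19)
    (hq1 : rho (q1 W x) ≤ 6.1) (hq2 : rho (q2 W x) ≤ 2.41) (hq3 : rho (q3 W x) ≤ 4.4)
    (hq4 : rho (q4 W x) ≤ 6.04) (hp2 : rho (p2 W x) ≤ 1.01) (hp4 : rho (p4 W x) ≤ 9.57)
    (nq1 : ‖q1 W x‖ ≤ 3.5) (nq2 : ‖q2 W x‖ ≤ 1.4) (nq3 : ‖q3 W x‖ ≤ 4.1)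
    (nq4 : ‖q4 W x‖ ≤ 3.5) (np2 : ‖p2 W x‖ ≤ 0.8) (np4 : ‖p4 W x‖ ≤ 5.5)
    (n : ℕ) (hn : 40 ≤ n) :
    ‖(bs (Sum.inr (Sum.inl n)) : E) - Aop hI ωI Q (DGm W x (bs (Sum.inr (Sum.inl n))))‖ ≤ 0.67 ∧
    ‖(bs (Sum.inr (Sum.inr n)) : E) - Aop hI ωI Q (DGm W x (bs (Sum.inr (Sum.inr n))))‖ ≤ 0.67 := by
  have hc1 := Tail.c1_nonneg n
  have hc2 := Tail.c2_nonneg n
  have hC1 := Tail.c1_le n hn
  have hC2 := Tail.c2_le n hn
  constructor
  · set u : E := bs (Sum.inr (Sum.inl n)) with hu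
    have eX2 : cX2 u = mono 1 n := pf_bs_f n
    have eZ2 : cZ2 u = 0 := pg_bs_f n
    have eX1 : cX1 u = mono (c1 n) (n + 1) := by
      rw [cX1_apply, hu, pf_bs_f, bs_apply, J_mono1]; simp
    have eZ1 : cZ1 u = 0 := by
      rw [cZ1_apply, hu, pg_bs_f, bs_apply]; simp
    have eX : cX u = mono (c2 n) (n + 2) := by
      rw [cX_apply, hu, pf_bs_f, bs_apply, bs_apply, JJ_mono1]; simp
    have eZ : cZ u = 0 := by
      rw [cZ_apply, hu, pg_bs_f, bs_apply]; simp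
    have eA : cA u = 0 := by
      rw [cA_apply, hu, bs_apply]; simp
    have eu : u = jf (mono 1 n) := by
      rw [hu]
      apply E_ext
      · intro i; rw [jf_s, bs_apply]; simp
      · apply B.ext; intro m; rw [pf_bs_f, cf_pf, jf_f]
      · apply B.ext; intro m; rw [pg_bs_f, cf_pg, jf_g]; rfl
    have ev : DGm W x u = u + jf ((4 * (W * ZZ x) - 1) * mono 1 n)
        + -jf (8 * (W * cZ1 x) * mono (c1 n) (n + 1))
        + pk1 (q1 W x * mono (c1 n) (n + 1)) + pk1 (q2 W x * mono (c2 n) (n + 2))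
        + jg (8 * (W * cX1 x) * mono (c1 n) (n + 1))
        + pk2 (q3 W x * mono (c1 n) (n + 1)) + pk2 (q4 W x * mono (c2 n) (n + 2)) + 0 := by
      rw [DGm_apply, dU1_apply, dU2_apply, dM1_apply, dM2_apply, eX2, eZ2, eX1, eZ1, eX, eZ, eA]
      have e1 : jf (4 * (W * ZZ x) * mono 1 n + 4 * (W * cX2 x) * 0
          - 8 * (W * cZ1 x) * mono (c1 n) (n + 1) - 8 * (W * cX1 x) * 0)
          = u + jf ((4 * (W * ZZ x) - 1) * mono 1 n)
            + -jf (8 * (W * cZ1 x) * mono (c1 n) (n + 1)) := by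
        rw [eu, ← map_neg, ← map_add, ← map_add]
        congr 1; ring
      have e2 : pk1 (q1 W x * mono (c1 n) (n + 1) + q2 W x * mono (c2 n) (n + 2) + p2 W x * 0
          - q3 W x * 0 + r1 W x * 0) = pk1 (q1 W x * mono (c1 n) (n + 1))
            + pk1 (q2 W x * mono (c2 n) (n + 2)) := by
        rw [← map_add]; congr 1; ring
      have e3 : jg (4 * (W * ZZ x) * 0 + 4 * (W * cZ2 x) * 0 - 8 * (W * cZ1 x) * 0
          + 8 * (W * cX1 x) * mono (c1 n) (n + 1)) = jg (8 * (W * cX1 x) * mono (c1 n) (n + 1)) := by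
        congr 1; ring
      have e4 : pk2 (q1 W x * 0 + p4 W x * 0 + q3 W x * mono (c1 n) (n + 1)
          + q4 W x * mono (c2 n) (n + 2) + r2 W x * 0) = pk2 (q3 W x * mono (c1 n) (n + 1))
            + pk2 (q4 W x * mono (c2 n) (n + 2)) := by
        rw [← map_add]; congr 1; ring
      rw [e1, e2, e3, e4]
      abel
    have t0 := jf_term (4 * (W * ZZ x) - 1) (zero_le_one) (le_refl (1:ℝ)) (K := n) (by omega) h0
    have t1 := jf_term (8 * (W * cZ1 x)) hc1 hC1 (K := n + 1) (by omega) h1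
    have t2 := pk1_term (q1 W x) hc1 hC1 (K := n + 1) (by omega) hq1 nq1
    have t3 := pk1_term (q2 W x) hc2 hC2 (K := n + 2) (by omega) hq2 nq2
    have t4 := jg_term (8 * (W * cX1 x)) hc1 hC1 (K := n + 1) (by omega) h2
    have t5 := pk2_term (q3 W x) hc1 hC1 (K := n + 1) (by omega) hq3 nq3
    have t6 := pk2_term (q4 W x) hc2 hC2 (K := n + 2) (by omega) hq4 nq4
    have hu0 : hd u = 0 := by
      rw [eu]
      refine hd_jf _ fun m hm => ?_
      rw [cf_mono, if_neg (by omega)]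
    have hz : hd (0 : E) = 0 := by
      have := hd_jf 0 (fun m _ => cf_zero m)
      rwa [map_zero] at this
    rw [ev]
    refine (final_bound Q hA _ _ _ _ _ _ _ _ _).trans ?_
    rw [norm_neg, hd_neg, hu0, hz, norm_zero, t0.2, t1.2, t4.2]
    have b0 := t0.1
    have b1 := t1.1
    have b2 := t2.1
    have b3 := t3.1
    have b4 := t4.1
    have b5 := t5.1
    have b6 := t6.1
    have d2 := t2.2
    have d3 := t3.2
    have d5 := t5.2
    have d6 := t6.2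
    norm_num at b0 b1 b2 b3 b4 b5 b6 d2 d3 d5 d6 ⊢
    linarith
  · set u : E := bs (Sum.inr (Sum.inr n)) with hu
    have eX2 : cX2 u = 0 := pf_bs_g n
    have eZ2 : cZ2 u = mono 1 n := pg_bs_g n
    have eX1 : cX1 u = 0 := by
      rw [cX1_apply, hu, pf_bs_g, bs_apply]; simp
    have eZ1 : cZ1 u = mono (c1 n) (n + 1) := by
      rw [cZ1_apply, hu, pg_bs_g, bs_apply, J_mono1]; simp
    have eX : cX u = 0 := by
      rw [cX_apply, hu, pf_bs_g, bs_apply, bs_apply]; simp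
    have eZ : cZ u = mono (c2 n) (n + 2) := by
      rw [cZ_apply, hu, pg_bs_g, bs_apply, JJ_mono1]; simp
    have eA : cA u = 0 := by
      rw [cA_apply, hu, bs_apply]; simp
    have eu : u = jg (mono 1 n) := by
      rw [hu]
      apply E_ext
      · intro i; rw [jg_s, bs_apply]; simp
      · apply B.ext; intro m; rw [pf_bs_g, cf_pf, jg_f]; rfl
      · apply B.ext; intro m; rw [pg_bs_g, cf_pg, jg_g]
    have ev : DGm W x u = u + jg ((4 * (W * ZZ x) - 1) * mono 1 n)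
        + jf (4 * (W * cX2 x) * mono (c2 n) (n + 2))
        + -jf (8 * (W * cX1 x) * mono (c1 n) (n + 1))
        + (pk1 (p2 W x * mono (c2 n) (n + 2)) + -pk1 (q3 W x * mono (c1 n) (n + 1)))
        + jg (4 * (W * cZ2 x) * mono (c2 n) (n + 2))
        + -jg (8 * (W * cZ1 x) * mono (c1 n) (n + 1))
        + pk2 (q1 W x * mono (c1 n) (n + 1)) + pk2 (p4 W x * mono (c2 n) (n + 2)) := by
      rw [DGm_apply, dU1_apply, dU2_apply, dM1_apply, dM2_apply, eX2, eZ2, eX1, eZ1, eX, eZ, eA]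
      have e1 : jg (4 * (W * ZZ x) * mono 1 n + 4 * (W * cZ2 x) * mono (c2 n) (n + 2)
          - 8 * (W * cZ1 x) * mono (c1 n) (n + 1) + 8 * (W * cX1 x) * 0)
          = u + jg ((4 * (W * ZZ x) - 1) * mono 1 n)
            + jg (4 * (W * cZ2 x) * mono (c2 n) (n + 2))
            + -jg (8 * (W * cZ1 x) * mono (c1 n) (n + 1)) := by
        rw [eu, ← map_neg, ← map_add, ← map_add, ← map_add]
        congr 1; ring
      have e2 : pk1 (q1 W x * 0 + q2 W x * 0 + p2 W x * mono (c2 n) (n + 2)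
          - q3 W x * mono (c1 n) (n + 1) + r1 W x * 0) = pk1 (p2 W x * mono (c2 n) (n + 2))
            + -pk1 (q3 W x * mono (c1 n) (n + 1)) := by
        rw [← map_neg, ← map_add]; congr 1; ring
      have e3 : jf (4 * (W * ZZ x) * 0 + 4 * (W * cX2 x) * mono (c2 n) (n + 2) - 8 * (W * cZ1 x) * 0
          - 8 * (W * cX1 x) * mono (c1 n) (n + 1)) = jf (4 * (W * cX2 x) * mono (c2 n) (n + 2))
          + -jf (8 * (W * cX1 x) * mono (c1 n) (n + 1)) := by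
        rw [← map_neg, ← map_add]; congr 1; ring
      have e4 : pk2 (q1 W x * mono (c1 n) (n + 1) + p4 W x * mono (c2 n) (n + 2) + q3 W x * 0
          + q4 W x * 0 + r2 W x * 0) = pk2 (q1 W x * mono (c1 n) (n + 1))
            + pk2 (p4 W x * mono (c2 n) (n + 2)) := by
        rw [← map_add]; congr 1; ring
      rw [e1, e2, e3, e4]
      abel
    have t0 := jg_term (4 * (W * ZZ x) - 1) (zero_le_one) (le_refl (1:ℝ)) (K := n) (by omega) h0
    have t1 := jf_term (4 * (W * cX2 x)) hc2 hC2 (K := n + 2) (by omega) h3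
    have t2 := jf_term (8 * (W * cX1 x)) hc1 hC1 (K := n + 1) (by omega) h2
    have t3 := pk1_term (p2 W x) hc2 hC2 (K := n + 2) (by omega) hp2 np2
    have t4 := pk1_term (q3 W x) hc1 hC1 (K := n + 1) (by omega) hq3 nq3
    have t5 := jg_term (4 * (W * cZ2 x)) hc2 hC2 (K := n + 2) (by omega) h4
    have t6 := jg_term (8 * (W * cZ1 x)) hc1 hC1 (K := n + 1) (by omega) h1
    have t7 := pk2_term (q1 W x) hc1 hC1 (K := n + 1) (by omega) hq1 nq1
    have t8 := pk2_term (p4 W x) hc2 hC2 (K := n + 2) (by omega) hp4 np4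
    have hu0 : hd u = 0 := by
      rw [eu]
      refine hd_jg _ fun m hm => ?_
      rw [cf_mono, if_neg (by omega)]
    rw [ev]
    refine (final_bound Q hA _ _ _ _ _ _ _ _ _).trans ?_
    have s1 := norm_add_le (pk1 (p2 W x * mono (c2 n) (n + 2))) (-pk1 (q3 W x * mono (c1 n) (n + 1)))
    have s2 := hd_add (pk1 (p2 W x * mono (c2 n) (n + 2))) (-pk1 (q3 W x * mono (c1 n) (n + 1)))
    rw [norm_neg] at s1
    rw [hd_neg] at s2
    rw [norm_neg, norm_neg, hd_neg, hd_neg, hu0, t0.2, t1.2, t2.2, t5.2, t6.2]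
    have b0 := t0.1
    have b1 := t1.1
    have b2 := t2.1
    have b3 := t3.1
    have b4 := t4.1
    have b5 := t5.1
    have b6 := t6.1
    have b7 := t7.1
    have b8 := t8.1
    have d3 := t3.2
    have d4 := t4.2
    have d7 := t7.2
    have d8 := t8.2
    norm_num at b0 b1 b2 b3 b4 b5 b6 b7 b8 d3 d4 d7 d8 ⊢
    linarith

end Pool.Agent.H733R2
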