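import Pool.Agent.H733R2.Cols
import Pool.Agent.H733R2.Tail

set_option autoImplicit false

open Finset

namespace Pool.Agent.H733R2

lemma R_cast_smul (c : ℝ) (f : B) : c • f = algebraMap ℝ B c * f := Algebra.smul_def c f

/-- coefficient cast helper -/
lemma alg_nat (n : ℕ) : algebraMap ℝ B (n : ℝ) = (n : B) := by simp

lemma colbound (δ : E) (u v : VZ) (D : ℝ) (hD : 0 < D) (hu : toE u = D • δ)
    (hv : toE v = D • DGm Wb xbar δ) (num den : ℕ) (hden : 0 < den)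
    (h : chkN (resV u v) num den = true) :
    ‖δ - Aop hI ωI QM (DGm Wb xbar δ)‖ ≤ num / den / (4096 * D) := by
  have h1 := norm_chkN h hden
  have h2 : toE (resV u v) = (4096 * D) • (δ - Aop hI ωI QM (DGm Wb xbar δ)) := by
    have h3 := A_toE v
    have h4 : toE (appA v) = (4096 : ℝ) • Aop hI ωI QM (toE v) := by
      rw [h3, smul_smul]; norm_num
    simp only [resV, toE_add, toE_smul]
    rw [h4, hv, hu, map_smul]
    push_cast
    module
  rw [h2, norm_smul, Real.norm_eq_abs, abs_of_pos (by positivity)] at h1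
  rw [le_div_iff₀ (by positivity)]
  linarith

lemma toE_packV' (U1 M1 U2 M2 : List ℤ) (D : ℝ) (δ : E) (h1 : ofL U1 = D • dU1 Wb xbar δ)
    (h2 : ofL M1 = D • dM1 Wb xbar δ) (h3 : ofL U2 = D • dU2 Wb xbar δ)
    (h4 : ofL M2 = D • dM2 Wb xbar δ) :
    toE (packV U1 M1 U2 M2) = D • DGm Wb xbar δ := by
  rw [toE_packV, DGm_apply, h1, h2, h3, h4]
  simp only [map_smul, smul_add]

lemma jf_pf (f : B) : pf (jf f) = f := by
  apply B.ext; intro n; rw [cf_pf, jf_f]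
lemma jf_pg (f : B) : pg (jf f) = 0 := by
  apply B.ext; intro n; rw [cf_pg, jf_g]; rfl
lemma jg_pg (f : B) : pg (jg f) = f := by
  apply B.ext; intro n; rw [cf_pg, jg_g]
lemma jg_pf (f : B) : pf (jg f) = 0 := by
  apply B.ext; intro n; rw [cf_pf, jg_f]; rfl

lemma wv_pow (n : ℕ) : wv ^ n = mono ((5/4) ^ n) n := by
  have := wv_pow_const n 1
  rw [map_one, mul_one, mul_one] at this
  exact this

lemma jf_mono (c : ℝ) (n : ℕ) : jf (mono c n) = c • (bs (Sum.inr (Sum.inl n)) : E) := by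
  apply E_ext
  · intro i
    rw [jf_s]
    change 0 = c * ((bs (Sum.inr (Sum.inl n)) : E) (Sum.inl i))
    rw [bs_apply]; simp
  · rw [jf_pf, map_smul, pf_bs_f]
    apply B.ext; intro k; simp
  · rw [jf_pg, map_smul, pg_bs_f, smul_zero]

lemma jg_mono (c : ℝ) (n : ℕ) : jg (mono c n) = c • (bs (Sum.inr (Sum.inr n)) : E) := by
  apply E_ext
  · intro i
    rw [jg_s]
    change 0 = c * ((bs (Sum.inr (Sum.inr n)) : E) (Sum.inl i))
    rw [bs_apply]; simp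
  · rw [jg_pf, map_smul, pf_bs_g, smul_zero]
  · rw [jg_pg, map_smul, pg_bs_g]
    apply B.ext; intro k; simp

lemma toE_uF (c : ℤ) (n : ℕ) : toE (uF c n) = (c : ℝ) • jf (wv ^ n) := by
  have h : ofL (shiftL n [c]) = (c : ℝ) • wv ^ n := by
    rw [ofL_shift, ofL_cons, ofL_nil, mul_zero, add_zero, Algebra.smul_def, mul_comm]
  simp [toE, uF, h, ofL_nil]

lemma toE_uG (c : ℤ) (n : ℕ) : toE (uG c n) = (c : ℝ) • jg (wv ^ n) := by
  have h : ofL (shiftL n [c]) = (c : ℝ) • wv ^ n := by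
    rw [ofL_shift, ofL_cons, ofL_nil, mul_zero, add_zero, Algebra.smul_def, mul_comm]
  simp [toE, uG, h, ofL_nil]

lemma J1_eq (n : ℕ) : ((n + 1 : ℕ) : B) * J (wv ^ n) = wv ^ (n + 1) := by
  rw [wv_pow, J_mono, wv_pow, ← alg_nat, ← Algebra.smul_def]
  apply B.ext; intro k
  simp only [cf_smul, cf_mono]
  split_ifs
  · push_cast
    have : ((n : ℝ) + 1) ≠ 0 := by positivity
    field_simp
    ring
  · simp

lemma J2_eq (n : ℕ) : (((n + 1) * (n + 2) : ℕ) : B) * J (J (wv ^ n)) = wv ^ (n + 2) := by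
  have h1 : ((n + 1 : ℕ) : B) * J (J (wv ^ n)) = J (wv ^ (n + 1)) := by
    rw [← J1_eq, ← alg_nat, ← Algebra.smul_def, ← Algebra.smul_def, map_smul]
  have h2 := J1_eq (n + 1)
  rw [← h1] at h2
  rw [← h2]
  push_cast
  ring

lemma colF_eq (n : ℕ) : toE (colF n)
    = ((2 : ℝ) ^ 124 * (((n + 1) * (n + 2) : ℕ) : ℝ)) • DGm Wb xbar (jf (wv ^ n)) := by
  have hJ1 := J1_eq n
  have hJ2 := J2_eq n
  have e2 : cX2 (jf (wv ^ n)) = wv ^ n := jf_pf _
  have e1 : cX1 (jf (wv ^ n)) = J (wv ^ n) := by rw [cX1_apply, jf_s, jf_pf]; simp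
  have e0 : cX (jf (wv ^ n)) = J (J (wv ^ n)) := by rw [cX_apply, jf_s, jf_s, jf_pf]; simp
  have f2 : cZ2 (jf (wv ^ n)) = 0 := jf_pg _
  have f1 : cZ1 (jf (wv ^ n)) = 0 := by rw [cZ1_apply, jf_s, jf_pg]; simp
  have f0 : cZ (jf (wv ^ n)) = 0 := by rw [cZ_apply, jf_s, jf_pg]; simp
  have g0 : cA (jf (wv ^ n)) = 0 := by rw [cA_apply, jf_s]; simp
  have hc : algebraMap ℝ B ((2 : ℝ) ^ 124 * (((n + 1) * (n + 2) : ℕ) : ℝ))
      = (2 : B) ^ 124 * (((n + 1) * (n + 2) : ℕ) : B) := by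
    rw [map_mul, map_pow, map_ofNat, alg_nat]
  apply toE_packV'
  · rw [R_cast_smul, hc, dU1_apply, e2, e1, f1, f0, ofL_add, ofL_smul', ofL_smul', ofL_shift,
      ofL_shift, hb1, hb2]
    push_cast at hJ1 hJ2 ⊢
    linear_combination (-(2^124 * (8 * (Wb * cZ1 xbar)) * ((n:B) + 2))) * hJ1.symm
  · rw [R_cast_smul, hc, dM1_apply, e1, e0, f1, f0, g0, ofL_add, ofL_smul', ofL_shift,
      ofL_shift, hq1, hq2]
    push_cast at hJ1 hJ2 ⊢
    linear_combination (2^124 * q1 Wb xbar * ((n:B) + 2)) * hJ1.symm + (2^124 * q2 Wb xbar) * hJ2.symm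
  · rw [R_cast_smul, hc, dU2_apply, e1, f2, f1, f0, ofL_smul', ofL_shift, hb3]
    push_cast at hJ1 hJ2 ⊢
    linear_combination (2^124 * (8 * (Wb * cX1 xbar)) * ((n:B) + 2)) * hJ1.symm
  · rw [R_cast_smul, hc, dM2_apply, e1, e0, f1, f0, g0, ofL_add, ofL_smul', ofL_shift,
      ofL_shift, hq3, hq4]
    push_cast at hJ1 hJ2 ⊢
    linear_combination (2^124 * q3 Wb xbar * ((n:B) + 2)) * hJ1.symm + (2^124 * q4 Wb xbar) * hJ2.symm

lemma colG_eq (n : ℕ) : toE (colG n)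
    = ((2 : ℝ) ^ 124 * (((n + 1) * (n + 2) : ℕ) : ℝ)) • DGm Wb xbar (jg (wv ^ n)) := by
  have hJ1 := J1_eq n
  have hJ2 := J2_eq n
  have e2 : cZ2 (jg (wv ^ n)) = wv ^ n := jg_pg _
  have e1 : cZ1 (jg (wv ^ n)) = J (wv ^ n) := by rw [cZ1_apply, jg_s, jg_pg]; simp
  have e0 : cZ (jg (wv ^ n)) = J (J (wv ^ n)) := by rw [cZ_apply, jg_s, jg_pg]; simp
  have f2 : cX2 (jg (wv ^ n)) = 0 := jg_pf _
  have f1 : cX1 (jg (wv ^ n)) = 0 := by rw [cX1_apply, jg_s, jg_pf]; simp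
  have f0 : cX (jg (wv ^ n)) = 0 := by rw [cX_apply, jg_s, jg_s, jg_pf]; simp
  have g0 : cA (jg (wv ^ n)) = 0 := by rw [cA_apply, jg_s]; simp
  have hc : algebraMap ℝ B ((2 : ℝ) ^ 124 * (((n + 1) * (n + 2) : ℕ) : ℝ))
      = (2 : B) ^ 124 * (((n + 1) * (n + 2) : ℕ) : B) := by
    rw [map_mul, map_pow, map_ofNat, alg_nat]
  apply toE_packV'
  · rw [R_cast_smul, hc, dU1_apply, f2, f1, e1, e0, ofL_add, ofL_smul', ofL_shift,
      ofL_shift, hb4, hb3]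
    push_cast at hJ1 hJ2 ⊢
    linear_combination (2^124 * (4 * (Wb * cX2 xbar))) * hJ2.symm
      + (-(2^124 * (8 * (Wb * cX1 xbar)) * ((n:B) + 2))) * hJ1.symm
  · rw [R_cast_smul, hc, dM1_apply, e1, e0, f1, f0, g0, ofL_add, ofL_smul', ofL_shift,
      ofL_shift, hp2, hq3]
    push_cast at hJ1 hJ2 ⊢
    linear_combination (2^124 * p2 Wb xbar) * hJ2.symm
      + (-(2^124 * q3 Wb xbar * ((n:B) + 2))) * hJ1.symm
  · rw [R_cast_smul, hc, dU2_apply, f1, e2, e1, e0, ofL_add, ofL_add, ofL_smul', ofL_smul', ofL_shift,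
      ofL_shift, ofL_shift, hb1, hb2, hb5]
    push_cast at hJ1 hJ2 ⊢
    linear_combination (2^124 * (4 * (Wb * cZ2 xbar))) * hJ2.symm
      + (-(2^124 * (8 * (Wb * cZ1 xbar)) * ((n:B) + 2))) * hJ1.symm
  · rw [R_cast_smul, hc, dM2_apply, e1, e0, f1, f0, g0, ofL_add, ofL_smul', ofL_shift,
      ofL_shift, hq1, hp4]
    push_cast at hJ1 hJ2 ⊢
    linear_combination (2^124 * q1 Wb xbar * ((n:B) + 2)) * hJ1.symm + (2^124 * p4 Wb xbar) * hJ2.symm

end Pool.Agent.H733R2
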