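import Pool.Agent.H733R2.Fin

set_option autoImplicit false

open Finset

namespace Pool.Agent.H733R2

lemma alg_two_pow (n : ℕ) : algebraMap ℝ B ((2:ℝ)^n) = (2:B)^n := by rw [map_pow, map_ofNat]

lemma toE_u0 (c : ℤ) : toE (u0 c) = (c : ℝ) • (bs (Sum.inl 0) : E) := by
  simp [toE, u0, ofL_nil]
lemma toE_u1 (c : ℤ) : toE (u1 c) = (c : ℝ) • (bs (Sum.inl 1) : E) := by
  simp [toE, u1, ofL_nil]
lemma toE_u2 (c : ℤ) : toE (u2 c) = (c : ℝ) • (bs (Sum.inl 2) : E) := by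
  simp [toE, u2, ofL_nil]
lemma toE_u3 (c : ℤ) : toE (u3 c) = (c : ℝ) • (bs (Sum.inl 3) : E) := by
  simp [toE, u3, ofL_nil]

lemma col0_eq : toE col0 = ((2:ℝ)^134) • DGm Wb xbar (bs (Sum.inl 0)) := by
  have e2 : cX2 (bs (Sum.inl 0)) = 0 := pf_bs_s 0
  have e1 : cX1 (bs (Sum.inl 0)) = 0 := by rw [cX1_apply, pf_bs_s, bs_apply]; simp
  have e0 : cX (bs (Sum.inl 0)) = 0 := by rw [cX_apply, pf_bs_s, bs_apply, bs_apply]; simp
  have f2 : cZ2 (bs (Sum.inl 0)) = 0 := pg_bs_s 0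
  have f1 : cZ1 (bs (Sum.inl 0)) = 0 := by rw [cZ1_apply, pg_bs_s, bs_apply]; simp
  have f0 : cZ (bs (Sum.inl 0)) = 0 := by rw [cZ_apply, pg_bs_s, bs_apply]; simp
  have g0 : cA (bs (Sum.inl 0)) = 1 := by rw [cA_apply, bs_apply]; simp
  apply toE_packV'
  · rw [R_cast_smul, alg_two_pow, dU1_apply, e2, e1, f1, f0, ofL_nil]; ring
  · rw [R_cast_smul, alg_two_pow, dM1_apply, e1, e0, f1, f0, g0, hr1]; ring
  · rw [R_cast_smul, alg_two_pow, dU2_apply, e1, f2, f1, f0, ofL_nil]; ring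
  · rw [R_cast_smul, alg_two_pow, dM2_apply, e1, e0, f1, f0, g0, hr2]; ring

lemma col1_eq : toE col1 = ((2:ℝ)^124) • DGm Wb xbar (bs (Sum.inl 1)) := by
  have e2 : cX2 (bs (Sum.inl 1)) = 0 := pf_bs_s 1
  have e1 : cX1 (bs (Sum.inl 1)) = 0 := by rw [cX1_apply, pf_bs_s, bs_apply]; simp
  have e0 : cX (bs (Sum.inl 1)) = 1 := by rw [cX_apply, pf_bs_s, bs_apply, bs_apply]; simp
  have f2 : cZ2 (bs (Sum.inl 1)) = 0 := pg_bs_s 1
  have f1 : cZ1 (bs (Sum.inl 1)) = 0 := by rw [cZ1_apply, pg_bs_s, bs_apply]; simp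
  have f0 : cZ (bs (Sum.inl 1)) = 0 := by rw [cZ_apply, pg_bs_s, bs_apply]; simp
  have g0 : cA (bs (Sum.inl 1)) = 0 := by rw [cA_apply, bs_apply]; simp
  apply toE_packV'
  · rw [R_cast_smul, alg_two_pow, dU1_apply, e2, e1, f1, f0, ofL_nil]; ring
  · rw [R_cast_smul, alg_two_pow, dM1_apply, e1, e0, f1, f0, g0, hq2]; ring
  · rw [R_cast_smul, alg_two_pow, dU2_apply, e1, f2, f1, f0, ofL_nil]; ring
  · rw [R_cast_smul, alg_two_pow, dM2_apply, e1, e0, f1, f0, g0, hq4]; ring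

lemma col2_eq : toE col2 = ((2:ℝ)^124) • DGm Wb xbar (bs (Sum.inl 2)) := by
  have e2 : cX2 (bs (Sum.inl 2)) = 0 := pf_bs_s 2
  have e1 : cX1 (bs (Sum.inl 2)) = 1 := by rw [cX1_apply, pf_bs_s, bs_apply]; simp
  have e0 : cX (bs (Sum.inl 2)) = wv := by rw [cX_apply, pf_bs_s, bs_apply, bs_apply]; simp
  have f2 : cZ2 (bs (Sum.inl 2)) = 0 := pg_bs_s 2
  have f1 : cZ1 (bs (Sum.inl 2)) = 0 := by rw [cZ1_apply, pg_bs_s, bs_apply]; simp
  have f0 : cZ (bs (Sum.inl 2)) = 0 := by rw [cZ_apply, pg_bs_s, bs_apply]; simp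
  have g0 : cA (bs (Sum.inl 2)) = 0 := by rw [cA_apply, bs_apply]; simp
  apply toE_packV'
  · rw [R_cast_smul, alg_two_pow, dU1_apply, e2, e1, f1, f0, ofL_smul', hb2]; push_cast; ring
  · rw [R_cast_smul, alg_two_pow, dM1_apply, e1, e0, f1, f0, g0, ofL_add, ofL_shift, hq1, hq2]; ring
  · rw [R_cast_smul, alg_two_pow, dU2_apply, e1, f2, f1, f0, hb3]; ring
  · rw [R_cast_smul, alg_two_pow, dM2_apply, e1, e0, f1, f0, g0, ofL_add, ofL_shift, hq3, hq4]; ring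

lemma col3_eq : toE col3 = ((2:ℝ)^124) • DGm Wb xbar (bs (Sum.inl 3)) := by
  have e2 : cX2 (bs (Sum.inl 3)) = 0 := pf_bs_s 3
  have e1 : cX1 (bs (Sum.inl 3)) = 0 := by rw [cX1_apply, pf_bs_s, bs_apply]; simp
  have e0 : cX (bs (Sum.inl 3)) = 0 := by rw [cX_apply, pf_bs_s, bs_apply, bs_apply]; simp
  have f2 : cZ2 (bs (Sum.inl 3)) = 0 := pg_bs_s 3
  have f1 : cZ1 (bs (Sum.inl 3)) = 1 := by rw [cZ1_apply, pg_bs_s, bs_apply]; simp
  have f0 : cZ (bs (Sum.inl 3)) = wv := by rw [cZ_apply, pg_bs_s, bs_apply]; simp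
  have g0 : cA (bs (Sum.inl 3)) = 0 := by rw [cA_apply, bs_apply]; simp
  apply toE_packV'
  · rw [R_cast_smul, alg_two_pow, dU1_apply, e2, e1, f1, f0, ofL_add, ofL_smul', ofL_shift, hb3, hb4]
    push_cast; ring
  · rw [R_cast_smul, alg_two_pow, dM1_apply, e1, e0, f1, f0, g0, ofL_add, ofL_smul', ofL_shift, hp2, hq3]
    push_cast; ring
  · rw [R_cast_smul, alg_two_pow, dU2_apply, e1, f2, f1, f0, ofL_add, ofL_smul', ofL_shift, hb2, hb5]
    push_cast; ring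
  · rw [R_cast_smul, alg_two_pow, dM2_apply, e1, e0, f1, f0, g0, ofL_add, ofL_shift, hq1, hp4]; ring

lemma resG_eq : toE resG = ((2:ℝ)^168) • Gm Wb xbar := by
  unfold resG
  rw [toE_packV, hRU1, hRM1, hRU2, hRM2, Gm]
  have h : ∀ f : B, (2:B)^168 * f = ((2:ℝ)^168) • f := by
    intro f; rw [R_cast_smul, alg_two_pow]
  rw [h, h, h, h]
  simp only [map_smul, smul_add]

lemma scalar_aux (δ : E) (u v : VZ) (m : ℕ) (hu : toE u = ((2:ℝ)^m) • δ)
    (hv : toE v = ((2:ℝ)^m) • DGm Wb xbar δ)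
    (h : chkN (resV u v) (68*(4096*2^m)) 100 = true) :
    ‖δ - Aop hI ωI QM (DGm Wb xbar δ)‖ ≤ 0.68 := by
  have h1 := colbound δ u v (2^m) (by positivity) hu hv _ 100 (by norm_num) h
  refine h1.trans (le_of_eq ?_)
  push_cast
  have : (2:ℝ)^m ≠ 0 := by positivity
  field_simp
  norm_num

lemma bs_f (n : ℕ) : (bs (Sum.inr (Sum.inl n)) : E) = ((5/4 : ℝ)^n)⁻¹ • jf (wv ^ n) := by
  rw [wv_pow, jf_mono, smul_smul, inv_mul_cancel₀ (by positivity), one_smul]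
lemma bs_g (n : ℕ) : (bs (Sum.inr (Sum.inr n)) : E) = ((5/4 : ℝ)^n)⁻¹ • jg (wv ^ n) := by
  rw [wv_pow, jg_mono, smul_smul, inv_mul_cancel₀ (by positivity), one_smul]

lemma fcol (n : ℕ) (hn : n < 40) :
    ‖(bs (Sum.inr (Sum.inl n)) : E) - Aop hI ωI QM (DGm Wb xbar (bs (Sum.inr (Sum.inl n))))‖ ≤ 0.68 := by
  have h := allB_spec kF n hn
  have h1 := colbound (jf (wv ^ n)) _ _ ((2:ℝ)^124 * (((n + 1) * (n + 2) : ℕ) : ℝ)) (by positivity)
    (by rw [toE_uF]; congr 1; push_cast; ring) (colF_eq n) _ _ (by positivity) h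
  rw [bs_f, map_smul, map_smul, ← smul_sub, norm_smul, norm_inv, norm_pow, Real.norm_eq_abs,
    abs_of_pos (by norm_num : (0:ℝ) < 5/4)]
  rw [inv_mul_le_iff₀ (by positivity)]
  refine h1.trans (le_of_eq ?_)
  push_cast
  have : ((n:ℝ) + 1) ≠ 0 := by positivity
  have : ((n:ℝ) + 2) ≠ 0 := by positivity
  rw [div_pow]
  field_simp
  norm_num

lemma gcol (n : ℕ) (hn : n < 40) :
    ‖(bs (Sum.inr (Sum.inr n)) : E) - Aop hI ωI QM (DGm Wb xbar (bs (Sum.inr (Sum.inr n))))‖ ≤ 0.68 := by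
  have h := allB_spec kG n hn
  have h1 := colbound (jg (wv ^ n)) _ _ ((2:ℝ)^124 * (((n + 1) * (n + 2) : ℕ) : ℝ)) (by positivity)
    (by rw [toE_uG]; congr 1; push_cast; ring) (colG_eq n) _ _ (by positivity) h
  rw [bs_g, map_smul, map_smul, ← smul_sub, norm_smul, norm_inv, norm_pow, Real.norm_eq_abs,
    abs_of_pos (by norm_num : (0:ℝ) < 5/4)]
  rw [inv_mul_le_iff₀ (by positivity)]
  refine h1.trans (le_of_eq ?_)
  push_cast
  have : ((n:ℝ) + 1) ≠ 0 := by positivity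
  have : ((n:ℝ) + 2) ≠ 0 := by positivity
  rw [div_pow]
  field_simp
  norm_num

/-! ### the norm of the approximate inverse -/

lemma Aop_off (i : Idx) (hi : ∀ k, hI k ≠ i) : Aop hI ωI QM (bs i) = bs i := by
  have h : Phi hI ωI (bs i) = 0 := by
    funext k
    rw [Phi_apply, bs_apply, if_neg (hi k), mul_zero]
    rfl
  rw [Aop_apply, h]
  simp

lemma A_aux (u : VZ) (δ : E) (hu : toE u = δ) (num den : ℕ) (hden : 0 < den)
    (h : chkN (appA u) num den = true) : ‖Aop hI ωI QM δ‖ ≤ num / den / 4096 := by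
  have h1 := norm_chkN h hden
  rw [← hu, A_toE, norm_smul, Real.norm_eq_abs, abs_of_pos (by norm_num)]
  linarith

lemma Afcol (n : ℕ) : ‖Aop hI ωI QM (bs (Sum.inr (Sum.inl n)))‖ ≤ 5.25 := by
  by_cases hn : n < 16
  · have h := allB_spec kAF n hn
    have h1 := A_aux _ (jf (wv ^ n)) (by rw [toE_uF]; simp) _ _ (by positivity) h
    rw [bs_f, map_smul, norm_smul, norm_inv, norm_pow, Real.norm_eq_abs,
      abs_of_pos (by norm_num : (0:ℝ) < 5/4)]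
    rw [inv_mul_le_iff₀ (by positivity)]
    refine h1.trans (le_of_eq ?_)
    push_cast
    rw [div_pow]
    field_simp
    norm_num
  · rw [Aop_off, bs_norm]
    · norm_num
    · intro k hk
      unfold hI at hk
      split_ifs at hk with h1 h2
      · simp only [Sum.inr.injEq, Sum.inl.injEq] at hk
        omega
      · simp at hk

lemma Agcol (n : ℕ) : ‖Aop hI ωI QM (bs (Sum.inr (Sum.inr n)))‖ ≤ 5.25 := by
  by_cases hn : n < 16
  · have h := allB_spec kAG n hn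
    have h1 := A_aux _ (jg (wv ^ n)) (by rw [toE_uG]; simp) _ _ (by positivity) h
    rw [bs_g, map_smul, norm_smul, norm_inv, norm_pow, Real.norm_eq_abs,
      abs_of_pos (by norm_num : (0:ℝ) < 5/4)]
    rw [inv_mul_le_iff₀ (by positivity)]
    refine h1.trans (le_of_eq ?_)
    push_cast
    rw [div_pow]
    field_simp
    norm_num
  · rw [Aop_off, bs_norm]
    · norm_num
    · intro k hk
      unfold hI at hk
      split_ifs at hk with h1 h2
      · simp at hk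
      · simp only [Sum.inr.injEq] at hk
        have := k.2
        omega

lemma Ascol (i : Fin 4) : ‖Aop hI ωI QM (bs (Sum.inl i))‖ ≤ 5.25 := by
  have e : ((525*4096 : ℕ) : ℝ) / (100 : ℕ) / 4096 = 5.25 := by norm_num
  fin_cases i
  · exact (A_aux _ _ (by rw [toE_u0]; simp) _ 100 (by norm_num) kA0).trans e.le
  · exact (A_aux _ _ (by rw [toE_u1]; simp) _ 100 (by norm_num) kA1).trans e.le
  · exact (A_aux _ _ (by rw [toE_u2]; simp) _ 100 (by norm_num) kA2).trans e.le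
  · exact (A_aux _ _ (by rw [toE_u3]; simp) _ 100 (by norm_num) kA3).trans e.le

lemma Aop_bound (y : E) : ‖Aop hI ωI QM y‖ ≤ 5.25 * ‖y‖ := by
  apply norm_le_of_columns
  rintro (i | n | n)
  · exact Ascol i
  · exact Afcol n
  · exact Agcol n

/-! ### sizes -/

lemma norm_of_scaled (f g : B) (m : ℕ) (hfg : f = 2 ^ m * g) (c : ℝ) (h : ‖f‖ ≤ c * 2 ^ m) :
    ‖g‖ ≤ c := by
  have h1 : f = ((2:ℝ)^m) • g := by rw [hfg, R_cast_smul, alg_two_pow]
  rw [h1, norm_smul, norm_pow, Real.norm_ofNat] at h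
  have : (0:ℝ) < 2 ^ m := by positivity
  nlinarith

lemma rho_smul (c : ℝ) (f : B) : rho (c • f) = |c| * rho f := by
  unfold rho
  rw [map_smul, map_smul, norm_smul, cf_smul, cf_smul, Real.norm_eq_abs]
  rw [abs_mul, show (4/5 : ℝ) * (c * cf (Gs f) 1) = c * (4/5 * cf (Gs f) 1) by ring, abs_mul c]
  ring

lemma rho_of_scaled (f g : B) (m : ℕ) (hfg : f = 2 ^ m * g) (c : ℝ) (h : rho f ≤ c * 2 ^ m) :
    rho g ≤ c := by
  have h1 : f = ((2:ℝ)^m) • g := by rw [hfg, R_cast_smul, alg_two_pow]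
  rw [h1, rho_smul, abs_of_pos (by positivity)] at h
  have : (0:ℝ) < 2 ^ m := by positivity
  nlinarith

lemma sz {l : List ℤ} {g : B} {m : ℕ} (e : ofL l = 2 ^ m * g) (num den : ℕ) (c : ℝ)
    (h : chkL l num den = true) (hden : 0 < den) (hc : (num : ℝ) / den ≤ c * 2 ^ m) : ‖g‖ ≤ c :=
  norm_of_scaled _ _ m e c ((norm_chkL h hden).trans hc)

lemma rz {l : List ℤ} {g : B} {m : ℕ} (e : ofL l = 2 ^ m * g) (num den : ℕ) (c : ℝ)
    (h : chkR l num den = true) (hden : 0 < den) (hc : (num : ℝ) / den ≤ c * 2 ^ m) : rho g ≤ c :=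
  rho_of_scaled _ _ m e c ((chkR_spec h hden).trans hc)

lemma s_b1 : ‖4 * (Wb * ZZ xbar) - 1‖ ≤ 0.028 := by
  refine sz (l := addL b1L [-2^124]) (m := 124) ?_ _ _ _ kb1 (by norm_num) (by norm_num)
  rw [ofL_add, hb1, ofL_cons, ofL_nil, algMap_int]
  push_cast; ring
lemma s_b2 : ‖8 * (Wb * cZ1 xbar)‖ ≤ 2.78 := sz hb2 _ _ _ kb2 (by norm_num) (by norm_num)
lemma s_b3 : ‖8 * (Wb * cX1 xbar)‖ ≤ 2.02 := sz hb3 _ _ _ kb3 (by norm_num) (by norm_num)
lemma s_b4 : ‖4 * (Wb * cX2 xbar)‖ ≤ 0.072 := sz hb4 _ _ _ kb4 (by norm_num) (by norm_num)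
lemma s_b5 : ‖4 * (Wb * cZ2 xbar)‖ ≤ 0.19 := sz hb5 _ _ _ kb5 (by norm_num) (by norm_num)
lemma s_X : ‖cX xbar‖ ≤ 1.406 := sz hX _ _ _ kX (by norm_num) (by norm_num)
lemma s_Z : ‖ZZ xbar‖ ≤ 1.623 := sz hZ _ _ _ kZ (by norm_num) (by norm_num)
lemma s_X1 : ‖cX1 xbar‖ ≤ 0.387 := sz hX1 _ _ _ kX1 (by norm_num) (by norm_num)
lemma s_Z1 : ‖cZ1 xbar‖ ≤ 0.532 := sz hZ1 _ _ _ kZ1 (by norm_num) (by norm_num)
lemma s_X2 : ‖cX2 xbar‖ ≤ 0.028 := sz hX2 _ _ _ kX2 (by norm_num) (by norm_num)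
lemma s_Z2 : ‖cZ2 xbar‖ ≤ 0.07 := sz hZ2 _ _ _ kZ2 (by norm_num) (by norm_num)
lemma s_W : ‖Wb‖ ≤ 0.652 := sz hW _ _ _ kW (by norm_num) (by norm_num)
lemma s_Zm : ‖cZ xbar‖ ≤ 0.63 := by
  refine sz (l := addL ZI [-2^44]) (m := 44) ?_ _ _ _ kZm (by norm_num) (by norm_num)
  rw [ofL_add, hZ, ofL_cons, ofL_nil, algMap_int, ZZ]
  push_cast; ring

/-- all columns -/
lemma contraction (δ : E) : ‖δ - Aop hI ωI QM (DGm Wb xbar δ)‖ ≤ 0.68 * ‖δ‖ := by
  have h := norm_le_of_columns ((1 : E →L[ℝ] E) - (Aop hI ωI QM) ∘L (DGm Wb xbar)) 0.68 ?_ δ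
  · exact h
  · have tail := tail_columns Wb xbar QM Aop_bound s_b1 s_b2 s_b3 s_b4 s_b5
      (rz hq1 _ _ _ kr1 (by norm_num) (by norm_num)) (rz hq2 _ _ _ kr2 (by norm_num) (by norm_num))
      (rz hq3 _ _ _ kr3 (by norm_num) (by norm_num)) (rz hq4 _ _ _ kr4 (by norm_num) (by norm_num))
      (rz hp2 _ _ _ kr5 (by norm_num) (by norm_num)) (rz hp4 _ _ _ kr6 (by norm_num) (by norm_num))
      (sz hq1 _ _ _ kn1 (by norm_num) (by norm_num)) (sz hq2 _ _ _ kn2 (by norm_num) (by norm_num))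
      (sz hq3 _ _ _ kn3 (by norm_num) (by norm_num)) (sz hq4 _ _ _ kn4 (by norm_num) (by norm_num))
      (sz hp2 _ _ _ kn5 (by norm_num) (by norm_num)) (sz hp4 _ _ _ kn6 (by norm_num) (by norm_num))
    rintro (i | n | n)
    · change ‖(bs (Sum.inl i) : E) - Aop hI ωI QM (DGm Wb xbar (bs (Sum.inl i)))‖ ≤ 0.68
      fin_cases i
      · exact scalar_aux _ _ _ 134 (by rw [toE_u0]; norm_num) col0_eq k0
      · exact scalar_aux _ _ _ 124 (by rw [toE_u1]; norm_num) col1_eq k1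
      · exact scalar_aux _ _ _ 124 (by rw [toE_u2]; norm_num; rfl) col2_eq k2
      · exact scalar_aux _ _ _ 124 (by rw [toE_u3]; norm_num; rfl) col3_eq k3
    · change ‖(bs (Sum.inr (Sum.inl n)) : E) - Aop hI ωI QM (DGm Wb xbar (bs (Sum.inr (Sum.inl n))))‖ ≤ 0.68
      by_cases hn : n < 40
      · exact fcol n hn
      · exact (tail n (by omega)).1.trans (by norm_num)
    · change ‖(bs (Sum.inr (Sum.inr n)) : E) - Aop hI ωI QM (DGm Wb xbar (bs (Sum.inr (Sum.inr n))))‖ ≤ 0.68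
      by_cases hn : n < 40
      · exact gcol n hn
      · exact (tail n (by omega)).2.trans (by norm_num)

lemma residual : ‖Aop hI ωI QM (Gm Wb xbar)‖ ≤ 0.0000007 := by
  have h := norm_chkN kY (by norm_num)
  have h1 := A_toE resG
  rw [resG_eq, map_smul] at h1
  have h2 : ((2:ℝ)^168) * ‖Aop hI ωI QM (Gm Wb xbar)‖ = 1/4096 * ‖toE (appA resG)‖ := by
    have := congrArg norm h1
    rw [norm_smul, norm_smul, norm_pow, Real.norm_ofNat] at this
    rw [this]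
    norm_num
  push_cast at h
  norm_num at h h2 ⊢
  linarith

end Pool.Agent.H733R2
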