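import Pool.Agent.H733R2.Map

set_option autoImplicit false

open Finset

namespace Pool.Agent.H733R2

section
variable (W : B) (x : E)

/-- `Z` -/
noncomputable def ZZ : B := 1 + cZ x

noncomputable def FU1 : B := 4 * (W * (ZZ x * cX2 x)) - 8 * (W * (cX1 x * cZ1 x))
noncomputable def FU2 : B := 4 * (W * (ZZ x * cZ2 x)) - 4 * (W * (cZ1 x * cZ1 x)) + 4 * (W * (cX1 x * cX1 x))
noncomputable def FM1 : B :=
  6 * (1 - wv) * (W * (ZZ x * cX1 x)) - 4 * (1 + wv) * (W * (cA x * (cX x * cZ1 x)))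
    + W * ((cA x * cA x + cA x) * (cX x * ZZ x))
noncomputable def FM2 : B :=
  6 * (1 - wv) * (W * (ZZ x * cZ1 x)) + 4 * (1 + wv) * (W * (cA x * (cX x * cX1 x)))
    + W * (cA x * (ZZ x * ZZ x)) - W * ((cA x * cA x) * (cX x * cX x))

/-- the nonlinear map -/
noncomputable def Gm : E := jf (FU1 W x) + pk1 (FM1 W x) + jg (FU2 W x) + pk2 (FM2 W x)

noncomputable def q1 : B := 6 * (1 - wv) * (W * ZZ x)
noncomputable def q2 : B := (cA x * cA x + cA x) * (W * ZZ x) - 4 * (1 + wv) * (cA x * (W * cZ1 x))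
noncomputable def q3 : B := 4 * (1 + wv) * (cA x * (W * cX x))
noncomputable def q4 : B := 4 * (1 + wv) * (cA x * (W * cX1 x)) - 2 * (cA x * cA x) * (W * cX x)
noncomputable def p2 : B := 6 * (1 - wv) * (W * cX1 x) + (cA x * cA x + cA x) * (W * cX x)
noncomputable def p4 : B := 6 * (1 - wv) * (W * cZ1 x) + 2 * cA x * (W * ZZ x)
noncomputable def r1 : B := (2 * cA x + 1) * (W * (cX x * ZZ x)) - 4 * (1 + wv) * (W * (cX x * cZ1 x))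
noncomputable def r2 : B := 4 * (1 + wv) * (W * (cX x * cX1 x)) + W * (ZZ x * ZZ x)
  - 2 * cA x * (W * (cX x * cX x))

noncomputable def dU1 : E →L[ℝ] B := mulc (4 * (W * ZZ x)) ∘L cX2 + mulc (4 * (W * cX2 x)) ∘L cZ
  - mulc (8 * (W * cZ1 x)) ∘L cX1 - mulc (8 * (W * cX1 x)) ∘L cZ1
noncomputable def dU2 : E →L[ℝ] B := mulc (4 * (W * ZZ x)) ∘L cZ2 + mulc (4 * (W * cZ2 x)) ∘L cZ
  - mulc (8 * (W * cZ1 x)) ∘L cZ1 + mulc (8 * (W * cX1 x)) ∘L cX1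
noncomputable def dM1 : E →L[ℝ] B := mulc (q1 W x) ∘L cX1 + mulc (q2 W x) ∘L cX
  + mulc (p2 W x) ∘L cZ - mulc (q3 W x) ∘L cZ1 + mulc (r1 W x) ∘L cA
noncomputable def dM2 : E →L[ℝ] B := mulc (q1 W x) ∘L cZ1 + mulc (p4 W x) ∘L cZ
  + mulc (q3 W x) ∘L cX1 + mulc (q4 W x) ∘L cX + mulc (r2 W x) ∘L cA

lemma dU1_apply (δ : E) : dU1 W x δ = 4 * (W * ZZ x) * cX2 δ + 4 * (W * cX2 x) * cZ δ
  - 8 * (W * cZ1 x) * cX1 δ - 8 * (W * cX1 x) * cZ1 δ := rfl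
lemma dU2_apply (δ : E) : dU2 W x δ = 4 * (W * ZZ x) * cZ2 δ + 4 * (W * cZ2 x) * cZ δ
  - 8 * (W * cZ1 x) * cZ1 δ + 8 * (W * cX1 x) * cX1 δ := rfl
lemma dM1_apply (δ : E) : dM1 W x δ = q1 W x * cX1 δ + q2 W x * cX δ + p2 W x * cZ δ
  - q3 W x * cZ1 δ + r1 W x * cA δ := rfl
lemma dM2_apply (δ : E) : dM2 W x δ = q1 W x * cZ1 δ + p4 W x * cZ δ + q3 W x * cX1 δ
  + q4 W x * cX δ + r2 W x * cA δ := rfl

/-- the derivative of `Gm W` at `x` -/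
noncomputable def DGm : E →L[ℝ] E :=
  jf ∘L dU1 W x + pk1 ∘L dM1 W x + jg ∘L dU2 W x + pk2 ∘L dM2 W x

lemma DGm_apply (δ : E) : DGm W x δ
  = jf (dU1 W x δ) + pk1 (dM1 W x δ) + jg (dU2 W x δ) + pk2 (dM2 W x δ) := rfl

end

/-- norm adapted to division by `1 - w²` -/
noncomputable def rho (f : B) : ℝ := ‖Dv f‖ + 16/9 * |cf (Gs f) 0| + 20/9 * |4/5 * cf (Gs f) 1|

/-- head indices: 4 scalars, 16 coefficients of `f`, 16 of `g` -/
def hI (k : Fin 36) : Idx :=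
  if h : k.1 < 4 then Sum.inl ⟨k.1, h⟩ else if k.1 < 20 then Sum.inr (Sum.inl (k.1 - 4))
    else Sum.inr (Sum.inr (k.1 - 20))

/-- head weights -/
noncomputable def ωI (k : Fin 36) : ℝ :=
  if k.1 < 4 then 1 else if k.1 < 20 then (5/4) ^ (k.1 - 4) else (5/4) ^ (k.1 - 20)

end Pool.Agent.H733R2
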