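import Pool.Agent.H733R2.Check
import Pool.Agent.H733R2.GDef

set_option autoImplicit false

open Finset

namespace Pool.Agent.H733R2

/-! ### norms -/

lemma nzA_spec (s : List ℤ) (w acc : ℕ) (h : 4 ^ s.length ∣ w) :
    ((nzA s w acc : ℕ) : ℚ) = acc + w * normL s := by
  induction s generalizing w acc with
  | nil => simp [nzA, normL]
  | cons c t ih =>
    obtain ⟨k, rfl⟩ := h
    have e : 4 ^ (c :: t).length * k / 4 = 4 ^ t.length * k := by
      rw [List.length_cons, pow_succ]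
      have : 4 ^ t.length * 4 * k = 4 ^ t.length * k * 4 := by ring
      rw [this, Nat.mul_div_cancel _ (by norm_num)]
    rw [nzA, ih, e, normL]
    · push_cast
      rw [List.length_cons, pow_succ]
      have hc : ((c.natAbs : ℕ) : ℚ) = ((|c| : ℤ) : ℚ) := by
        rw [Int.abs_eq_natAbs]; simp
      rw [hc]
      push_cast
      ring
    · rw [e]
      exact ⟨k * 5, by ring⟩

lemma chkL_spec {l : List ℤ} {num den : ℕ} (h : chkL l num den = true) :
    normL l * den ≤ num := by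
  simp only [chkL, Bool.and_eq_true, Nat.ble_eq] at h
  obtain ⟨h1, h2⟩ := h
  have h3 := nzA_spec l (4 ^ 80) 0 (pow_dvd_pow 4 h1)
  have h4 : ((nzA l (4 ^ 80) 0 * den : ℕ) : ℚ) ≤ ((num * 4 ^ 80 : ℕ) : ℚ) := by exact_mod_cast h2
  push_cast at h4 h3
  rw [h3] at h4
  have h5 : (0 : ℚ) < 4 ^ 80 := by positivity
  nlinarith

lemma norm_chkL {l : List ℤ} {num den : ℕ} (h : chkL l num den = true) (hd : 0 < den) :
    ‖ofL l‖ ≤ num / den := by
  have h1 := chkL_spec h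
  have h2 := norm_ofL_le l
  rw [le_div_iff₀ (by exact_mod_cast hd)]
  have h3 : ((normL l : ℚ) : ℝ) * den ≤ num := by exact_mod_cast h1
  refine le_trans ?_ h3
  gcongr

lemma chkN_spec {v : VZ} {num den : ℕ} (h : chkN v num den = true) : normV v * den ≤ num := by
  simp only [chkN, Bool.and_eq_true, Nat.ble_eq] at h
  obtain ⟨⟨h1, h1'⟩, h2⟩ := h
  have h3 := nzA_spec v.f (4 ^ 80) 0 (pow_dvd_pow 4 h1)
  have h3' := nzA_spec v.g (4 ^ 80) 0 (pow_dvd_pow 4 h1')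
  have h4 : (((((v.s0.natAbs + v.s1.natAbs + v.s2.natAbs + v.s3.natAbs) * 4 ^ 80 +
    nzA v.f (4 ^ 80) 0 + nzA v.g (4 ^ 80) 0)) * den : ℕ) : ℚ) ≤ ((num * 4 ^ 80 : ℕ) : ℚ) := by
    exact_mod_cast h2
  have hc : ∀ c : ℤ, ((|c| : ℤ) : ℚ) = |(c:ℚ)| := by intro c; push_cast; rfl
  have hc2 : ∀ c : ℤ, ((c.natAbs : ℕ) : ℚ) = |(c:ℚ)| := by
    intro c; rw [Nat.cast_natAbs, Int.cast_abs]
  simp only [Nat.cast_mul, Nat.cast_add, Nat.cast_pow, Nat.cast_ofNat, Nat.cast_zero, zero_add, hc2] at h4 h3 h3'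
  rw [h3, h3'] at h4
  have h5 : (0 : ℚ) < 4 ^ 80 := by positivity
  unfold normV
  simp only [hc]
  have : (|(v.s0:ℚ)| + |(v.s1:ℚ)| + |(v.s2:ℚ)| + |(v.s3:ℚ)| + normL v.f + normL v.g) * den * 4 ^ 80
      ≤ num * 4 ^ 80 := by
    refine le_trans (le_of_eq ?_) h4
    ring
  exact le_of_mul_le_mul_right this h5

lemma norm_chkN {v : VZ} {num den : ℕ} (h : chkN v num den = true) (hd : 0 < den) :
    ‖toE v‖ ≤ num / den := by
  have h1 := chkN_spec h
  have h2 := norm_toE_le v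
  rw [le_div_iff₀ (by exact_mod_cast hd)]
  have h3 : ((normV v : ℚ) : ℝ) * den ≤ num := by exact_mod_cast h1
  refine le_trans ?_ h3
  gcongr

lemma chkR_spec {l : List ℤ} {num den : ℕ} (h : chkR l num den = true) (hd : 0 < den) :
    rho (ofL l) ≤ num / den := by
  simp only [chkR, Bool.and_eq_true, Nat.ble_eq] at h
  obtain ⟨⟨h0, h1⟩, h2⟩ := h
  have h3 := nzA_spec _ (4 ^ 80) 0 (pow_dvd_pow 4 h1)
  have h4 : (((9 * nzA (addL l (smulL (-1) (gsL l))) (4 ^ 80) 0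
    + (16 * ((gsL l).getD 0 0).natAbs + 20 * ((gsL l).getD 1 0).natAbs) * 4 ^ 80) * den : ℕ) : ℚ)
      ≤ ((9 * num * 4 ^ 80 : ℕ) : ℚ) := by exact_mod_cast h2
  have hc2 : ∀ c : ℤ, ((c.natAbs : ℕ) : ℚ) = |(c:ℚ)| := by
    intro c; rw [Nat.cast_natAbs, Int.cast_abs]
  simp only [Nat.cast_mul, Nat.cast_add, Nat.cast_pow, Nat.cast_ofNat, Nat.cast_zero, zero_add, hc2] at h4 h3
  rw [h3] at h4
  have h5 : (0 : ℚ) < 4 ^ 80 := by positivity
  have h6 : (normL (addL l (smulL (-1) (gsL l))) + 16/9 * |(((gsL l).getD 0 0 : ℤ) : ℚ)|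
      + 20/9 * |(((gsL l).getD 1 0 : ℤ) : ℚ)|) * den * 4 ^ 80 ≤ num * 4 ^ 80 := by
    nlinarith
  have h7 := le_of_mul_le_mul_right h6 h5
  have h8 : ‖Dv (ofL l)‖ ≤ (normL (addL l (smulL (-1) (gsL l))) : ℝ) := by
    have e : Dv (ofL l) = ofL (addL l (smulL (-1) (gsL l))) := by
      rw [Dv_ofL, ofL_add, ofL_smul]
      push_cast
      rw [neg_smul, one_smul]
      abel
    rw [e]
    exact norm_ofL_le _
  rw [le_div_iff₀ (by exact_mod_cast hd)]
  have h9 : (((normL (addL l (smulL (-1) (gsL l))) : ℚ) : ℝ) + 16/9 * |(((gsL l).getD 0 0 : ℤ) : ℝ)|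
      + 20/9 * |(((gsL l).getD 1 0 : ℤ) : ℝ)|) * den ≤ num := by
    have := (Rat.cast_le (K := ℝ)).2 h7
    simp only [Rat.cast_mul, Rat.cast_add, Rat.cast_div, Rat.cast_ofNat, Rat.cast_natCast, Rat.cast_abs, Rat.cast_intCast] at this
    exact this
  refine le_trans ?_ h9
  have h10 : (0:ℝ) < den := by exact_mod_cast hd
  apply mul_le_mul_of_nonneg_right _ h10.le
  unfold rho
  rw [Gs_ofL, cf_ofL, cf_ofL]
  have e1 : (4/5 : ℝ) * ((5/4) ^ 1 * (((gsL l).getD 1 0 : ℤ) : ℝ)) = (((gsL l).getD 1 0 : ℤ) : ℝ) := by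
    ring
  rw [e1, pow_zero, one_mul]
  linarith

/-! ### head coordinates -/

lemma padT_getD (N : ℕ) (l : List ℤ) (k : ℕ) :
    (padT N l).getD k 0 = if k < N then l.getD k 0 else 0 := by
  induction N generalizing l k with
  | zero => simp [padT]
  | succ N ih =>
    cases l with
    | nil =>
      cases k with
      | zero => simp [padT]
      | succ k =>
        have := ih [] k
        simp only [padT, List.getD_cons_succ, this]
        simp
    | cons c t =>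
      cases k with
      | zero => simp [padT]
      | succ k =>
        have := ih t k
        simp only [padT, List.getD_cons_succ, this]
        simp

lemma padT_length (N : ℕ) (l : List ℤ) : (padT N l).length = N := by
  induction N generalizing l with
  | zero => simp [padT]
  | succ N ih =>
    cases l with
    | nil => simp [padT, ih]
    | cons c t => simp [padT, ih]

lemma toE_s0 (v : VZ) : toE v (Sum.inl 0) = v.s0 := by
  have h : toE v (Sum.inl 0) = (v.s0 : ℝ) * (bs (Sum.inl 0) : E) (Sum.inl 0)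
    + (v.s1 : ℝ) * (bs (Sum.inl 1) : E) (Sum.inl 0) + (v.s2 : ℝ) * (bs (Sum.inl 2) : E) (Sum.inl 0)
    + (v.s3 : ℝ) * (bs (Sum.inl 3) : E) (Sum.inl 0) + (jf (ofL v.f)) (Sum.inl 0) + (jg (ofL v.g)) (Sum.inl 0) := rfl
  rw [h, jf_s, jg_s]
  simp [bs_apply]

lemma toE_s1 (v : VZ) : toE v (Sum.inl 1) = v.s1 := by
  have h : toE v (Sum.inl 1) = (v.s0 : ℝ) * (bs (Sum.inl 0) : E) (Sum.inl 1)
    + (v.s1 : ℝ) * (bs (Sum.inl 1) : E) (Sum.inl 1) + (v.s2 : ℝ) * (bs (Sum.inl 2) : E) (Sum.inl 1)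
    + (v.s3 : ℝ) * (bs (Sum.inl 3) : E) (Sum.inl 1) + (jf (ofL v.f)) (Sum.inl 1) + (jg (ofL v.g)) (Sum.inl 1) := rfl
  rw [h, jf_s, jg_s]
  simp [bs_apply]

lemma toE_s2 (v : VZ) : toE v (Sum.inl 2) = v.s2 := by
  have h : toE v (Sum.inl 2) = (v.s0 : ℝ) * (bs (Sum.inl 0) : E) (Sum.inl 2)
    + (v.s1 : ℝ) * (bs (Sum.inl 1) : E) (Sum.inl 2) + (v.s2 : ℝ) * (bs (Sum.inl 2) : E) (Sum.inl 2)
    + (v.s3 : ℝ) * (bs (Sum.inl 3) : E) (Sum.inl 2) + (jf (ofL v.f)) (Sum.inl 2) + (jg (ofL v.g)) (Sum.inl 2) := rfl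
  rw [h, jf_s, jg_s]
  simp [bs_apply]

lemma toE_s3 (v : VZ) : toE v (Sum.inl 3) = v.s3 := by
  have h : toE v (Sum.inl 3) = (v.s0 : ℝ) * (bs (Sum.inl 0) : E) (Sum.inl 3)
    + (v.s1 : ℝ) * (bs (Sum.inl 1) : E) (Sum.inl 3) + (v.s2 : ℝ) * (bs (Sum.inl 2) : E) (Sum.inl 3)
    + (v.s3 : ℝ) * (bs (Sum.inl 3) : E) (Sum.inl 3) + (jf (ofL v.f)) (Sum.inl 3) + (jg (ofL v.g)) (Sum.inl 3) := rfl
  rw [h, jf_s, jg_s]
  simp [bs_apply]

lemma toE_f (v : VZ) (n : ℕ) : toE v (Sum.inr (Sum.inl n)) = (5/4) ^ n * ((v.f.getD n 0 : ℤ) : ℝ) := by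
  have h : toE v (Sum.inr (Sum.inl n)) = (v.s0 : ℝ) * (bs (Sum.inl 0) : E) (Sum.inr (Sum.inl n))
    + (v.s1 : ℝ) * (bs (Sum.inl 1) : E) (Sum.inr (Sum.inl n)) + (v.s2 : ℝ) * (bs (Sum.inl 2) : E) (Sum.inr (Sum.inl n))
    + (v.s3 : ℝ) * (bs (Sum.inl 3) : E) (Sum.inr (Sum.inl n)) + (jf (ofL v.f)) (Sum.inr (Sum.inl n)) + (jg (ofL v.g)) (Sum.inr (Sum.inl n)) := rfl
  rw [h, jf_f, jg_f, cf_ofL]
  simp [bs_apply]

lemma toE_g (v : VZ) (n : ℕ) : toE v (Sum.inr (Sum.inr n)) = (5/4) ^ n * ((v.g.getD n 0 : ℤ) : ℝ) := by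
  have h : toE v (Sum.inr (Sum.inr n)) = (v.s0 : ℝ) * (bs (Sum.inl 0) : E) (Sum.inr (Sum.inr n))
    + (v.s1 : ℝ) * (bs (Sum.inl 1) : E) (Sum.inr (Sum.inr n)) + (v.s2 : ℝ) * (bs (Sum.inl 2) : E) (Sum.inr (Sum.inr n))
    + (v.s3 : ℝ) * (bs (Sum.inl 3) : E) (Sum.inr (Sum.inr n)) + (jf (ofL v.f)) (Sum.inr (Sum.inr n)) + (jg (ofL v.g)) (Sum.inr (Sum.inr n)) := rfl
  rw [h, jf_g, jg_g, cf_ofL]
  simp [bs_apply]

lemma hI_inj : Function.Injective hI := by
  intro a b h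
  unfold hI at h
  split_ifs at h with h1 h2 h3 h4 h5 h6
  all_goals first
    | (simp only [Sum.inl.injEq, Sum.inr.injEq, Fin.mk.injEq, reduceCtorEq] at h; apply Fin.ext; omega)
    | (simp only [Sum.inl.injEq, Sum.inr.injEq, Fin.mk.injEq, reduceCtorEq] at h)

lemma ωI_pos (k : Fin 36) : 0 < ωI k := by
  unfold ωI
  split_ifs <;> positivity

/-- value of the head list -/
lemma Phi_toE (v : VZ) (k : Fin 36) :
    Phi hI ωI (toE v) k = (((headL v).getD k.1 0 : ℤ) : ℝ) := by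
  rw [Phi_apply]
  obtain ⟨k, hk⟩ := k
  by_cases h1 : k < 4
  · have e1 : ωI ⟨k, hk⟩ = 1 := by simp [ωI, h1]
    rw [e1, inv_one, one_mul]
    interval_cases k
    · exact toE_s0 v
    · exact toE_s1 v
    · exact toE_s2 v
    · exact toE_s3 v
  · obtain ⟨m, rfl⟩ : ∃ m, k = m + 4 := ⟨k - 4, by omega⟩
    have eh : (headL v).getD (m + 4) 0 = (padT 16 v.f ++ padT 16 v.g).getD m 0 := rfl
    rw [eh]
    by_cases h2 : m < 16
    · have e1 : ωI ⟨m + 4, hk⟩ = (5/4) ^ m := by simp [ωI]; omega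
      have e2 : hI ⟨m + 4, hk⟩ = Sum.inr (Sum.inl m) := by
        simp [hI]; omega
      rw [e1, e2, toE_f, List.getD_append _ _ _ _ (by rw [padT_length]; exact h2), padT_getD, if_pos h2]
      rw [← mul_assoc, inv_mul_cancel₀ (by positivity), one_mul]
    · obtain ⟨l, rfl⟩ : ∃ l, m = l + 16 := ⟨m - 16, by omega⟩
      have e1 : ωI ⟨l + 16 + 4, hk⟩ = (5/4) ^ l := by simp [ωI]
      have e2 : hI ⟨l + 16 + 4, hk⟩ = Sum.inr (Sum.inr l) := by
        simp [hI]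
      have h3 : l < 16 := by omega
      rw [e1, e2, toE_g, List.getD_append_right _ _ _ _ (by rw [padT_length]; omega), padT_length,
        Nat.add_sub_cancel, padT_getD, if_pos h3]
      rw [← mul_assoc, inv_mul_cancel₀ (by positivity), one_mul]

lemma Psi_not_range (u : Fin 36 → ℝ) (i : Idx) (hi : ∀ k, hI k ≠ i) : Psi hI ωI u i = 0 := by
  rw [Psi_apply, E_sum_apply]
  apply Finset.sum_eq_zero
  intro k _
  change (ωI k * u k) * ((bs (hI k) : E) i) = 0
  rw [bs_apply, if_neg (fun e => hi k e.symm), mul_zero]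

lemma Psi_range (u : Fin 36 → ℝ) (k : Fin 36) : Psi hI ωI u (hI k) = ωI k * u k := by
  have h := congrFun (Phi_Psi hI ωI hI_inj ωI_pos u) k
  rw [Phi_apply] at h
  have h0 := (ωI_pos k).ne'
  rw [← h]
  field_simp

lemma Psi_toE (l : List ℤ) : Psi hI ωI (fun k => ((l.getD k.1 0 : ℤ) : ℝ)) = toE (PVof l) := by
  apply lp.ext
  funext i
  have hs : ∀ s : Fin 4, hI ⟨s.1, by omega⟩ = Sum.inl s := by
    intro s; simp [hI]
  have hdrop : ∀ (l : List ℤ) (a b : ℕ), (l.drop a).getD b 0 = l.getD (a + b) 0 := by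
    intro l a b; simp [List.getD]
  rcases i with s | n | n
  · have h1 := Psi_range (fun k => ((l.getD k.1 0 : ℤ) : ℝ)) ⟨s.1, by omega⟩
    rw [hs] at h1
    have e1 : ωI ⟨s.1, by omega⟩ = 1 := by simp [ωI]
    rw [e1, one_mul] at h1
    rw [h1]
    fin_cases s
    · exact (toE_s0 (PVof l)).symm
    · exact (toE_s1 (PVof l)).symm
    · exact (toE_s2 (PVof l)).symm
    · exact (toE_s3 (PVof l)).symm
  · rw [toE_f]
    simp only [PVof]
    rw [padT_getD]
    by_cases hn : n < 16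
    · have e1 : ωI ⟨n + 4, by omega⟩ = (5/4) ^ n := by simp [ωI]; omega
      have e2 : hI ⟨n + 4, by omega⟩ = Sum.inr (Sum.inl n) := by
        simp [hI]; omega
      have h1 := Psi_range (fun k => ((l.getD k.1 0 : ℤ) : ℝ)) ⟨n + 4, by omega⟩
      rw [e2, e1] at h1
      rw [h1, if_pos hn, hdrop, add_comm 4 n]
    · rw [if_neg hn, Int.cast_zero, mul_zero]
      apply Psi_not_range
      intro k hk
      unfold hI at hk
      split_ifs at hk with h1 h2
      · simp only [Sum.inr.injEq, Sum.inl.injEq] at hk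
        omega
      · simp at hk
  · rw [toE_g]
    simp only [PVof]
    rw [padT_getD]
    by_cases hn : n < 16
    · have e1 : ωI ⟨n + 20, by omega⟩ = (5/4) ^ n := by simp [ωI]
      have e2 : hI ⟨n + 20, by omega⟩ = Sum.inr (Sum.inr n) := by
        simp [hI]
      have h1 := Psi_range (fun k => ((l.getD k.1 0 : ℤ) : ℝ)) ⟨n + 20, by omega⟩
      rw [e2, e1] at h1
      rw [h1, if_pos hn, hdrop, add_comm 20 n]
    · rw [if_neg hn, Int.cast_zero, mul_zero]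
      apply Psi_not_range
      intro k hk
      unfold hI at hk
      split_ifs at hk with h1 h2
      · simp at hk
      · simp only [Sum.inr.injEq] at hk
        have := k.2
        omega

lemma dotL_eq (r h : List ℤ) (N : ℕ) (hr : r.length ≤ N) :
    dotL r h = ∑ k ∈ range N, r.getD k 0 * h.getD k 0 := by
  induction r generalizing h N with
  | nil => simp [dotL]
  | cons a s ih =>
    cases N with
    | zero => simp at hr
    | succ N =>
      rw [Finset.sum_range_succ']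
      cases h with
      | nil => simp [dotL]
      | cons b t =>
        rw [dotL, ih t N (by simpa using hr)]
        simp
        ring

/-- the matrix -/
noncomputable def QM : Matrix (Fin 36) (Fin 36) ℝ :=
  fun i j => (((rowsI.getD i.1 []).getD j.1 0 : ℤ) : ℝ) / 4096

lemma mvL_spec (h : List ℤ) (hrow : ∀ k < 36, (rowsI.getD k []).length ≤ 36)
    (hlen : rowsI.length = 36) (i : Fin 36) :
    QM.mulVec (fun k => ((h.getD k.1 0 : ℤ) : ℝ)) i = (((mvL rowsI h).getD i.1 0 : ℤ) : ℝ) / 4096 := by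
  have h1 : (mvL rowsI h).getD i.1 0 = dotL (rowsI.getD i.1 []) h := by
    unfold mvL
    rw [List.getD_eq_getElem _ _ (by rw [List.length_map, hlen]; exact i.2), List.getElem_map,
      List.getD_eq_getElem _ _ (by rw [hlen]; exact i.2)]
  rw [h1, dotL_eq _ _ 36 (hrow i.1 i.2)]
  simp only [Matrix.mulVec, dotProduct, QM]
  rw [Finset.sum_range]
  push_cast
  rw [Finset.sum_div]
  apply Finset.sum_congr rfl
  intro k _
  ring

end Pool.Agent.H733R2
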