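import Pool.Agent.H733R2.Map

set_option autoImplicit false

open Finset

namespace Pool.Agent.H733R2

/-- polynomial in `w` with integer coefficients -/
noncomputable def ofL : List ℤ → B
  | [] => 0
  | c :: t => algebraMap ℝ B (c : ℝ) + wv * ofL t

/-- addition -/
def addL : List ℤ → List ℤ → List ℤ
  | [], l => l
  | a :: s, [] => a :: s
  | a :: s, b :: t => (a + b) :: addL s t

/-- scalar multiplication -/
def smulL (c : ℤ) : List ℤ → List ℤ
  | [] => []
  | a :: s => (c * a) :: smulL c s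

/-- multiplication -/
def mulL : List ℤ → List ℤ → List ℤ
  | [], _ => []
  | a :: s, l => addL (smulL a l) (0 :: mulL s l)

/-- norm -/
def normL : List ℤ → ℚ
  | [] => 0
  | c :: t => (|c| : ℤ) + 5/4 * normL t

/-- tail sums with step two -/
def gsL : List ℤ → List ℤ
  | [] => []
  | c :: t => (c + (gsL t).getD 1 0) :: gsL t

/-- multiplication by `w^n` -/
def shiftL : ℕ → List ℤ → List ℤ
  | 0, l => l
  | n + 1, l => 0 :: shiftL n l

/-- differentiation of `w^(k+1) * l`, divided by `w^k` -/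
def dzL : ℕ → List ℤ → List ℤ
  | _, [] => []
  | k, c :: t => ((k + 1 : ℕ) * c) :: dzL (k + 1) t

lemma ofL_nil : ofL [] = 0 := rfl
lemma ofL_cons (c : ℤ) (t : List ℤ) : ofL (c :: t) = algebraMap ℝ B (c : ℝ) + wv * ofL t := rfl

lemma ofL_add (s t : List ℤ) : ofL (addL s t) = ofL s + ofL t := by
  induction s generalizing t with
  | nil => simp [addL, ofL_nil]
  | cons a s ih =>
    cases t with
    | nil => simp [addL, ofL_nil]
    | cons b t =>
      simp only [addL, ofL_cons, ih]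
      rw [Int.cast_add, map_add]; ring

lemma ofL_smul (c : ℤ) (s : List ℤ) : ofL (smulL c s) = (c : ℝ) • ofL s := by
  induction s with
  | nil => simp [smulL, ofL_nil]
  | cons a s ih =>
    simp only [smulL, ofL_cons, ih]
    rw [Int.cast_mul, map_mul, Algebra.smul_def, Algebra.smul_def]; ring

lemma ofL_zero_cons (t : List ℤ) : ofL (0 :: t) = wv * ofL t := by
  simp [ofL_cons]

lemma ofL_mul (s t : List ℤ) : ofL (mulL s t) = ofL s * ofL t := by
  induction s with
  | nil => simp [mulL, ofL_nil]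
  | cons a s ih =>
    rw [mulL, ofL_add, ofL_smul, ofL_zero_cons, ih, ofL_cons, Algebra.smul_def]
    ring

lemma ofL_shift (n : ℕ) (t : List ℤ) : ofL (shiftL n t) = wv ^ n * ofL t := by
  induction n with
  | zero => simp [shiftL]
  | succ n ih => simp only [shiftL, ofL_zero_cons, ih]; ring

lemma ofL_one : ofL [1] = 1 := by simp [ofL_cons, ofL_nil]

lemma norm_ofL_le (s : List ℤ) : ‖ofL s‖ ≤ (normL s : ℝ) := by
  induction s with
  | nil => simp [ofL_nil, normL]
  | cons a s ih =>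
    simp only [ofL_cons, normL]
    refine (norm_add_le _ _).trans ?_
    push_cast
    have h1 : ‖algebraMap ℝ B (a : ℝ)‖ = |(a : ℝ)| := by
      rw [norm_algebraMap']; rfl
    have h2 : ‖wv * ofL s‖ ≤ 5/4 * (normL s : ℝ) := by
      refine (norm_mul_le _ _).trans ?_
      rw [norm_wv]
      gcongr
    have h3 : ‖((a : ℤ) : B)‖ = |(a : ℝ)| := by
      rw [← h1]; congr 1; simp
    first
      | (rw [h1]; linarith)
      | (rw [h3]; linarith)

lemma T2_wv_wv (f : B) : T2 (wv * (wv * f)) = f := by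
  apply B.ext
  intro n
  rw [cf_T2, cf_wv_mul, cf_wv_mul]
  ring

lemma T2_const (c : ℝ) : T2 (algebraMap ℝ B c) = 0 := by
  apply B.ext
  intro n
  rw [cf_T2, algebraMap_eq]
  simp

lemma T2_wv_const (c : ℝ) : T2 (wv * algebraMap ℝ B c) = 0 := by
  apply B.ext
  intro n
  rw [cf_T2, algebraMap_eq, cf_wv_mul]
  simp

lemma T2_ofL (s : List ℤ) : T2 (ofL s) = ofL (s.drop 2) := by
  match s with
  | [] => simp [ofL_nil]
  | [a] =>
    rw [ofL_cons, ofL_nil, mul_zero, add_zero, T2_const]; simp [ofL_nil]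
  | a :: b :: t =>
    simp only [ofL_cons, List.drop_succ_cons, List.drop_zero, mul_add, map_add, T2_const,
      T2_wv_const, T2_wv_wv, zero_add]

lemma ofL_drop_one (s : List ℤ) :
    ofL s = algebraMap ℝ B ((s.getD 0 0 : ℤ) : ℝ) + wv * ofL (s.drop 1) := by
  cases s with
  | nil => simp [ofL_nil]
  | cons a t => rw [ofL_cons]; rfl

lemma Gs_ofL_aux (s : List ℤ) : ofL (gsL s) - ofL ((gsL s).drop 2) = ofL s := by
  induction s with
  | nil => simp [gsL, ofL_nil]
  | cons a s ih =>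
    have h1 := ofL_drop_one ((gsL s).drop 1)
    rw [List.drop_drop] at h1
    have h2 : ((gsL s).drop 1).getD 0 0 = (gsL s).getD 1 0 := by
      simp [List.getD]
    rw [h2] at h1
    simp only [gsL, ofL_cons, List.drop_succ_cons]
    rw [h1, ← ih, Int.cast_add, map_add]
    ring

lemma Gs_ofL (s : List ℤ) : Gs (ofL s) = ofL (gsL s) := by
  apply Gs_eq
  rw [T2_ofL, Gs_ofL_aux]

lemma Dv_ofL (s : List ℤ) : Dv (ofL s) = ofL s - ofL (gsL s) := by
  rw [Dv_apply, Gs_ofL]

lemma wv_pow_const (m : ℕ) (d : ℝ) : wv ^ m * algebraMap ℝ B d = mono ((5/4) ^ m * d) m := by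
  induction m with
  | zero => simp [algebraMap_eq]
  | succ m ih =>
    rw [pow_succ', mul_assoc, ih, wv, mono_mul, pow_succ']
    congr 1
    · ring
    · ring

lemma J_wv_pow (k : ℕ) (c : ℝ) : J (wv ^ k * algebraMap ℝ B (((k + 1 : ℕ) : ℝ) * c))
    = wv ^ (k + 1) * algebraMap ℝ B c := by
  rw [wv_pow_const, wv_pow_const, J_mono]
  congr 1
  push_cast
  have : ((k : ℝ) + 1) ≠ 0 := by positivity
  rw [pow_succ]
  field_simp

lemma J_dzL (k : ℕ) (s : List ℤ) : J (wv ^ k * ofL (dzL k s)) = wv ^ (k + 1) * ofL s := by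
  induction s generalizing k with
  | nil => simp [dzL, ofL_nil]
  | cons a s ih =>
    simp only [dzL, ofL_cons]
    have e0 : (((((k + 1 : ℕ) : ℤ) * a : ℤ)) : ℝ) = ((k + 1 : ℕ) : ℝ) * (a : ℝ) := by
      push_cast; ring
    rw [e0, mul_add, map_add, J_wv_pow]
    have e1 : wv ^ k * (wv * ofL (dzL (k + 1) s)) = wv ^ (k + 1) * ofL (dzL (k + 1) s) := by ring
    rw [e1, ih]
    ring

lemma cf_ofL (s : List ℤ) (n : ℕ) : cf (ofL s) n = (5/4 : ℝ) ^ n * ((s.getD n 0 : ℤ) : ℝ) := by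
  induction s generalizing n with
  | nil => simp [ofL_nil]
  | cons a s ih =>
    rw [ofL_cons, cf_add, algebraMap_eq, cf_mono]
    cases n with
    | zero => simp [cf_wv_mul_zero]
    | succ n =>
      rw [cf_wv_mul, ih]
      simp
      ring

/-- vectors with integer entries -/
structure VZ where
  s0 : ℤ
  s1 : ℤ
  s2 : ℤ
  s3 : ℤ
  f : List ℤ
  g : List ℤ

/-- the element of `E` -/
noncomputable def toE (v : VZ) : E :=
  (v.s0 : ℝ) • bs (Sum.inl 0) + (v.s1 : ℝ) • bs (Sum.inl 1) + (v.s2 : ℝ) • bs (Sum.inl 2)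
    + (v.s3 : ℝ) • bs (Sum.inl 3) + jf (ofL v.f) + jg (ofL v.g)

/-- norm -/
def normV (v : VZ) : ℚ :=
  (|v.s0| : ℤ) + (|v.s1| : ℤ) + (|v.s2| : ℤ) + (|v.s3| : ℤ) + normL v.f + normL v.g

lemma norm_toE_le (v : VZ) : ‖toE v‖ ≤ (normV v : ℝ) := by
  have h : ∀ (c : ℤ) (i : Fin 4), ‖(c : ℝ) • (bs (Sum.inl i) : E)‖ = |(c : ℝ)| := by
    intro c i
    rw [norm_smul, bs_norm, mul_one, Real.norm_eq_abs]
  have h1 := norm_ofL_le v.f
  have h2 := norm_ofL_le v.g
  have h3 := jf_le (ofL v.f)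
  have h4 := jg_le (ofL v.g)
  unfold toE normV
  push_cast
  refine (norm_add_le _ _).trans (add_le_add ?_ (h4.trans h2))
  refine (norm_add_le _ _).trans (add_le_add ?_ (h3.trans h1))
  refine (norm_add_le _ _).trans (add_le_add ?_ (h _ _).le)
  refine (norm_add_le _ _).trans (add_le_add ?_ (h _ _).le)
  exact (norm_add_le _ _).trans (add_le_add (h _ _).le (h _ _).le)

/-- addition -/
def addV (u v : VZ) : VZ :=
  ⟨u.s0 + v.s0, u.s1 + v.s1, u.s2 + v.s2, u.s3 + v.s3, addL u.f v.f, addL u.g v.g⟩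

/-- scalar multiplication -/
def smulV (c : ℤ) (v : VZ) : VZ :=
  ⟨c * v.s0, c * v.s1, c * v.s2, c * v.s3, smulL c v.f, smulL c v.g⟩

lemma toE_add (u v : VZ) : toE (addV u v) = toE u + toE v := by
  simp only [toE, addV, ofL_add, map_add, Int.cast_add, add_smul]
  abel

lemma toE_smul (c : ℤ) (v : VZ) : toE (smulV c v) = (c : ℝ) • toE v := by
  simp only [toE, smulV, ofL_smul, map_smul, Int.cast_mul, smul_add, smul_smul]

/-- packing: `(U1, M1, U2, M2)` to a vector -/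
def packV (U1 M1 U2 M2 : List ℤ) : VZ :=
  ⟨(gsL M1).getD 0 0, (gsL M1).getD 1 0, (gsL M2).getD 0 0, (gsL M2).getD 1 0,
    addL U1 (addL M1 (smulL (-1) (gsL M1))), addL U2 (addL M2 (smulL (-1) (gsL M2)))⟩

lemma toE_packV (U1 M1 U2 M2 : List ℤ) :
    toE (packV U1 M1 U2 M2) = jf (ofL U1) + pk1 (ofL M1) + jg (ofL U2) + pk2 (ofL M2) := by
  simp only [toE, packV, pk1_apply, pk2_apply, Gs_ofL, Dv_ofL, cf_ofL, ofL_add, ofL_smul, map_add,
    map_sub, map_smul]
  have e1 : (4/5 : ℝ) * ((5/4) ^ 1 * (((gsL M1).getD 1 0 : ℤ) : ℝ)) = (((gsL M1).getD 1 0 : ℤ) : ℝ) := by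
    ring
  have e2 : (4/5 : ℝ) * ((5/4) ^ 1 * (((gsL M2).getD 1 0 : ℤ) : ℝ)) = (((gsL M2).getD 1 0 : ℤ) : ℝ) := by
    ring
  rw [e1, e2]
  push_cast
  simp only [pow_zero, one_mul, neg_smul, one_smul, map_neg]
  abel

end Pool.Agent.H733R2
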