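import Pool.Agent.H733R2.Newton

set_option autoImplicit false

open Finset

namespace Pool.Agent.H733R2

/-- multiplication operator -/
noncomputable def mulc (f : B) : B →L[ℝ] B := ContinuousLinearMap.mul ℝ B f

@[simp] lemma mulc_apply (f g : B) : mulc f g = f * g := rfl

/-- coefficient functional -/
noncomputable def evB (n : ℕ) : B →L[ℝ] ℝ :=
  LinearMap.mkContinuous
    { toFun := fun x => cf x n
      map_add' := by intro x y; rfl
      map_smul' := by intro c x; rfl } 1 (by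
        intro x
        rw [one_mul]
        exact cf_le x n)

@[simp] lemma evB_apply (n : ℕ) (f : B) : evB n f = cf f n := rfl

/-- linear part of `X''` -/
noncomputable def cX2 : E →L[ℝ] B := pf
/-- linear part of `Z''` -/
noncomputable def cZ2 : E →L[ℝ] B := pg
/-- `X'` -/
noncomputable def cX1 : E →L[ℝ] B := (ps 2).smulRight (1 : B) + J ∘L pf
/-- `Z'` -/
noncomputable def cZ1 : E →L[ℝ] B := (ps 3).smulRight (1 : B) + J ∘L pg
/-- `X` -/
noncomputable def cX : E →L[ℝ] B :=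
  (ps 1).smulRight (1 : B) + (ps 2).smulRight wv + J ∘L (J ∘L pf)
/-- linear part of `Z` -/
noncomputable def cZ : E →L[ℝ] B := (ps 3).smulRight wv + J ∘L (J ∘L pg)
/-- the exponent `a` as an element of `B` -/
noncomputable def cA : E →L[ℝ] B := (ps 0).smulRight (1 : B)

lemma cX1_apply (x : E) : cX1 x = (x (Sum.inl 2)) • (1 : B) + J (pf x) := rfl
lemma cZ1_apply (x : E) : cZ1 x = (x (Sum.inl 3)) • (1 : B) + J (pg x) := rfl
lemma cX_apply (x : E) :
    cX x = (x (Sum.inl 1)) • (1 : B) + (x (Sum.inl 2)) • wv + J (J (pf x)) := rfl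
lemma cZ_apply (x : E) : cZ x = (x (Sum.inl 3)) • wv + J (J (pg x)) := rfl
lemma cA_apply (x : E) : cA x = (x (Sum.inl 0)) • (1 : B) := rfl

/-- bound `|x_i| + ‖pf x‖ ≤ ‖x‖` type estimates, via columns -/
lemma clm_le_of_columns (Λ : E →L[ℝ] B) (K : ℝ)
    (h0 : ∀ i : Fin 4, ‖Λ (bs (Sum.inl i))‖ ≤ K)
    (h1 : ∀ n, ‖Λ (bs (Sum.inr (Sum.inl n)))‖ ≤ K)
    (h2 : ∀ n, ‖Λ (bs (Sum.inr (Sum.inr n)))‖ ≤ K) (x : E) : ‖Λ x‖ ≤ K * ‖x‖ := by
  apply norm_le_of_columns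
  rintro (i | n | n)
  · exact h0 i
  · exact h1 n
  · exact h2 n

lemma pf_bs_s (i : Fin 4) : pf (bs (Sum.inl i)) = 0 := by
  apply B.ext; intro n; rw [cf_pf, bs_apply]; simp
lemma pg_bs_s (i : Fin 4) : pg (bs (Sum.inl i)) = 0 := by
  apply B.ext; intro n; rw [cf_pg, bs_apply]; simp
lemma pf_bs_f (n : ℕ) : pf (bs (Sum.inr (Sum.inl n))) = mono 1 n := by
  apply B.ext; intro k; rw [cf_pf, bs_apply, cf_mono]; simp
lemma pg_bs_f (n : ℕ) : pg (bs (Sum.inr (Sum.inl n))) = 0 := by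
  apply B.ext; intro k; rw [cf_pg, bs_apply]; simp
lemma pf_bs_g (n : ℕ) : pf (bs (Sum.inr (Sum.inr n))) = 0 := by
  apply B.ext; intro k; rw [cf_pf, bs_apply]; simp
lemma pg_bs_g (n : ℕ) : pg (bs (Sum.inr (Sum.inr n))) = mono 1 n := by
  apply B.ext; intro k; rw [cf_pg, bs_apply, cf_mono]; simp

lemma norm_wv : ‖wv‖ = 5/4 := by
  unfold wv; rw [mono_norm]; norm_num

lemma J_mono_le (k : ℕ) : ‖J (mono 1 k)‖ ≤ 5/4 := by
  refine (J_le _).trans ?_
  rw [mono_norm]; norm_num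

lemma JJ_mono_le (k : ℕ) : ‖J (J (mono 1 k))‖ ≤ 5/4 := by
  rw [J_mono, J_mono, mono_norm]
  have h1 : (0:ℝ) < (k:ℝ) + 1 := by positivity
  have h2 : (0:ℝ) < ((k+1:ℕ):ℝ) + 1 := by positivity
  rw [abs_of_nonneg (by positivity), div_le_iff₀ h2]
  push_cast
  have h3 : 5/4 * 1 / ((k:ℝ) + 1) ≤ 5/4 := by
    rw [div_le_iff₀ h1]
    nlinarith [(Nat.cast_nonneg k : (0:ℝ) ≤ k)]
  nlinarith [(Nat.cast_nonneg k : (0:ℝ) ≤ k)]

lemma cX1_le (x : E) : ‖cX1 x‖ ≤ 5/4 * ‖x‖ := by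
  apply clm_le_of_columns
  · intro i
    rw [cX1_apply, pf_bs_s, map_zero, add_zero, bs_apply, norm_smul, norm_one, mul_one]
    split_ifs <;> norm_num
  · intro n
    rw [cX1_apply, pf_bs_f, bs_apply]
    simpa using J_mono_le n
  · intro n
    rw [cX1_apply, pf_bs_g, bs_apply]
    simp
    norm_num

lemma cZ1_le (x : E) : ‖cZ1 x‖ ≤ 5/4 * ‖x‖ := by
  apply clm_le_of_columns
  · intro i
    rw [cZ1_apply, pg_bs_s, map_zero, add_zero, bs_apply, norm_smul, norm_one, mul_one]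
    split_ifs <;> norm_num
  · intro n
    rw [cZ1_apply, pg_bs_f, bs_apply]
    simp
    norm_num
  · intro n
    rw [cZ1_apply, pg_bs_g, bs_apply]
    simpa using J_mono_le n

lemma cX_le (x : E) : ‖cX x‖ ≤ 5/4 * ‖x‖ := by
  apply clm_le_of_columns
  · intro i
    rw [cX_apply, pf_bs_s, map_zero, map_zero, add_zero, bs_apply, bs_apply]
    fin_cases i <;> simp [norm_wv] <;> norm_num
  · intro n
    rw [cX_apply, pf_bs_f, bs_apply, bs_apply]
    simpa using JJ_mono_le n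
  · intro n
    rw [cX_apply, pf_bs_g, bs_apply, bs_apply]
    simp
    norm_num

lemma cZ_le (x : E) : ‖cZ x‖ ≤ 5/4 * ‖x‖ := by
  apply clm_le_of_columns
  · intro i
    rw [cZ_apply, pg_bs_s, map_zero, map_zero, add_zero, bs_apply]
    fin_cases i <;> simp [norm_wv] <;> norm_num
  · intro n
    rw [cZ_apply, pg_bs_f, bs_apply]
    simp
    norm_num
  · intro n
    rw [cZ_apply, pg_bs_g, bs_apply]
    simpa using JJ_mono_le n

lemma cX2_le (x : E) : ‖cX2 x‖ ≤ 1 * ‖x‖ := by rw [one_mul]; exact pf_le x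
lemma cZ2_le (x : E) : ‖cZ2 x‖ ≤ 1 * ‖x‖ := by rw [one_mul]; exact pg_le x
lemma cA_le (x : E) : ‖cA x‖ ≤ 1 * ‖x‖ := by
  rw [cA_apply, norm_smul, norm_one, mul_one, one_mul]
  exact E_apply_le x _

/-- packing of a right-hand side divided by `1 - w²` -/
noncomputable def pk1 : B →L[ℝ] E :=
  ((evB 0) ∘L Gs).smulRight (bs (Sum.inl 0)) + (((4/5 : ℝ) • evB 1) ∘L Gs).smulRight (bs (Sum.inl 1))
    + jf ∘L Dv
/-- packing of a right-hand side divided by `1 - w²` -/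
noncomputable def pk2 : B →L[ℝ] E :=
  ((evB 0) ∘L Gs).smulRight (bs (Sum.inl 2)) + (((4/5 : ℝ) • evB 1) ∘L Gs).smulRight (bs (Sum.inl 3))
    + jg ∘L Dv

lemma pk1_apply (f : B) : pk1 f = (cf (Gs f) 0) • (bs (Sum.inl 0) : E)
    + (4/5 * cf (Gs f) 1) • (bs (Sum.inl 1) : E) + jf (Dv f) := rfl
lemma pk2_apply (f : B) : pk2 f = (cf (Gs f) 0) • (bs (Sum.inl 2) : E)
    + (4/5 * cf (Gs f) 1) • (bs (Sum.inl 3) : E) + jg (Dv f) := rfl

lemma pk1_le (f : B) : ‖pk1 f‖ ≤ 61/9 * ‖f‖ := by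
  rw [pk1_apply]
  have h1 := cf_le (Gs f) 0
  have h2 := cf_le (Gs f) 1
  have h3 := Gs_le f
  have h4 := Dv_le f
  have h5 := jf_le (Dv f)
  calc _ ≤ ‖(cf (Gs f) 0) • (bs (Sum.inl 0) : E)‖ + ‖(4/5 * cf (Gs f) 1) • (bs (Sum.inl 1) : E)‖
        + ‖jf (Dv f)‖ := norm_add₃_le
    _ ≤ ‖Gs f‖ + 4/5 * ‖Gs f‖ + 16/9 * ‖f‖ := by
        rw [norm_smul, norm_smul, bs_norm, bs_norm, mul_one, mul_one, Real.norm_eq_abs,
          Real.norm_eq_abs, abs_mul, abs_of_pos (by norm_num : (0:ℝ) < 4/5)]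
        linarith
    _ ≤ 61/9 * ‖f‖ := by linarith

lemma pk2_le (f : B) : ‖pk2 f‖ ≤ 61/9 * ‖f‖ := by
  rw [pk2_apply]
  have h1 := cf_le (Gs f) 0
  have h2 := cf_le (Gs f) 1
  have h3 := Gs_le f
  have h4 := Dv_le f
  have h5 := jg_le (Dv f)
  calc _ ≤ ‖(cf (Gs f) 0) • (bs (Sum.inl 2) : E)‖ + ‖(4/5 * cf (Gs f) 1) • (bs (Sum.inl 3) : E)‖
        + ‖jg (Dv f)‖ := norm_add₃_le
    _ ≤ ‖Gs f‖ + 4/5 * ‖Gs f‖ + 16/9 * ‖f‖ := by
        rw [norm_smul, norm_smul, bs_norm, bs_norm, mul_one, mul_one, Real.norm_eq_abs,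
          Real.norm_eq_abs, abs_mul, abs_of_pos (by norm_num : (0:ℝ) < 4/5)]
        linarith
    _ ≤ 61/9 * ‖f‖ := by linarith

/-! ### first order approximation calculus -/

/-- `F` is approximated by the linear map `dF` near `x0` -/
structure Ap (x0 : E) (r : ℝ) (F : E → B) (dF : E →L[ℝ] B) (M K L : ℝ) : Prop where
  M0 : 0 ≤ M
  K0 : 0 ≤ K
  L0 : 0 ≤ L
  bd : ∀ x ∈ Metric.closedBall x0 r, ‖F x‖ ≤ M
  lin : ∀ δ, ‖dF δ‖ ≤ K * ‖δ‖
  app : ∀ x ∈ Metric.closedBall x0 r, ∀ y ∈ Metric.closedBall x0 r,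
    ‖F x - F y - dF (x - y)‖ ≤ L * ‖x - y‖

section Ap
variable {x0 : E} {r : ℝ} (hr : 0 ≤ r)

lemma Ap.lip {F : E → B} {dF : E →L[ℝ] B} {M K L : ℝ} (h : Ap x0 r F dF M K L)
    {x y : E} (hx : x ∈ Metric.closedBall x0 r) (hy : y ∈ Metric.closedBall x0 r) :
    ‖F x - F y‖ ≤ (K + L) * ‖x - y‖ := by
  have e : F x - F y = (F x - F y - dF (x - y)) + dF (x - y) := by abel
  rw [e]
  refine (norm_add_le _ _).trans ?_
  have h1 := h.app x hx y hy
  have h2 := h.lin (x - y)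
  linarith

include hr in
lemma Ap.near {F : E → B} {dF : E →L[ℝ] B} {M K L : ℝ} (h : Ap x0 r F dF M K L)
    {x : E} (hx : x ∈ Metric.closedBall x0 r) : ‖F x - F x0‖ ≤ (K + L) * r := by
  have h1 := h.lip hx (Metric.mem_closedBall_self hr)
  rw [Metric.mem_closedBall, dist_eq_norm] at hx
  refine h1.trans ?_
  have := h.K0
  have := h.L0
  gcongr

lemma Ap.const (f : B) : Ap x0 r (fun _ => f) 0 ‖f‖ 0 0 where
  M0 := norm_nonneg _
  K0 := le_rfl
  L0 := le_rfl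
  bd := fun _ _ => le_rfl
  lin := by intro δ; simp
  app := by intro x _ y _; simp

lemma Ap.affine (c : B) (Λ : E →L[ℝ] B) {K M : ℝ} (hK : ∀ δ, ‖Λ δ‖ ≤ K * ‖δ‖) (hK0 : 0 ≤ K)
    (hM : ‖c + Λ x0‖ + K * r ≤ M) (hM0 : 0 ≤ M) : Ap x0 r (fun x => c + Λ x) Λ M K 0 where
  M0 := hM0
  K0 := hK0
  L0 := le_rfl
  bd := by
    intro x hx
    rw [Metric.mem_closedBall, dist_eq_norm] at hx
    have e : c + Λ x = (c + Λ x0) + Λ (x - x0) := by rw [map_sub]; abel
    rw [e]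
    refine (norm_add_le _ _).trans (le_trans ?_ hM)
    have := hK (x - x0)
    have h2 : K * ‖x - x0‖ ≤ K * r := by gcongr
    linarith
  lin := hK
  app := by
    intro x _ y _
    rw [map_sub]
    simp

lemma Ap.add {F G : E → B} {dF dG : E →L[ℝ] B} {M K L M' K' L' : ℝ}
    (hF : Ap x0 r F dF M K L) (hG : Ap x0 r G dG M' K' L') :
    Ap x0 r (fun x => F x + G x) (dF + dG) (M + M') (K + K') (L + L') where
  M0 := add_nonneg hF.M0 hG.M0
  K0 := add_nonneg hF.K0 hG.K0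
  L0 := add_nonneg hF.L0 hG.L0
  bd := fun x hx => (norm_add_le _ _).trans (add_le_add (hF.bd x hx) (hG.bd x hx))
  lin := by
    intro δ
    have h1 := hF.lin δ
    have h2 := hG.lin δ
    refine (norm_add_le (dF δ) (dG δ)).trans ?_
    linarith
  app := by
    intro x hx y hy
    have h1 := hF.app x hx y hy
    have h2 := hG.app x hx y hy
    have e : F x + G x - (F y + G y) - (dF + dG) (x - y)
        = (F x - F y - dF (x - y)) + (G x - G y - dG (x - y)) := by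
      rw [add_apply]; abel
    rw [e]
    refine (norm_add_le _ _).trans ?_
    linarith

lemma Ap.smul {F : E → B} {dF : E →L[ℝ] B} {M K L : ℝ} (c : ℝ)
    (hF : Ap x0 r F dF M K L) :
    Ap x0 r (fun x => c • F x) (c • dF) (|c| * M) (|c| * K) (|c| * L) where
  M0 := mul_nonneg (abs_nonneg _) hF.M0
  K0 := mul_nonneg (abs_nonneg _) hF.K0
  L0 := mul_nonneg (abs_nonneg _) hF.L0
  bd := by
    intro x hx
    rw [norm_smul, Real.norm_eq_abs]
    exact mul_le_mul_of_nonneg_left (hF.bd x hx) (abs_nonneg _)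
  lin := by
    intro δ
    have e : (c • dF) δ = c • dF δ := rfl
    rw [e, norm_smul, Real.norm_eq_abs, mul_assoc]
    exact mul_le_mul_of_nonneg_left (hF.lin δ) (abs_nonneg _)
  app := by
    intro x hx y hy
    have e : c • F x - c • F y - (c • dF) (x - y) = c • (F x - F y - dF (x - y)) := by
      have e' : (c • dF) (x - y) = c • dF (x - y) := rfl
      rw [e', smul_sub, smul_sub]
    rw [e, norm_smul, Real.norm_eq_abs, mul_assoc]
    exact mul_le_mul_of_nonneg_left (hF.app x hx y hy) (abs_nonneg _)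

include hr in
lemma Ap.mul {F G : E → B} {dF dG : E →L[ℝ] B} {M K L M' K' L' : ℝ}
    (hF : Ap x0 r F dF M K L) (hG : Ap x0 r G dG M' K' L') :
    Ap x0 r (fun x => F x * G x) (mulc (G x0) ∘L dF + mulc (F x0) ∘L dG)
      (M * M') (K * M' + M * K')
      (L * M' + K * ((K' + L') * r) + (M * L' + (K + L) * r * K')) where
  M0 := mul_nonneg hF.M0 hG.M0
  K0 := add_nonneg (mul_nonneg hF.K0 hG.M0) (mul_nonneg hF.M0 hG.K0)
  L0 := by
    have := hF.M0; have := hF.K0; have := hF.L0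
    have := hG.M0; have := hG.K0; have := hG.L0
    positivity
  bd := fun x hx => (norm_mul_le _ _).trans
    (mul_le_mul (hF.bd x hx) (hG.bd x hx) (norm_nonneg _) hF.M0)
  lin := by
    intro δ
    have hx0 : x0 ∈ Metric.closedBall x0 r := Metric.mem_closedBall_self hr
    have e : (mulc (G x0) ∘L dF + mulc (F x0) ∘L dG) δ = G x0 * dF δ + F x0 * dG δ := rfl
    rw [e]
    have h1 : ‖G x0 * dF δ‖ ≤ M' * (K * ‖δ‖) := (norm_mul_le _ _).trans
      (mul_le_mul (hG.bd x0 hx0) (hF.lin δ) (norm_nonneg _) hG.M0)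
    have h2 : ‖F x0 * dG δ‖ ≤ M * (K' * ‖δ‖) := (norm_mul_le _ _).trans
      (mul_le_mul (hF.bd x0 hx0) (hG.lin δ) (norm_nonneg _) hF.M0)
    refine (norm_add_le _ _).trans ?_
    linarith
  app := by
    intro x hx y hy
    have e0 : (mulc (G x0) ∘L dF + mulc (F x0) ∘L dG) (x - y)
        = G x0 * dF (x - y) + F x0 * dG (x - y) := rfl
    have e : F x * G x - F y * G y - (G x0 * dF (x - y) + F x0 * dG (x - y))
        = (F x - F y - dF (x - y)) * G x + dF (x - y) * (G x - G x0)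
          + (F y * (G x - G y - dG (x - y)) + (F y - F x0) * dG (x - y)) := by ring
    rw [e0, e]
    have hM := hF.M0; have hK := hF.K0; have hL := hF.L0
    have hM' := hG.M0; have hK' := hG.K0; have hL' := hG.L0
    have h1 : ‖(F x - F y - dF (x - y)) * G x‖ ≤ (L * ‖x - y‖) * M' :=
      (norm_mul_le _ _).trans
        (mul_le_mul (hF.app x hx y hy) (hG.bd x hx) (norm_nonneg _) (by positivity))
    have h2 : ‖dF (x - y) * (G x - G x0)‖ ≤ (K * ‖x - y‖) * ((K' + L') * r) :=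
      (norm_mul_le _ _).trans
        (mul_le_mul (hF.lin _) (hG.near hr hx) (norm_nonneg _) (by positivity))
    have h3 : ‖F y * (G x - G y - dG (x - y))‖ ≤ M * (L' * ‖x - y‖) :=
      (norm_mul_le _ _).trans
        (mul_le_mul (hF.bd y hy) (hG.app x hx y hy) (norm_nonneg _) hM)
    have h4 : ‖(F y - F x0) * dG (x - y)‖ ≤ ((K + L) * r) * (K' * ‖x - y‖) :=
      (norm_mul_le _ _).trans
        (mul_le_mul (hF.near hr hy) (hG.lin _) (norm_nonneg _) (by positivity))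
    refine (norm_add_le _ _).trans ?_
    have h12 := norm_add_le ((F x - F y - dF (x - y)) * G x) (dF (x - y) * (G x - G x0))
    have h34 := norm_add_le (F y * (G x - G y - dG (x - y))) ((F y - F x0) * dG (x - y))
    nlinarith [h1, h2, h3, h4, h12, h34]

lemma Ap.cmul {F : E → B} {dF : E →L[ℝ] B} {M K L : ℝ} (c : B) {C : ℝ} (hc : ‖c‖ ≤ C)
    (hF : Ap x0 r F dF M K L) :
    Ap x0 r (fun x => c * F x) (mulc c ∘L dF) (C * M) (C * K) (C * L) where
  M0 := mul_nonneg ((norm_nonneg _).trans hc) hF.M0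
  K0 := mul_nonneg ((norm_nonneg _).trans hc) hF.K0
  L0 := mul_nonneg ((norm_nonneg _).trans hc) hF.L0
  bd := fun x hx => (norm_mul_le _ _).trans
    (mul_le_mul hc (hF.bd x hx) (norm_nonneg _) ((norm_nonneg _).trans hc))
  lin := by
    intro δ
    have e : (mulc c ∘L dF) δ = c * dF δ := rfl
    rw [e, mul_assoc]
    exact (norm_mul_le _ _).trans
      (mul_le_mul hc (hF.lin δ) (norm_nonneg _) ((norm_nonneg _).trans hc))
  app := by
    intro x hx y hy
    have e0 : (mulc c ∘L dF) (x - y) = c * dF (x - y) := rfl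
    have e : c * F x - c * F y - c * dF (x - y) = c * (F x - F y - dF (x - y)) := by ring
    rw [e0, e, mul_assoc]
    exact (norm_mul_le _ _).trans
      (mul_le_mul hc (hF.app x hx y hy) (norm_nonneg _) ((norm_nonneg _).trans hc))

lemma Ap.mono {F : E → B} {dF : E →L[ℝ] B} {M K L M' K' L' : ℝ}
    (hF : Ap x0 r F dF M K L) (h1 : M ≤ M') (h2 : K ≤ K') (h3 : L ≤ L') :
    Ap x0 r F dF M' K' L' where
  M0 := hF.M0.trans h1
  K0 := hF.K0.trans h2
  L0 := hF.L0.trans h3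
  bd := fun x hx => (hF.bd x hx).trans h1
  lin := fun δ => (hF.lin δ).trans (mul_le_mul_of_nonneg_right h2 (norm_nonneg _))
  app := fun x hx y hy => (hF.app x hx y hy).trans (mul_le_mul_of_nonneg_right h3 (norm_nonneg _))

end Ap

end Pool.Agent.H733R2
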