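import Pool.Agent.H733R2.Space

set_option autoImplicit false

open Finset

namespace Pool.Agent.H733R2

theorem newton {V : Type*} [NormedAddCommGroup V] [NormedSpace ℝ V] [CompleteSpace V]
    (G : V → V) (DG A : V →L[ℝ] V) (x0 : V) (r κ a L Y : ℝ)
    (hA_inj : ∀ x, A x = 0 → x = 0)
    (h1 : ∀ δ, ‖δ - A (DG δ)‖ ≤ κ * ‖δ‖) (hA : ∀ x, ‖A x‖ ≤ a * ‖x‖)
    (h2 : ∀ x ∈ Metric.closedBall x0 r, ∀ y ∈ Metric.closedBall x0 r,
      ‖G x - G y - DG (x - y)‖ ≤ L * ‖x - y‖)
    (hY : ‖A (G x0)‖ ≤ Y) (ha : 0 ≤ a) (hκ0 : 0 ≤ κ) (hL : 0 ≤ L) (hκ : κ + a * L < 1)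
    (hr : Y + (κ + a * L) * r ≤ r) (hr0 : 0 ≤ r) :
    ∃ x ∈ Metric.closedBall x0 r, G x = 0 := by
  let T : V → V := fun x => x - A (G x)
  have hT : ∀ x ∈ Metric.closedBall x0 r, ∀ y ∈ Metric.closedBall x0 r,
      ‖T x - T y‖ ≤ (κ + a * L) * ‖x - y‖ := by
    intro x hx y hy
    have e : T x - T y = ((x - y) - A (DG (x - y))) - A (G x - G y - DG (x - y)) := by
      simp only [T, map_sub]
      abel
    rw [e]
    calc ‖((x - y) - A (DG (x - y))) - A (G x - G y - DG (x - y))‖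
        ≤ ‖(x - y) - A (DG (x - y))‖ + ‖A (G x - G y - DG (x - y))‖ := norm_sub_le _ _
      _ ≤ κ * ‖x - y‖ + a * (L * ‖x - y‖) := by
          gcongr
          · exact h1 _
          · refine (hA _).trans ?_
            gcongr
            exact h2 x hx y hy
      _ = (κ + a * L) * ‖x - y‖ := by ring
  have hx0 : x0 ∈ Metric.closedBall x0 r := Metric.mem_closedBall_self hr0
  have hmaps : Set.MapsTo T (Metric.closedBall x0 r) (Metric.closedBall x0 r) := by
    intro x hx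
    rw [Metric.mem_closedBall, dist_eq_norm] at hx ⊢
    have e : T x - x0 = (T x - T x0) - A (G x0) := by
      simp only [T]; abel
    rw [e]
    calc ‖(T x - T x0) - A (G x0)‖ ≤ ‖T x - T x0‖ + ‖A (G x0)‖ := norm_sub_le _ _
      _ ≤ (κ + a * L) * ‖x - x0‖ + Y := by
          gcongr
          exact hT x (by rw [Metric.mem_closedBall, dist_eq_norm]; exact hx) x0 hx0
      _ ≤ (κ + a * L) * r + Y := by gcongr
      _ ≤ r := by linarith
  let K : NNReal := ⟨κ + a * L, by positivity⟩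
  have hK : K < 1 := by
    rw [← NNReal.coe_lt_coe]
    exact hκ
  have hcontr : ContractingWith K (hmaps.restrict T _ _) := by
    refine ⟨hK, ?_⟩
    apply LipschitzWith.of_dist_le_mul
    rintro ⟨x, hx⟩ ⟨y, hy⟩
    rw [Subtype.dist_eq, Subtype.dist_eq]
    simp only [Set.MapsTo.val_restrict_apply]
    rw [dist_eq_norm, dist_eq_norm]
    exact hT x hx y hy
  obtain ⟨y, hy, hfix, -⟩ := ContractingWith.exists_fixedPoint'
    (Metric.isClosed_closedBall.isComplete) hmaps hcontr hx0 (edist_ne_top _ _)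
  refine ⟨y, hy, ?_⟩
  have h3 : y - A (G y) = y := hfix
  have h4 : A (G y) = 0 := by
    have : A (G y) = y - (y - A (G y)) := by abel
    rw [this, h3, sub_self]
  exact hA_inj _ h4

/-- evaluation at an index -/
noncomputable def evE (i : Idx) : E →L[ℝ] ℝ :=
  LinearMap.mkContinuous
    { toFun := fun x => x i
      map_add' := by intro x y; rfl
      map_smul' := by intro c x; rfl } 1 (by
        intro x
        rw [one_mul]
        exact E_apply_le x _)

@[simp] lemma evE_apply (i : Idx) (x : E) : evE i x = x i := rfl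

section head
variable {M : ℕ} (h : Fin M → Idx) (ω : Fin M → ℝ) (Q : Matrix (Fin M) (Fin M) ℝ)

/-- head coordinates -/
noncomputable def Phi : E →L[ℝ] (Fin M → ℝ) :=
  ContinuousLinearMap.pi (fun k => (ω k)⁻¹ • evE (h k))

/-- from head coordinates -/
noncomputable def Psi : (Fin M → ℝ) →L[ℝ] E :=
  ∑ k, (ω k) • (ContinuousLinearMap.proj (R := ℝ) (φ := fun _ : Fin M => ℝ) k).smulRight (bs (h k))

lemma Phi_apply (x : E) (k : Fin M) : Phi h ω x k = (ω k)⁻¹ * x (h k) := rfl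

lemma Psi_apply (v : Fin M → ℝ) : Psi h ω v = ∑ k, (ω k * v k) • (bs (h k) : E) := by
  simp only [Psi, ContinuousLinearMap.sum_apply, ContinuousLinearMap.smul_apply,
    ContinuousLinearMap.smulRight_apply, ContinuousLinearMap.proj_apply, smul_smul]

/-- approximate inverse -/
noncomputable def Aop : E →L[ℝ] E :=
  1 - (Psi h ω) ∘L (Phi h ω) + (Psi h ω) ∘L (LinearMap.toContinuousLinearMap (Matrix.toLin' Q)) ∘L (Phi h ω)

lemma Aop_apply (x : E) :
    Aop h ω Q x = x - Psi h ω (Phi h ω x) + Psi h ω (Q.mulVec (Phi h ω x)) := by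
  simp [Aop]

lemma E_sum_apply {α : Type} (s : Finset α) (f : α → E) (i : Idx) :
    (∑ k ∈ s, f k) i = ∑ k ∈ s, f k i := by
  have := congrFun (lp.coeFn_sum f s) i
  simpa using this

variable (hinj : Function.Injective h) (hω : ∀ k, 0 < ω k)

include hinj hω in
lemma Phi_Psi (v : Fin M → ℝ) : Phi h ω (Psi h ω v) = v := by
  funext k
  rw [Phi_apply, Psi_apply, E_sum_apply]
  have : ∀ l, ((ω l * v l) • (bs (h l) : E)) (h k) = if l = k then ω k * v k else 0 := by
    intro l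
    change (ω l * v l) * ((bs (h l) : E) (h k)) = _
    rw [bs_apply]
    by_cases hlk : l = k
    · subst hlk; simp
    · have : h k ≠ h l := fun e => hlk (hinj e).symm
      simp [hlk, this]
  rw [Finset.sum_congr rfl (fun l _ => this l)]
  have h0 := (hω k).ne'
  simp
  field_simp

include hinj hω in
lemma Aop_injective (DG : E →L[ℝ] E) (κ : ℝ) (hκ : κ < 1)
    (h1 : ∀ δ, ‖δ - Aop h ω Q (DG δ)‖ ≤ κ * ‖δ‖) (hκ0 : 0 ≤ κ) :
    ∀ x, Aop h ω Q x = 0 → x = 0 := by
  have hn : ‖(1 : E →L[ℝ] E) - (Aop h ω Q) ∘L DG‖ < 1 := by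
    refine lt_of_le_of_lt ?_ hκ
    apply ContinuousLinearMap.opNorm_le_bound _ hκ0
    intro x
    exact h1 x
  obtain ⟨U, hU⟩ : ∃ U : (E →L[ℝ] E)ˣ, (U : E →L[ℝ] E) = (Aop h ω Q) ∘L DG := by
    refine ⟨Units.oneSub _ hn, ?_⟩
    simp [Units.val_oneSub]
  have hsurj : ∀ z : E, ∃ y : E, Aop h ω Q y = z := by
    intro z
    refine ⟨DG ((↑U⁻¹ : E →L[ℝ] E) z), ?_⟩
    have h2 : (U : E →L[ℝ] E) ((↑U⁻¹ : E →L[ℝ] E) z) = z := by
      have h3 := U.mul_inv
      have h4 := congrArg (fun L : E →L[ℝ] E => L z) h3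
      exact h4
    rw [hU] at h2
    exact h2
  have hPA : ∀ x, Phi h ω (Aop h ω Q x) = Q.mulVec (Phi h ω x) := by
    intro x
    rw [Aop_apply, map_add, map_sub, Phi_Psi h ω hinj hω, Phi_Psi h ω hinj hω]
    simp
  have hQs : Function.Surjective (Matrix.toLin' Q) := by
    intro v
    obtain ⟨y, hy⟩ := hsurj (Psi h ω v)
    refine ⟨Phi h ω y, ?_⟩
    rw [Matrix.toLin'_apply, ← hPA, hy, Phi_Psi h ω hinj hω]
  have hQi : Function.Injective (Matrix.toLin' Q) := LinearMap.injective_iff_surjective.2 hQs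
  intro x hx
  have h5 : Phi h ω x = 0 := by
    apply hQi
    rw [Matrix.toLin'_apply, ← hPA, hx]
    simp
  rw [Aop_apply, h5] at hx
  simpa using hx

end head

end Pool.Agent.H733R2
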