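import Pool.Agent.H733R2.Wiener

set_option autoImplicit false

open Finset

namespace Pool.Agent.H733R2

/-- the variable `w` (scaled: the weight is `5/4`) -/
noncomputable def wv : B := mono (5/4) 1

/-- integration -/
noncomputable def Jfun (f : B) : ℕ → ℝ := fun n => Nat.casesOn n 0 (fun m => (5/4) * cf f m / (m + 1))

lemma Jfun_succ (f : B) (m : ℕ) : Jfun f (m + 1) = (5/4) * cf f m / (m + 1) := rfl
lemma Jfun_zero (f : B) : Jfun f 0 = 0 := rfl

lemma Jfun_abs_le (f : B) (m : ℕ) : |Jfun f (m + 1)| ≤ (5/4) * |cf f m| := by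
  rw [Jfun_succ, abs_div, abs_mul]
  have h1 : (0:ℝ) < (m:ℝ) + 1 := by positivity
  rw [abs_of_pos h1, abs_of_pos (by norm_num : (0:ℝ) < 5/4), div_le_iff₀ h1]
  have h2 : (1:ℝ) ≤ (m:ℝ) + 1 := by linarith [(Nat.cast_nonneg m : (0:ℝ) ≤ m)]
  nlinarith [abs_nonneg (cf f m)]

lemma Jfun_summable (f : B) : Summable fun n => |Jfun f n| := by
  rw [← summable_nat_add_iff 1]
  exact Summable.of_nonneg_of_le (fun _ => abs_nonneg _) (fun m => Jfun_abs_le f m)
    ((B_summable f).mul_left _)

/-- integration operator -/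
noncomputable def J : B →L[ℝ] B :=
  LinearMap.mkContinuous
    { toFun := fun f => mkB (Jfun f) (Jfun_summable f)
      map_add' := by
        intro f g
        apply B.ext
        intro n
        cases n with
        | zero => simp [Jfun_zero]
        | succ m => simp [Jfun_succ]; ring
      map_smul' := by
        intro c f
        apply B.ext
        intro n
        cases n with
        | zero => simp [Jfun_zero]
        | succ m => simp [Jfun_succ]; ring } (5/4) (by
        intro f
        change ‖mkB (Jfun f) (Jfun_summable f)‖ ≤ 5/4 * ‖f‖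
        rw [B_norm, B_norm f, ← tsum_mul_left]
        rw [(by simpa using Jfun_summable f : Summable fun n => |cf (mkB (Jfun f) (Jfun_summable f)) n|).tsum_eq_zero_add]
        simp only [cf_mkB, Jfun_zero, abs_zero, zero_add]
        exact Summable.tsum_le_tsum (fun m => Jfun_abs_le f m)
          ((summable_nat_add_iff 1).2 (Jfun_summable f)) ((B_summable f).mul_left _))

lemma J_le (f : B) : ‖J f‖ ≤ 5/4 * ‖f‖ := by
  have := J.le_opNorm f
  refine this.trans ?_
  gcongr
  exact LinearMap.mkContinuous_norm_le _ (by norm_num) _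

@[simp] lemma cf_J_zero (f : B) : cf (J f) 0 = 0 := rfl
lemma cf_J_succ (f : B) (m : ℕ) : cf (J f) (m + 1) = (5/4) * cf f m / (m + 1) := rfl

lemma T2_summable (f : B) : Summable fun n => |(16/25) * cf f (n + 2)| := by
  have := ((summable_nat_add_iff 2).2 (B_summable f)).mul_left (16/25)
  refine this.congr ?_
  intro n
  rw [abs_mul, abs_of_pos (by norm_num : (0:ℝ) < 16/25)]

lemma T2_norm_aux (f : B) : ‖mkB (fun n => (16/25) * cf f (n + 2)) (T2_summable f)‖ ≤ 16/25 * ‖f‖ := by
  rw [B_norm, B_norm f]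
  have h1 : ∀ n, |cf (mkB (fun n => (16/25) * cf f (n + 2)) (T2_summable f)) n|
      = (16/25) * |cf f (n + 2)| := by
    intro n
    rw [cf_mkB, abs_mul, abs_of_pos (by norm_num : (0:ℝ) < 16/25)]
  rw [tsum_congr h1, tsum_mul_left]
  have h2 := (B_summable f).sum_add_tsum_nat_add 2
  have h3 : 0 ≤ ∑ i ∈ range 2, |cf f i| := Finset.sum_nonneg (fun _ _ => abs_nonneg _)
  exact mul_le_mul_of_nonneg_left (by linarith) (by norm_num)

/-- scaled double left shift -/
noncomputable def T2 : B →L[ℝ] B :=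
  LinearMap.mkContinuous
    { toFun := fun f => mkB (fun n => (16/25) * cf f (n + 2)) (T2_summable f)
      map_add' := by
        intro f g
        apply B.ext
        intro n
        simp; ring
      map_smul' := by
        intro c f
        apply B.ext
        intro n
        simp; ring } (16/25) T2_norm_aux

lemma T2_le (f : B) : ‖T2 f‖ ≤ 16/25 * ‖f‖ := by
  have := T2.le_opNorm f
  refine this.trans ?_
  gcongr
  exact LinearMap.mkContinuous_norm_le _ (by norm_num) _

lemma norm_T2 : ‖T2‖ ≤ 16/25 := LinearMap.mkContinuous_norm_le _ (by norm_num) _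

@[simp] lemma cf_T2 (f : B) (n : ℕ) : cf (T2 f) n = (16/25) * cf f (n + 2) := rfl

/-- the summation operator `(1 - T2)⁻¹` -/
noncomputable def Gs : B →L[ℝ] B :=
  ((Units.oneSub T2 (lt_of_le_of_lt norm_T2 (by norm_num)))⁻¹ : (B →L[ℝ] B)ˣ)

lemma Gs_spec1 (f : B) : Gs f - T2 (Gs f) = f := by
  have h := (Units.oneSub T2 (lt_of_le_of_lt norm_T2 (by norm_num))).mul_inv
  have h2 := congrArg (fun L : B →L[ℝ] B => L f) h
  exact h2

lemma Gs_spec2 (f : B) : Gs (f - T2 f) = f := by
  have h := (Units.oneSub T2 (lt_of_le_of_lt norm_T2 (by norm_num))).inv_mul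
  have h2 := congrArg (fun L : B →L[ℝ] B => L f) h
  exact h2

lemma Gs_eq {f g : B} (h : g - T2 g = f) : Gs f = g := by
  rw [← h, Gs_spec2]

lemma Gs_le (f : B) : ‖Gs f‖ ≤ 25/9 * ‖f‖ := by
  have h := Gs_spec1 f
  have h1 : Gs f = f + T2 (Gs f) := by
    rw [sub_eq_iff_eq_add] at h
    exact h
  have h2 : ‖Gs f‖ ≤ ‖f‖ + 16/25 * ‖Gs f‖ := by
    calc ‖Gs f‖ = ‖f + T2 (Gs f)‖ := by rw [← h1]
      _ ≤ ‖f‖ + ‖T2 (Gs f)‖ := norm_add_le _ _
      _ ≤ ‖f‖ + 16/25 * ‖Gs f‖ := by gcongr; exact T2_le _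
  linarith

/-- division by `1 - w²` (up to the remainders) -/
noncomputable def Dv : B →L[ℝ] B := 1 - Gs

lemma Dv_apply (f : B) : Dv f = f - Gs f := rfl

lemma Dv_eq (f : B) : Dv f = - T2 (Gs f) := by
  rw [Dv_apply]
  have h := Gs_spec1 f
  have : f = Gs f - T2 (Gs f) := h.symm
  nth_rewrite 1 [this]
  abel

lemma Dv_le (f : B) : ‖Dv f‖ ≤ 16/9 * ‖f‖ := by
  rw [Dv_eq, norm_neg]
  have h1 := T2_le (Gs f)
  have h2 := Gs_le f
  linarith

/-- constants -/
lemma algebraMap_eq (c : ℝ) : algebraMap ℝ B c = mono c 0 := by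
  rw [Algebra.algebraMap_eq_smul_one]
  apply B.ext
  intro n
  simp [cf_one]

lemma mono_mul (c d : ℝ) (k l : ℕ) : mono c k * mono d l = mono (c * d) (k + l) := by
  apply toPS_inj
  have h : ∀ (c : ℝ) (k : ℕ), toPS (mono c k) = PowerSeries.monomial k c := by
    intro c k
    ext n
    simp [toPS, PowerSeries.coeff_monomial]
  rw [toPS_mul, h, h, h, PowerSeries.monomial_mul_monomial]

lemma cf_wv_mul (f : B) (n : ℕ) : cf (wv * f) (n + 1) = (5/4) * cf f n := by
  rw [cf_mul, Finset.sum_eq_single (1, n)]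
  · simp [wv]
  · rintro ⟨i, j⟩ hij hne
    simp only [HasAntidiagonal.mem_antidiagonal] at hij
    simp only [wv, cf_mono]
    by_cases hi : i = 1
    · exfalso; apply hne; subst hi; simp; omega
    · simp [hi]
  · intro h
    exfalso; apply h
    simp [add_comm]

lemma cf_wv_mul_zero (f : B) : cf (wv * f) 0 = 0 := by
  rw [cf_mul]
  simp [wv]

/-- division with remainder by `1 - w²` -/
lemma Dv_identity (f : B) :
    f = (1 - wv * wv) * Dv f + algebraMap ℝ B (cf (Gs f) 0) + (4/5 * cf (Gs f) 1) • wv := by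
  have h0 : ∀ n, cf f n = cf (Gs f) n - 16/25 * cf (Gs f) (n + 2) := by
    intro n
    have := congrArg (fun g => cf g n) (Gs_spec1 f)
    simp only [cf_sub, cf_T2] at this
    exact this.symm
  apply B.ext
  intro n
  have e : (1 - wv * wv) * Dv f = Dv f - wv * (wv * Dv f) := by ring
  rw [e, algebraMap_eq]
  simp only [cf_add, cf_sub, cf_mono, cf_smul]
  match n with
  | 0 =>
    rw [cf_wv_mul_zero, Dv_apply, cf_sub]
    simp [wv]
  | 1 =>
    rw [cf_wv_mul, cf_wv_mul_zero, Dv_apply, cf_sub]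
    simp [wv]
    ring
  | (m + 2) =>
    rw [cf_wv_mul, cf_wv_mul, Dv_eq, cf_neg, cf_neg, cf_T2, cf_T2, h0 (m + 2)]
    simp [wv]
    ring

lemma J_one : J 1 = wv := by
  apply B.ext
  intro n
  cases n with
  | zero => simp [wv]
  | succ m =>
    rw [cf_J_succ, cf_one]
    simp only [wv, cf_mono]
    by_cases h : m = 0
    · subst h; simp
    · simp [h]

lemma J_mono (c : ℝ) (k : ℕ) : J (mono c k) = mono (5/4 * c / (k + 1)) (k + 1) := by
  apply B.ext
  intro n
  cases n with
  | zero => simp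
  | succ m =>
    rw [cf_J_succ]
    simp only [cf_mono]
    by_cases h : m = k
    · subst h; simp
    · simp [h]

end Pool.Agent.H733R2
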