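import Pool.Agent.H733R2.Ops

set_option autoImplicit false

open Finset

namespace Pool.Agent.H733R2

lemma l1_le_of_tsum {ι : Type} {f : L1 ι} {C : ℝ} (h : ∑' i, |f i| ≤ C) : ‖f‖ ≤ C := by
  rw [l1_norm]; exact h

section pullpush
variable {κ ι : Type} (g : κ → ι) (hg : Function.Injective g)

/-- pull back along an injective map -/
noncomputable def pull : L1 ι →L[ℝ] L1 κ :=
  LinearMap.mkContinuous
    { toFun := fun x => mkL1 (fun k => x (g k)) ((l1_summable x).comp_injective hg)
      map_add' := by intro x y; apply lp.ext; funext k; rfl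
      map_smul' := by intro c x; apply lp.ext; funext k; rfl } 1 (by
        intro x
        rw [one_mul]
        change ‖mkL1 (fun k => x (g k)) ((l1_summable x).comp_injective hg)‖ ≤ ‖x‖
        rw [l1_norm, l1_norm]
        exact tsum_comp_le_tsum_of_inj (l1_summable x) (fun _ => abs_nonneg _) hg)

@[simp] lemma pull_apply (x : L1 ι) (k : κ) : pull g hg x k = x (g k) := rfl

lemma pull_le (x : L1 ι) : ‖pull g hg x‖ ≤ ‖x‖ := by
  have := (pull g hg).le_opNorm x
  refine this.trans ?_
  have h : ‖pull g hg‖ ≤ 1 := LinearMap.mkContinuous_norm_le _ (by norm_num) _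
  calc _ ≤ 1 * ‖x‖ := by gcongr
    _ = ‖x‖ := one_mul _

/-- extension by zero -/
noncomputable def extz (f : κ → ℝ) : ι → ℝ := Function.extend g f 0

include hg in
lemma extz_apply (f : κ → ℝ) (k : κ) : extz g f (g k) = f k := hg.extend_apply f 0 k

lemma extz_of_not (f : κ → ℝ) (i : ι) (hi : i ∉ Set.range g) : extz g f i = 0 := by
  unfold extz
  rw [Function.extend_apply']
  · rfl
  · intro ⟨k, hk⟩; exact hi ⟨k, hk⟩

include hg in
lemma extz_summable (f : L1 κ) : Summable fun i => |extz g f i| := by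
  rw [← hg.summable_iff]
  · refine (l1_summable f).congr ?_
    intro k
    simp only [Function.comp]
    rw [extz_apply g hg]
  · intro i hi
    rw [extz_of_not g _ i hi, abs_zero]

include hg in
lemma extz_tsum (f : L1 κ) : ∑' i, |extz g f i| = ∑' k, |f k| := by
  rw [← hg.tsum_eq]
  · apply tsum_congr
    intro k
    rw [extz_apply g hg]
  · intro i hi
    by_contra h
    apply hi
    show |extz g (⇑f) i| = 0
    rw [extz_of_not g _ i h, abs_zero]

/-- push forward along an injective map -/
noncomputable def push : L1 κ →L[ℝ] L1 ι :=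
  LinearMap.mkContinuous
    { toFun := fun f => mkL1 (extz g f) (extz_summable g hg f)
      map_add' := by
        intro x y; apply lp.ext; funext i
        change extz g (fun k => x k + y k) i = extz g x i + extz g y i
        by_cases hi : i ∈ Set.range g
        · obtain ⟨k, rfl⟩ := hi
          simp only [extz_apply g hg]
        · simp only [extz_of_not g _ i hi]; simp
      map_smul' := by
        intro c x; apply lp.ext; funext i
        change extz g (fun k => c * x k) i = c * extz g x i
        by_cases hi : i ∈ Set.range g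
        · obtain ⟨k, rfl⟩ := hi
          simp only [extz_apply g hg]
        · simp only [extz_of_not g _ i hi]; simp } 1 (by
        intro x
        rw [one_mul]
        change ‖mkL1 (extz g x) (extz_summable g hg x)‖ ≤ ‖x‖
        rw [l1_norm, l1_norm]
        exact (extz_tsum g hg x).le)

lemma push_apply (f : L1 κ) (k : κ) : push g hg f (g k) = f k := extz_apply g hg f k

lemma push_apply_not (f : L1 κ) (i : ι) (hi : i ∉ Set.range g) : push g hg f i = 0 :=
  extz_of_not g f i hi

lemma push_le (f : L1 κ) : ‖push g hg f‖ ≤ ‖f‖ := by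
  have := (push g hg).le_opNorm f
  refine this.trans ?_
  have h : ‖push g hg‖ ≤ 1 := LinearMap.mkContinuous_norm_le _ (by norm_num) _
  calc _ ≤ 1 * ‖f‖ := by gcongr
    _ = ‖f‖ := one_mul _

end pullpush

/-- basis vector -/
noncomputable def bs {ι : Type} [DecidableEq ι] (i : ι) : L1 ι :=
  lp.single (E := fun _ : ι => ℝ) 1 i (1:ℝ)

lemma bs_apply {ι : Type} [DecidableEq ι] (i j : ι) : (bs i : L1 ι) j = if j = i then 1 else 0 := by
  unfold bs
  rw [lp.single_apply]
  simp [Pi.single_apply]

lemma bs_norm {ι : Type} [DecidableEq ι] (i : ι) : ‖(bs i : L1 ι)‖ = 1 := by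
  unfold bs
  rw [lp.norm_single (by norm_num)]
  simp

/-- operator norm via columns -/
lemma norm_le_of_columns {ι : Type} [DecidableEq ι] {F : Type*} [NormedAddCommGroup F]
    [NormedSpace ℝ F] (Λ : L1 ι →L[ℝ] F) (K : ℝ) (h : ∀ i, ‖Λ (bs i)‖ ≤ K) (x : L1 ι) :
    ‖Λ x‖ ≤ K * ‖x‖ := by
  have h1 : HasSum (fun i => lp.single (E := fun _ : ι => ℝ) 1 i (x i)) x :=
    lp.hasSum_single (by norm_num) x
  have h2 := Λ.hasSum h1
  have h3 : ∀ i, Λ (lp.single (E := fun _ : ι => ℝ) 1 i (x i)) = x i • Λ (bs i) := by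
    intro i
    rw [← Λ.map_smul]
    congr 1
    unfold bs
    rw [← lp.single_smul]
    simp
  simp only [h3] at h2
  have h4 : Summable fun i => K * |x i| := (l1_summable x).mul_left K
  have h5 : ‖∑' i, x i • Λ (bs i)‖ ≤ ∑' i, K * |x i| := by
    apply tsum_of_norm_bounded h4.hasSum
    intro i
    rw [norm_smul, Real.norm_eq_abs, mul_comm]
    exact mul_le_mul_of_nonneg_right (h i) (abs_nonneg _)
  rw [h2.tsum_eq, tsum_mul_left, ← l1_norm] at h5
  exact h5

/-- index set of the unknowns: 4 scalars and 2 sequences -/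
abbrev Idx : Type := Fin 4 ⊕ (ℕ ⊕ ℕ)

/-- the space of unknowns -/
abbrev E : Type := L1 Idx

lemma injf : Function.Injective (fun n : ℕ => (Sum.inr (Sum.inl n) : Idx)) := by
  intro a b h; simpa using h
lemma injg : Function.Injective (fun n : ℕ => (Sum.inr (Sum.inr n) : Idx)) := by
  intro a b h; simpa using h

/-- first sequence -/
noncomputable def pf : E →L[ℝ] B := pull (fun n : ℕ => (Sum.inr (Sum.inl n) : Idx)) injf
/-- second sequence -/
noncomputable def pg : E →L[ℝ] B := pull (fun n : ℕ => (Sum.inr (Sum.inr n) : Idx)) injg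
/-- first sequence -/
noncomputable def jf : B →L[ℝ] E := push (fun n : ℕ => (Sum.inr (Sum.inl n) : Idx)) injf
/-- second sequence -/
noncomputable def jg : B →L[ℝ] E := push (fun n : ℕ => (Sum.inr (Sum.inr n) : Idx)) injg

lemma cf_pf (x : E) (n : ℕ) : cf (pf x) n = x (Sum.inr (Sum.inl n)) := rfl
lemma cf_pg (x : E) (n : ℕ) : cf (pg x) n = x (Sum.inr (Sum.inr n)) := rfl

lemma jf_f (f : B) (n : ℕ) : jf f (Sum.inr (Sum.inl n)) = cf f n := push_apply _ injf f n
lemma jg_g (f : B) (n : ℕ) : jg f (Sum.inr (Sum.inr n)) = cf f n := push_apply _ injg f n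
lemma jf_g (f : B) (n : ℕ) : jf f (Sum.inr (Sum.inr n)) = 0 :=
  push_apply_not _ injf f _ (by rintro ⟨k, hk⟩; simp at hk)
lemma jg_f (f : B) (n : ℕ) : jg f (Sum.inr (Sum.inl n)) = 0 :=
  push_apply_not _ injg f _ (by rintro ⟨k, hk⟩; simp at hk)
lemma jf_s (f : B) (i : Fin 4) : jf f (Sum.inl i) = 0 :=
  push_apply_not _ injf f _ (by rintro ⟨k, hk⟩; simp at hk)
lemma jg_s (f : B) (i : Fin 4) : jg f (Sum.inl i) = 0 :=
  push_apply_not _ injg f _ (by rintro ⟨k, hk⟩; simp at hk)

lemma pf_le (x : E) : ‖pf x‖ ≤ ‖x‖ := pull_le _ injf x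
lemma pg_le (x : E) : ‖pg x‖ ≤ ‖x‖ := pull_le _ injg x
lemma jf_le (f : B) : ‖jf f‖ ≤ ‖f‖ := push_le _ injf f
lemma jg_le (f : B) : ‖jg f‖ ≤ ‖f‖ := push_le _ injg f

lemma E_apply_le (x : E) (i : Idx) : |x i| ≤ ‖x‖ :=
  lp.norm_apply_le_norm (by norm_num) x i

/-- scalar coordinates -/
noncomputable def ps (i : Fin 4) : E →L[ℝ] ℝ :=
  LinearMap.mkContinuous
    { toFun := fun x => x (Sum.inl i)
      map_add' := by intro x y; rfl
      map_smul' := by intro c x; rfl } 1 (by
        intro x
        rw [one_mul]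
        exact E_apply_le x _)

@[simp] lemma ps_apply (i : Fin 4) (x : E) : ps i x = x (Sum.inl i) := rfl

/-- the norm of `E` bounds each scalar coordinate plus ... (not needed in sharper form) -/
lemma E_ext {x y : E} (h0 : ∀ i, x (Sum.inl i) = y (Sum.inl i)) (h1 : pf x = pf y) (h2 : pg x = pg y) :
    x = y := by
  apply lp.ext
  funext i
  rcases i with i | n | n
  · exact h0 i
  · exact congrArg (fun f => cf f n) h1
  · exact congrArg (fun f => cf f n) h2

end Pool.Agent.H733R2
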