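import Mathlib

set_option autoImplicit false

open Finset

namespace Pool.Agent.H733R2

/-- `ℓ¹(ι)` -/
abbrev L1 (ι : Type) := lp (fun _ : ι => ℝ) 1

lemma l1_summable {ι : Type} (f : L1 ι) : Summable (fun i => |f i|) := by
  have h := (lp.memℓp f).summable (by norm_num : 0 < (1 : ENNReal).toReal)
  simpa using h

lemma l1_norm {ι : Type} (f : L1 ι) : ‖f‖ = ∑' i, |f i| := by
  have h := lp.norm_eq_tsum_rpow (by norm_num : 0 < (1 : ENNReal).toReal) f
  simpa using h

lemma memL1 {ι : Type} {f : ι → ℝ} (h : Summable fun i => |f i|) : Memℓp (E := fun _ : ι => ℝ) f 1 := by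
  apply memℓp_gen
  simpa using h

/-- constructor -/
noncomputable def mkL1 {ι : Type} (f : ι → ℝ) (h : Summable fun i => |f i|) : L1 ι := ⟨f, memL1 h⟩

@[simp] lemma mkL1_apply {ι : Type} (f : ι → ℝ) (h : Summable fun i => |f i|) (i : ι) :
    mkL1 f h i = f i := rfl

/-- The Wiener type Banach algebra of (scaled) power series. -/
def B : Type := L1 ℕ

noncomputable instance : NormedAddCommGroup B := inferInstanceAs (NormedAddCommGroup (L1 ℕ))
noncomputable instance : NormedSpace ℝ B := inferInstanceAs (NormedSpace ℝ (L1 ℕ))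
instance : CompleteSpace B := inferInstanceAs (CompleteSpace (L1 ℕ))

/-- coefficient -/
noncomputable def cf (f : B) (n : ℕ) : ℝ := (show L1 ℕ from f) n

lemma B.ext {f g : B} (h : ∀ n, cf f n = cf g n) : f = g := lp.ext (funext h)

@[simp] lemma cf_add (f g : B) (n : ℕ) : cf (f + g) n = cf f n + cf g n := rfl
@[simp] lemma cf_sub (f g : B) (n : ℕ) : cf (f - g) n = cf f n - cf g n := rfl
@[simp] lemma cf_neg (f : B) (n : ℕ) : cf (-f) n = -cf f n := rfl
@[simp] lemma cf_zero (n : ℕ) : cf 0 n = 0 := rfl
@[simp] lemma cf_smul (c : ℝ) (f : B) (n : ℕ) : cf (c • f) n = c * cf f n := rfl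

lemma B_summable (f : B) : Summable (fun n => |cf f n|) := l1_summable (ι := ℕ) f
lemma B_norm (f : B) : ‖f‖ = ∑' n, |cf f n| := l1_norm (ι := ℕ) f

lemma cf_le (f : B) (n : ℕ) : |cf f n| ≤ ‖f‖ := by
  rw [B_norm]
  exact (B_summable f).le_tsum n (fun _ _ => abs_nonneg _)

/-- constructor -/
noncomputable def mkB (f : ℕ → ℝ) (h : Summable fun i => |f i|) : B := mkL1 f h

@[simp] lemma cf_mkB (f : ℕ → ℝ) (h : Summable fun i => |f i|) (n : ℕ) : cf (mkB f h) n = f n := rfl

lemma conv_summable (f g : B) :
    Summable fun n => |∑ p ∈ antidiagonal n, cf f p.1 * cf g p.2| := by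
  have h := summable_norm_sum_mul_antidiagonal_of_summable_norm (R := ℝ) (f := cf f) (g := cf g)
    (B_summable f) (B_summable g)
  simpa using h

noncomputable instance : Mul B := ⟨fun f g =>
  mkB (fun n => ∑ p ∈ antidiagonal n, cf f p.1 * cf g p.2) (conv_summable f g)⟩

lemma cf_mul (f g : B) (n : ℕ) :
    cf (f * g) n = ∑ p ∈ antidiagonal n, cf f p.1 * cf g p.2 := rfl

lemma single_summable (c : ℝ) (k : ℕ) : Summable fun n => |if n = k then c else 0| := by
  apply summable_of_ne_finset_zero (s := {k})
  intro b hb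
  simp at hb
  simp [hb]

/-- monomial (scaled) -/
noncomputable def mono (c : ℝ) (k : ℕ) : B := mkB (fun n => if n = k then c else 0) (single_summable c k)

@[simp] lemma cf_mono (c : ℝ) (k n : ℕ) : cf (mono c k) n = if n = k then c else 0 := rfl

noncomputable instance : One B := ⟨mono 1 0⟩

lemma cf_one (n : ℕ) : cf 1 n = if n = 0 then 1 else 0 := rfl


/-- to formal power series -/
noncomputable def toPS (f : B) : PowerSeries ℝ := PowerSeries.mk (cf f)

lemma toPS_inj : Function.Injective toPS := by
  intro f g h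
  apply B.ext
  intro n
  have := congrArg (PowerSeries.coeff n) h
  simpa [toPS] using this

lemma toPS_add (f g : B) : toPS (f + g) = toPS f + toPS g := by
  ext n; simp [toPS]

lemma toPS_mul (f g : B) : toPS (f * g) = toPS f * toPS g := by
  ext n; simp [toPS, PowerSeries.coeff_mul, cf_mul]

lemma toPS_one : toPS 1 = 1 := by
  ext n; simp [toPS, PowerSeries.coeff_one, cf_one]

lemma toPS_zero : toPS 0 = 0 := by
  ext n; simp [toPS]

lemma toPS_neg (f : B) : toPS (-f) = -toPS f := by
  ext n; simp [toPS]

lemma toPS_sub (f g : B) : toPS (f - g) = toPS f - toPS g := by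
  ext n; simp [toPS]

lemma cf_nsmul (k : ℕ) (f : B) (n : ℕ) : cf (k • f) n = k • cf f n := rfl
lemma cf_zsmul (k : ℤ) (f : B) (n : ℕ) : cf (k • f) n = k • cf f n := rfl

noncomputable instance instCommRingB : CommRing B where
  __ := (inferInstance : AddCommGroup B)
  mul := (· * ·)
  one := 1
  left_distrib := by
    intro a b c; apply toPS_inj; simp only [toPS_mul, toPS_add]; ring
  right_distrib := by
    intro a b c; apply toPS_inj; simp only [toPS_mul, toPS_add]; ring
  zero_mul := by
    intro a; apply toPS_inj; simp only [toPS_mul, toPS_zero]; ring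
  mul_zero := by
    intro a; apply toPS_inj; simp only [toPS_mul, toPS_zero]; ring
  mul_assoc := by
    intro a b c; apply toPS_inj; simp only [toPS_mul]; ring
  one_mul := by
    intro a; apply toPS_inj; simp only [toPS_mul, toPS_one]; ring
  mul_one := by
    intro a; apply toPS_inj; simp only [toPS_mul, toPS_one]; ring
  mul_comm := by
    intro a b; apply toPS_inj; simp only [toPS_mul]; ring

lemma B_norm_mul (f g : B) : ‖f * g‖ ≤ ‖f‖ * ‖g‖ := by
  rw [B_norm, B_norm f, B_norm g]
  have hf := B_summable f
  have hg := B_summable g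
  have h1 := tsum_mul_tsum_eq_tsum_sum_antidiagonal_of_summable_norm (R := ℝ)
    (f := fun n => |cf f n|) (g := fun n => |cf g n|) (by simpa using hf) (by simpa using hg)
  rw [h1]
  have h2 := summable_norm_sum_mul_antidiagonal_of_summable_norm (R := ℝ)
    (f := fun n => |cf f n|) (g := fun n => |cf g n|) (by simpa using hf) (by simpa using hg)
  refine Summable.tsum_le_tsum ?_ (conv_summable f g) ?_
  · intro n
    rw [cf_mul]
    refine (Finset.abs_sum_le_sum_abs _ _).trans ?_
    apply Finset.sum_le_sum
    intro p _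
    rw [abs_mul]
  · refine h2.congr ?_
    intro n
    rw [Real.norm_eq_abs, abs_of_nonneg]
    exact Finset.sum_nonneg (fun p _ => mul_nonneg (abs_nonneg _) (abs_nonneg _))

noncomputable instance : NormedCommRing B where
  __ := (inferInstance : NormedAddCommGroup B)
  __ := instCommRingB
  norm_mul_le := B_norm_mul

lemma mono_norm (c : ℝ) (k : ℕ) : ‖mono c k‖ = |c| := by
  rw [B_norm, tsum_eq_single k]
  · simp
  · intro n hn; simp [hn]

instance : NormOneClass B := ⟨by
  show ‖(mono 1 0 : B)‖ = 1
  rw [mono_norm]; simp⟩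

noncomputable instance : Algebra ℝ B := Algebra.ofModule
  (by
    intro r x y
    apply B.ext
    intro n
    simp only [cf_smul, cf_mul, Finset.mul_sum]
    apply Finset.sum_congr rfl
    intro p _; ring)
  (by
    intro r x y
    apply B.ext
    intro n
    simp only [cf_smul, cf_mul, Finset.mul_sum]
    apply Finset.sum_congr rfl
    intro p _; ring)

noncomputable instance : NormedAlgebra ℝ B where
  norm_smul_le := norm_smul_le

example (f g : B) : (f + g) * (f - g) = f * f - g * g := by ring

end Pool.Agent.H733R2
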